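import Pool.Agent.Q281.QC.Loc

set_option autoImplicit false

/-!
# Congruences modulo powers of `δ = q^n - 1`
-/

namespace Pool.Agent.Q281.QC

open Polynomial

/-- `a ≡ b` modulo `δ^r`. -/
def Cg (n r : ℕ) (a b : RatFunc ℚ) : Prop := ∃ z ∈ Loc (Phi n), a - b = del n ^ r * z

namespace Cg

variable {n r : ℕ} {a b c d : RatFunc ℚ}

theorem refl (a : RatFunc ℚ) : Cg n r a a := ⟨0, zero_mem _, by ring⟩

theorem of_eq (h : a = b) : Cg n r a b := h ▸ refl a

theorem symm (h : Cg n r a b) : Cg n r b a := by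
  obtain ⟨z, hz, e⟩ := h
  exact ⟨-z, neg_mem hz, by linear_combination -e⟩

theorem trans (h : Cg n r a b) (h' : Cg n r b c) : Cg n r a c := by
  obtain ⟨z, hz, e⟩ := h
  obtain ⟨z', hz', e'⟩ := h'
  exact ⟨z + z', add_mem hz hz', by linear_combination e + e'⟩

theorem add (h : Cg n r a b) (h' : Cg n r c d) : Cg n r (a + c) (b + d) := by
  obtain ⟨z, hz, e⟩ := h
  obtain ⟨z', hz', e'⟩ := h'
  exact ⟨z + z', add_mem hz hz', by linear_combination e + e'⟩

theorem mul (hc : c ∈ Loc (Phi n)) (hb : b ∈ Loc (Phi n)) (h : Cg n r a b) (h' : Cg n r c d) :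
    Cg n r (a * c) (b * d) := by
  obtain ⟨z, hz, e⟩ := h
  obtain ⟨z', hz', e'⟩ := h'
  exact ⟨z * c + b * z', add_mem (mul_mem hz hc) (mul_mem hb hz'),
    by linear_combination c * e + b * e'⟩

theorem mul_left (hc : c ∈ Loc (Phi n)) (h : Cg n r a b) : Cg n r (c * a) (c * b) := by
  obtain ⟨z, hz, e⟩ := h
  exact ⟨c * z, mul_mem hc hz, by linear_combination c * e⟩

theorem mul_right (hc : c ∈ Loc (Phi n)) (h : Cg n r a b) : Cg n r (a * c) (b * c) := by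
  rw [mul_comm a, mul_comm b]
  exact h.mul_left hc

theorem mem_left (hb : b ∈ Loc (Phi n)) (h : Cg n r a b) : a ∈ Loc (Phi n) := by
  obtain ⟨z, hz, e⟩ := h
  have : a = b + del n ^ r * z := by linear_combination e
  rw [this]
  exact add_mem hb (mul_mem (pow_mem del_mem _) hz)

theorem inv (ha : a⁻¹ ∈ Loc (Phi n)) (hb : b⁻¹ ∈ Loc (Phi n)) (ha0 : a ≠ 0) (hb0 : b ≠ 0)
    (h : Cg n r a b) : Cg n r a⁻¹ b⁻¹ := by
  obtain ⟨z, hz, e⟩ := h
  refine ⟨-(z * a⁻¹ * b⁻¹), neg_mem (mul_mem (mul_mem hz ha) hb), ?_⟩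
  have h1 : a⁻¹ - b⁻¹ = -((a - b) * a⁻¹ * b⁻¹) := by
    field_simp
    ring
  rw [h1, e]
  ring

theorem prod {ι' : Type} {s : Finset ι'} {f g : ι' → RatFunc ℚ}
    (hf : ∀ i ∈ s, f i ∈ Loc (Phi n)) (hg : ∀ i ∈ s, g i ∈ Loc (Phi n))
    (h : ∀ i ∈ s, Cg n r (f i) (g i)) : Cg n r (∏ i ∈ s, f i) (∏ i ∈ s, g i) := by
  classical
  induction s using Finset.induction_on with
  | empty => simpa using refl (n := n) (r := r) (1 : RatFunc ℚ)
  | insert a s ha ih =>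
    rw [Finset.prod_insert ha, Finset.prod_insert ha]
    refine mul ?_ (hg a (Finset.mem_insert_self a s)) (h a (Finset.mem_insert_self a s))
      (ih (fun i hi => hf i (Finset.mem_insert_of_mem hi))
        (fun i hi => hg i (Finset.mem_insert_of_mem hi))
        (fun i hi => h i (Finset.mem_insert_of_mem hi)))
    exact prod_mem fun i hi => hf i (Finset.mem_insert_of_mem hi)

theorem sum {ι' : Type} {s : Finset ι'} {f g : ι' → RatFunc ℚ}
    (h : ∀ i ∈ s, Cg n r (f i) (g i)) : Cg n r (∑ i ∈ s, f i) (∑ i ∈ s, g i) := by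
  classical
  induction s using Finset.induction_on with
  | empty => simpa using refl (n := n) (r := r) (0 : RatFunc ℚ)
  | insert a s ha ih =>
    rw [Finset.sum_insert ha, Finset.sum_insert ha]
    exact add (h a (Finset.mem_insert_self a s))
      (ih (fun i hi => h i (Finset.mem_insert_of_mem hi)))

theorem pow (ha : a ∈ Loc (Phi n)) (hb : b ∈ Loc (Phi n)) (h : Cg n r a b) (k : ℕ) :
    Cg n r (a ^ k) (b ^ k) := by
  induction k with
  | zero => simpa using refl (n := n) (r := r) (1 : RatFunc ℚ)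
  | succ k ih =>
    rw [pow_succ, pow_succ]
    exact mul ha (pow_mem hb k) ih h

theorem mono {r' : ℕ} (hr : r' ≤ r) (h : Cg n r a b) : Cg n r' a b := by
  obtain ⟨z, hz, e⟩ := h
  refine ⟨del n ^ (r - r') * z, mul_mem (pow_mem del_mem _) hz, ?_⟩
  rw [e, ← mul_assoc, ← pow_add]
  congr 2
  omega

end Cg

/-- A rational number which is `0` modulo `δ` is `0`. -/
theorem rat_zero {n : ℕ} (hn : 0 < n) {c : ℚ} (h : Cg n 1 (c : RatFunc ℚ) 0) : c = 0 := by
  obtain ⟨z, hz, e⟩ := h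
  obtain ⟨g, hg⟩ := del_eq n
  have e1 : (c : RatFunc ℚ) = ι (Phi n) ^ 1 * (ι g * z) := by
    rw [sub_zero, hg] at e
    rw [e]
    ring
  have h1 := dvd_num 1 (mul_mem (poly_mem _ _) hz) e1
  have e2 : (c : RatFunc ℚ) = ι (C c) := by
    have : ι.comp C = Rat.castHom (RatFunc ℚ) := RingHom.ext_rat _ _
    exact (congrArg (fun f : ℚ →+* RatFunc ℚ => f c) this).symm
  rw [e2, RatFunc.num_algebraMap, pow_one] at h1
  by_contra hc
  have h2 : IsUnit (C c : Polynomial ℚ) := isUnit_C.2 (isUnit_iff_ne_zero.2 hc)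
  exact (phi_irr hn).not_isUnit (isUnit_of_dvd_unit h1 h2)

/-- Units: `u ≡ c` modulo `δ` with `c` a nonzero rational number. -/
theorem unit_of_cg {n : ℕ} (hn : 0 < n) {u : RatFunc ℚ} {c : ℚ} (hc : c ≠ 0)
    (h : Cg n 1 u (c : RatFunc ℚ)) : u⁻¹ ∈ Loc (Phi n) ∧ u ≠ 0 := by
  obtain ⟨g, hg⟩ := del_eq n
  have hu : u ∈ Loc (Phi n) := h.mem_left (rat_mem _ _)
  have hu0 : u ≠ 0 := by
    rintro rfl
    exact hc (rat_zero hn h.symm)
  refine ⟨?_, hu0⟩
  obtain ⟨A, D, hD, e⟩ := hu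
  have hA : IsCoprime A (Phi n) := by
    refine ((phi_irr hn).coprime_iff_not_dvd.2 ?_).symm
    rintro ⟨A', rfl⟩
    -- then u is divisible by Φ
    have hD0 : D ≠ 0 := by
      rintro rfl
      exact (phi_irr hn).not_isUnit (isCoprime_zero_left.1 hD)
    have e1 : u = ι (Phi n) ^ 1 * (ι A' * (ι D)⁻¹) := by
      have := ι_ne hD0
      field_simp
      rw [e, map_mul]
    have hm : ι A' * (ι D)⁻¹ ∈ Loc (Phi n) :=
      mul_mem (poly_mem _ _) (inv_mem (phi_irr hn).not_isUnit hD)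
    obtain ⟨z, hz, e2⟩ := h
    have e3 : (c : RatFunc ℚ) = ι (Phi n) ^ 1 * (ι A' * (ι D)⁻¹ - ι g * z) := by
      rw [hg] at e2
      rw [← sub_eq_zero, mul_sub, ← e1]
      linear_combination -e2
    have h1 := dvd_num 1 (sub_mem hm (mul_mem (poly_mem _ _) hz)) e3
    have e4 : (c : RatFunc ℚ) = ι (C c) := by
      have : ι.comp C = Rat.castHom (RatFunc ℚ) := RingHom.ext_rat _ _
      exact (congrArg (fun f : ℚ →+* RatFunc ℚ => f c) this).symm
    rw [e4, RatFunc.num_algebraMap, pow_one] at h1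
    have h2 : IsUnit (C c : Polynomial ℚ) := isUnit_C.2 (isUnit_iff_ne_zero.2 hc)
    exact (phi_irr hn).not_isUnit (isUnit_of_dvd_unit h1 h2)
  refine ⟨D, A, hA, ?_⟩
  rw [← e, ← mul_assoc, inv_mul_cancel₀ hu0, one_mul]

theorem del_ne {n : ℕ} (hn : 0 < n) : del n ≠ 0 := sub_ne_zero.2 (q_pow_ne_one hn)

/-- `[a]` in base `q^n`. -/
noncomputable def br (n : ℕ) (a : ℤ) : RatFunc ℚ := (q ^ ((n : ℤ) * a) - 1) / del n

theorem br_eq {n : ℕ} (hn : 0 < n) (a : ℤ) : 1 - q ^ ((n : ℤ) * a) = -(del n * br n a) := by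
  rw [br, mul_div_cancel₀ _ (del_ne hn)]
  ring

/-- Third order expansion. -/
theorem qz_exp3 {n : ℕ} (hn : 0 < n) (t : ℤ) :
    ∃ z ∈ Loc (Phi n), q ^ ((n : ℤ) * t) =
      1 + t * del n + (t * (t - 1) / 2) * del n ^ 2 + del n ^ 3 * z := by
  have hd : q ^ (n : ℤ) = 1 + del n := by rw [zpow_natCast, del]; ring
  have hq := q_ne
  have hh : ∀ i : ℤ, ((i * (i - 1) / 2 : RatFunc ℚ)) ∈ Loc (Phi n) := by
    intro i
    have := rat_mem (Phi n) ((i : ℚ) * (i - 1) / 2)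
    push_cast at this
    exact this
  induction t using Int.induction_on with
  | zero => exact ⟨0, zero_mem _, by simp⟩
  | succ i ih =>
    obtain ⟨z, hz, e⟩ := ih
    refine ⟨((i : ℤ) * ((i : ℤ) - 1) / 2 : RatFunc ℚ) + z * (1 + del n), add_mem (hh i)
      (mul_mem hz (add_mem (one_mem _) del_mem)), ?_⟩
    rw [mul_add, mul_one, zpow_add₀ hq, e, hd]
    push_cast
    ring
  | pred i ih =>
    obtain ⟨z, hz, e⟩ := ih
    have hi : q ^ (-(n : ℤ)) ∈ Loc (Phi n) := qz_mem hn _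
    refine ⟨q ^ (-(n : ℤ)) * (z - ((-(i : ℤ) - 1 : ℤ) * ((-(i : ℤ) - 1 : ℤ) - 1) / 2 : RatFunc ℚ)),
      mul_mem hi (sub_mem hz (hh _)), ?_⟩
    have h1 : q ^ (-(n : ℤ)) * (1 + del n) = 1 := by
      rw [← hd, ← zpow_add₀ hq]
      simp
    have h2 : q ^ ((n : ℤ) * (-(i : ℤ) - 1)) = q ^ (-(n : ℤ)) * q ^ ((n : ℤ) * (-(i : ℤ))) := by
      rw [← zpow_add₀ hq]
      congr 1
      ring
    rw [h2, e]
    push_cast
    linear_combination (1 - (i + 1) * del n + (i + 1) * (i + 2) / 2 * del n ^ 2) * h1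

/-- The expansion of `[a]`. -/
theorem br_cg {n : ℕ} (hn : 0 < n) (a : ℤ) :
    Cg n 2 (br n a) (a + (a * (a - 1) / 2) * del n) := by
  obtain ⟨z, hz, e⟩ := qz_exp3 hn a
  refine ⟨z, hz, ?_⟩
  have hd := del_ne hn
  rw [br, e]
  field_simp
  ring

theorem br_mem {n : ℕ} (hn : 0 < n) (a : ℤ) : br n a ∈ Loc (Phi n) := by
  refine (br_cg hn a).mem_left (add_mem (intCast_mem _ a) (mul_mem ?_ del_mem))
  have := rat_mem (Phi n) ((a : ℚ) * (a - 1) / 2)
  push_cast at this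
  exact this

theorem br_cg1 {n : ℕ} (hn : 0 < n) (a : ℤ) : Cg n 1 (br n a) (a : ℤ) := by
  have h1 := (br_cg hn a).mono (r' := 1) (by norm_num)
  refine h1.trans ⟨(a * (a - 1) / 2), ?_, by ring⟩
  have := rat_mem (Phi n) ((a : ℚ) * (a - 1) / 2)
  push_cast at this
  exact this

theorem br_unit {n : ℕ} (hn : 0 < n) {a : ℤ} (ha : a ≠ 0) :
    (br n a)⁻¹ ∈ Loc (Phi n) ∧ br n a ≠ 0 := by
  refine unit_of_cg hn (c := (a : ℚ)) (by exact_mod_cast ha) ?_
  have := br_cg1 hn a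
  push_cast
  exact this

end Pool.Agent.Q281.QC
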