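import Pool.Agent.Q281.QC.FinAB

set_option autoImplicit false

/-!
# Complete residue systems modulo `n = 4 t + 1`
-/

namespace Pool.Agent.Q281.QC

open Polynomial

/-- Second order expansion of a quotient of brackets. -/
theorem ratio1 {n : ℕ} (hn : 0 < n) (a : ℤ) {b : ℤ} (hb : b ≠ 0) :
    Cg n 2 ((1 - q ^ ((n : ℤ) * a)) / (1 - q ^ ((n : ℤ) * b)))
      (((a / b : ℚ) : RatFunc ℚ) * (1 + (((a - b) / 2 : ℚ) : RatFunc ℚ) * del n)) := by
  have hd := del_ne hn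
  rw [br_eq hn, br_eq hn, neg_div_neg_eq, mul_div_mul_left _ _ hd]
  have h1 : ∀ c : ℤ, Cg n 2 (br n c) (((c : ℚ) : RatFunc ℚ) *
      (1 + ((((c : ℚ) - 1) / 2 : ℚ) : RatFunc ℚ) * del n)) := by
    intro c
    refine (br_cg hn c).trans (Cg.of_eq ?_)
    push_cast
    ring
  have h2 := ratio (D := (b : ℚ)) (by exact_mod_cast hb) (h1 a) (h1 b) (br_unit hn hb).1
    (br_unit hn hb).2
  refine h2.trans (Cg.of_eq ?_)
  push_cast
  ring

variable (n : ℕ)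

/-- `(1 - Q^a q^e) / (1 - Q^b q^e)` for `e` not divisible by `n`. -/
noncomputable def FF (a b e : ℤ) : RatFunc ℚ :=
  if (n : ℤ) ∣ e then 1 else (1 - q ^ ((n : ℤ) * a + e)) / (1 - q ^ ((n : ℤ) * b + e))

variable {n}

theorem nd_add {a e : ℤ} (h : ¬ (n : ℤ) ∣ e) : ¬ (n : ℤ) ∣ (n : ℤ) * a + e := by
  rwa [dvd_add_right (dvd_mul_right _ _)]

theorem one_sub_ne_of_nd {z : ℤ} (h : ¬ (n : ℤ) ∣ z) : 1 - q ^ z ≠ 0 := by
  intro h0
  have hz0 : z ≠ 0 := by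
    rintro rfl
    exact h (dvd_zero _)
  exact qz_ne_one hz0 (sub_eq_zero.1 h0).symm

theorem FF_mem (hn : 0 < n) (a b e : ℤ) : FF n a b e ∈ Loc (Phi n) := by
  rw [FF]
  split_ifs with h
  · exact one_mem _
  · rw [div_eq_mul_inv]
    exact mul_mem (sub_mem (one_mem _) (qz_mem hn _)) (one_sub_z_inv_mem hn (nd_add h))

/-- The quotient depends only on the residue of `e`. -/
theorem FF_cg (hn : 0 < n) (a b e e' : ℤ) (h : (n : ℤ) ∣ e' - e) :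
    Cg n 2 (FF n a b e) (FF n a b e') := by
  obtain ⟨t, ht⟩ := h
  have he' : e' = e + n * t := by linarith
  have hiff : (n : ℤ) ∣ e' ↔ (n : ℤ) ∣ e := by
    rw [he', dvd_add_left (dvd_mul_right _ _)]
  rw [FF, FF]
  by_cases h : (n : ℤ) ∣ e
  · rw [if_pos h, if_pos (hiff.2 h)]
    exact Cg.refl _
  · rw [if_neg h, if_neg fun h' => h (hiff.1 h')]
    have h1 := one_sub_z_inv_mem hn (nd_add (a := b) h)
    have h2 := one_sub_z_inv_mem hn (nd_add (a := b) (fun h' => h (hiff.1 h')))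
    have n1 := one_sub_ne_of_nd (nd_add (a := b) h)
    have n2 := one_sub_ne_of_nd (nd_add (a := b) (fun h' => h (hiff.1 h')))
    refine ⟨(1 - q ^ ((n : ℤ) * b + e))⁻¹ * (1 - q ^ ((n : ℤ) * b + e'))⁻¹ *
      (q ^ e * (-(br n a - br n b)) * (-(br n t))),
      mul_mem (mul_mem h1 h2) (mul_mem (mul_mem (qz_mem hn _) (neg_mem (sub_mem (br_mem hn _)
        (br_mem hn _)))) (neg_mem (br_mem hn _))), ?_⟩
    have ha : q ^ ((n : ℤ) * a) = 1 + del n * br n a := by linear_combination -br_eq hn a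
    have hb : q ^ ((n : ℤ) * b) = 1 + del n * br n b := by linear_combination -br_eq hn b
    have hte : q ^ ((n : ℤ) * t) = 1 + del n * br n t := by linear_combination -br_eq hn t
    rw [div_sub_div _ _ n1 n2, div_eq_mul_inv, mul_inv]
    have e3 : (1 - q ^ ((n : ℤ) * a + e)) * (1 - q ^ ((n : ℤ) * b + e')) -
        (1 - q ^ ((n : ℤ) * b + e)) * (1 - q ^ ((n : ℤ) * a + e')) =
        del n ^ 2 * (q ^ e * (-(br n a - br n b)) * (-(br n t))) := by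
      have e4 : ∀ c : ℤ, q ^ ((n : ℤ) * c + e) = q ^ ((n : ℤ) * c) * q ^ e := fun c =>
        zpow_add₀ q_ne _ _
      have e5 : ∀ c : ℤ, q ^ ((n : ℤ) * c + e') = q ^ ((n : ℤ) * c) * q ^ e * q ^ ((n : ℤ) * t) := by
        intro c
        rw [he', ← add_assoc, zpow_add₀ q_ne, zpow_add₀ q_ne]
      rw [e4, e4, e5, e5, ha, hb, hte]
      ring
    rw [e3]
    ring

/-- A product over a complete residue system `4 j + κ`. -/
theorem prod_res (hn : 0 < n) (hodd : Nat.Coprime n 4) (a b : ℤ) (κ : ℕ) :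
    Cg n 2 (∏ j ∈ Finset.range n, FF n a b (4 * j + κ)) (∏ c ∈ Finset.range n, FF n a b c) := by
  have h1 : Cg n 2 (∏ j ∈ Finset.range n, FF n a b (4 * j + κ))
      (∏ j ∈ Finset.range n, FF n a b (((4 * j + κ) % n : ℕ) : ℤ)) := by
    refine Cg.prod (fun j _ => FF_mem hn _ _ _) (fun j _ => FF_mem hn _ _ _) (fun j _ => ?_)
    refine FF_cg hn a b _ _ ?_
    have h2 : (((4 * j + κ) % n : ℕ) : ℤ) = (4 * j + κ : ℤ) - n * (((4 * j + κ) / n : ℕ) : ℤ) := by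
      have := Nat.mod_add_div (4 * j + κ) n
      have h3 : (((4 * j + κ) % n : ℕ) : ℤ) + n * (((4 * j + κ) / n : ℕ) : ℤ) = 4 * j + κ := by
        exact_mod_cast this
      linarith
    rw [h2]
    refine ⟨-(((4 * j + κ) / n : ℕ) : ℤ), by ring⟩
  refine h1.trans (Cg.of_eq ?_)
  have hinj : Set.InjOn (fun j => (4 * j + κ) % n) (Finset.range n : Set ℕ) := by
    intro i hi j hj hij
    simp only [Finset.coe_range, Set.mem_Iio] at hi hj
    have h2 : 4 * i + κ ≡ 4 * j + κ [MOD n] := hij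
    have h3 : 4 * i ≡ 4 * j [MOD n] := Nat.ModEq.add_right_cancel' κ h2
    have h4 : i ≡ j [MOD n] := Nat.ModEq.cancel_left_of_coprime hodd h3
    have h5 : i % n = j % n := h4
    rwa [Nat.mod_eq_of_lt hi, Nat.mod_eq_of_lt hj] at h5
  have hmaps : Set.MapsTo (fun j => (4 * j + κ) % n) (Finset.range n : Set ℕ)
      (Finset.range n : Set ℕ) := by
    intro j _
    simp only [Finset.coe_range, Set.mem_Iio]
    exact Nat.mod_lt _ hn
  refine Finset.prod_nbij (fun j => (4 * j + κ) % n) (fun j _ => ?_) hinj ?_ (fun j _ => rfl)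
  · exact Finset.mem_range.2 (Nat.mod_lt _ hn)
  · exact Finset.surjOn_of_injOn_of_card_le _ hmaps hinj le_rfl

/-- The regular part of `∏ (1 - Q^s q^(4j+κ))`. -/
noncomputable def uN (n κ : ℕ) (s : ℤ) : RatFunc ℚ := ∏ j ∈ Finset.range n,
  (if (n : ℤ) ∣ 4 * (j : ℤ) + κ then 1 else 1 - q ^ ((n : ℤ) * s + (4 * j + κ)))

theorem uN_mem (hn : 0 < n) (κ : ℕ) (s : ℤ) : uN n κ s ∈ Loc (Phi n) := by
  rw [uN]
  refine prod_mem fun j _ => ?_
  split_ifs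
  · exact one_mem _
  · exact sub_mem (one_mem _) (qz_mem hn _)

theorem uN_inv (hn : 0 < n) (κ : ℕ) (s : ℤ) : (uN n κ s)⁻¹ ∈ Loc (Phi n) ∧ uN n κ s ≠ 0 := by
  rw [uN]
  constructor
  · rw [← Finset.prod_inv_distrib]
    refine prod_mem fun j _ => ?_
    split_ifs with h
    · rw [inv_one]
      exact one_mem _
    · exact one_sub_z_inv_mem hn (nd_add h)
  · rw [Finset.prod_ne_zero_iff]
    intro j _
    split_ifs with h
    · exact one_ne_zero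
    · exact one_sub_ne_of_nd (nd_add h)

theorem uN_FF (κ : ℕ) (s s' : ℤ) :
    uN n κ s = uN n κ s' * ∏ j ∈ Finset.range n, FF n s s' (4 * j + κ) := by
  rw [uN, uN, ← Finset.prod_mul_distrib]
  refine Finset.prod_congr rfl fun j _ => ?_
  rw [FF]
  by_cases h : (n : ℤ) ∣ 4 * (j : ℤ) + κ
  · rw [if_pos h, if_pos h, if_pos h, mul_one]
  · rw [if_neg h, if_neg h, if_neg h, mul_div_cancel₀ _ (one_sub_ne_of_nd (nd_add h))]

theorem split_one {n j0 : ℕ} (h : j0 < n) (P : ℕ → Prop) [DecidablePred P]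
    (hP : ∀ j < n, (P j ↔ j = j0)) (f : ℕ → RatFunc ℚ) :
    ∏ j ∈ Finset.range n, f j = (∏ j ∈ Finset.range n, if P j then 1 else f j) * f j0 := by
  have h1 : ∏ j ∈ Finset.range n, (if P j then 1 else f j) =
      ∏ j ∈ (Finset.range n).erase j0, f j := by
    rw [← Finset.mul_prod_erase _ _ (Finset.mem_range.2 h), if_pos ((hP j0 h).2 rfl), one_mul]
    refine Finset.prod_congr rfl fun j hj => ?_
    rw [Finset.mem_erase, Finset.mem_range] at hj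
    rw [if_neg fun h' => hj.1 ((hP j hj.2).1 h')]
  rw [h1, mul_comm, Finset.mul_prod_erase _ _ (Finset.mem_range.2 h)]

theorem dvd1 {t j : ℕ} (hj : j < 4 * t + 1) :
    ((4 * t + 1 : ℕ) : ℤ) ∣ 4 * (j : ℤ) + ((1 : ℕ) : ℤ) ↔ j = t := by
  have e : (4 * (j : ℤ) + ((1 : ℕ) : ℤ)) = ((4 * j + 1 : ℕ) : ℤ) := by push_cast; ring
  rw [e, Int.natCast_dvd_natCast]
  constructor
  · rintro ⟨c, hc⟩
    have h1 : c < 4 := by
      by_contra h2
      have : (4 * t + 1) * 4 ≤ (4 * t + 1) * c := Nat.mul_le_mul_left _ (by omega)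
      omega
    interval_cases c <;> omega
  · rintro rfl
    exact dvd_rfl

theorem dvd3 {t j : ℕ} (hj : j < 4 * t + 1) :
    ((4 * t + 1 : ℕ) : ℤ) ∣ 4 * (j : ℤ) + ((3 : ℕ) : ℤ) ↔ j = 3 * t := by
  have e : (4 * (j : ℤ) + ((3 : ℕ) : ℤ)) = ((4 * j + 3 : ℕ) : ℤ) := by push_cast; ring
  rw [e, Int.natCast_dvd_natCast]
  constructor
  · rintro ⟨c, hc⟩
    have h1 : c < 4 := by
      by_contra h2
      have : (4 * t + 1) * 4 ≤ (4 * t + 1) * c := Nat.mul_le_mul_left _ (by omega)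
      omega
    interval_cases c <;> omega
  · rintro rfl
    exact ⟨3, by ring⟩

theorem prod_neg_q (n K : ℕ) : ∏ j ∈ Finset.range K, (-(q ^ (2 * (n : ℤ) - 4 * j - 1))) =
    (-1) ^ K * q ^ (2 * (n : ℤ) * K - 2 * K ^ 2 + K) := by
  induction K with
  | zero => simp
  | succ K ih =>
    rw [Finset.prod_range_succ, ih, pow_succ]
    have e : (2 * (n : ℤ) * (K + 1 : ℕ) - 2 * ((K + 1 : ℕ) : ℤ) ^ 2 + ((K + 1 : ℕ) : ℤ)) =
        (2 * (n : ℤ) * K - 2 * K ^ 2 + K) + (2 * (n : ℤ) - 4 * K - 1) := by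
      push_cast
      ring
    rw [e, zpow_add₀ q_ne (2 * (n : ℤ) * K - 2 * K ^ 2 + K) (2 * (n : ℤ) - 4 * K - 1)]
    have h : ∀ a b c : RatFunc ℚ, a * b * -c = a * -1 * (b * c) := fun a b c => by ring
    exact h _ _ _

/-- The exact symmetry at `s = -2`. -/
theorem uN_symm (t : ℕ) : uN (4 * t + 1) 3 (-2) = uN (4 * t + 1) 1 (-2) := by
  set n := 4 * t + 1 with hn
  have hnz : (n : ℤ) = 4 * t + 1 := by rw [hn]; push_cast; ring
  rw [uN, uN, ← Finset.prod_range_reflect]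
  have h1 : ∀ j ∈ Finset.range n, (if (n : ℤ) ∣ 4 * ((n - 1 - j : ℕ) : ℤ) + ((3 : ℕ) : ℤ) then
      (1 : RatFunc ℚ) else 1 - q ^ ((n : ℤ) * (-2) + (4 * ((n - 1 - j : ℕ) : ℤ) + ((3 : ℕ) : ℤ)))) =
      (if (n : ℤ) ∣ 4 * (j : ℤ) + ((1 : ℕ) : ℤ) then 1 else
        -(q ^ (2 * (n : ℤ) - 4 * j - 1))) *
      (if (n : ℤ) ∣ 4 * (j : ℤ) + ((1 : ℕ) : ℤ) then 1 else
        1 - q ^ ((n : ℤ) * (-2) + (4 * (j : ℤ) + ((1 : ℕ) : ℤ)))) := by
    intro j hj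
    rw [Finset.mem_range] at hj
    have e1 : ((n - 1 - j : ℕ) : ℤ) = n - 1 - j := by omega
    rw [e1]
    have e2 : (n : ℤ) ∣ 4 * ((n : ℤ) - 1 - j) + ((3 : ℕ) : ℤ) ↔ (n : ℤ) ∣ 4 * (j : ℤ) + ((1 : ℕ) : ℤ) := by
      have e3 : 4 * ((n : ℤ) - 1 - j) + ((3 : ℕ) : ℤ) = n * 4 - (4 * (j : ℤ) + ((1 : ℕ) : ℤ)) := by
        push_cast
        ring
      rw [e3]
      exact dvd_sub_right (dvd_mul_right _ _)
    by_cases h : (n : ℤ) ∣ 4 * (j : ℤ) + ((1 : ℕ) : ℤ)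
    · rw [if_pos (e2.2 h), if_pos h, if_pos h, mul_one]
    · rw [if_neg fun h' => h (e2.1 h'), if_neg h, if_neg h]
      have e4 : (n : ℤ) * (-2) + (4 * ((n : ℤ) - 1 - j) + ((3 : ℕ) : ℤ)) = 2 * (n : ℤ) - 4 * j - 1 := by
        push_cast
        ring
      have e5 : q ^ (2 * (n : ℤ) - 4 * j - 1) * q ^ ((n : ℤ) * (-2) + (4 * (j : ℤ) + ((1 : ℕ) : ℤ))) =
          1 := by
        rw [← zpow_add₀ q_ne]
        have e6 : (2 * (n : ℤ) - 4 * j - 1) + ((n : ℤ) * (-2) + (4 * (j : ℤ) + ((1 : ℕ) : ℤ))) = 0 := by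
          push_cast
          ring
        rw [e6, zpow_zero]
      rw [e4]
      linear_combination -e5
  rw [Finset.prod_congr rfl h1, Finset.prod_mul_distrib]
  have h2 := split_one (n := n) (j0 := t) (by omega) (fun j => (n : ℤ) ∣ 4 * (j : ℤ) + ((1 : ℕ) : ℤ))
    (fun j hj => dvd1 hj) (fun j => -(q ^ (2 * (n : ℤ) - 4 * j - 1)))
  rw [prod_neg_q] at h2
  have e7 : (2 * (n : ℤ) * n - 2 * (n : ℤ) ^ 2 + n) = n := by ring
  have e8 : (2 * (n : ℤ) - 4 * t - 1) = n := by rw [hnz]; ring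
  have e9 : ((-1 : RatFunc ℚ)) ^ n = -1 := by
    rw [hn, pow_succ, pow_mul]
    norm_num
  rw [e7, e8, e9] at h2
  have h3 : (∏ j ∈ Finset.range n, (if (n : ℤ) ∣ 4 * (j : ℤ) + ((1 : ℕ) : ℤ) then (1 : RatFunc ℚ) else
      -(q ^ (2 * (n : ℤ) - 4 * j - 1)))) = 1 := by
    have h4 : q ^ (n : ℤ) ≠ 0 := zpow_ne_zero _ q_ne
    apply mul_right_cancel₀ (neg_ne_zero.2 h4)
    rw [← h2]
    ring
  rw [h3, one_mul]

/-- The regular parts agree modulo `δ^2`. -/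
theorem uN_cg (t : ℕ) (s : ℤ) : Cg (4 * t + 1) 2 (uN (4 * t + 1) 1 s / uN (4 * t + 1) 3 s) 1 := by
  set n := 4 * t + 1 with hn
  have hn0 : 0 < n := by omega
  have hco : Nat.Coprime n 4 := by
    have : Nat.Coprime n 2 := by
      rw [Nat.coprime_two_right, Nat.odd_iff]
      omega
    have h2 := this.pow_right 2
    norm_num at h2
    exact h2
  have h1 := prod_res hn0 hco s (-2) 1
  have h3 := prod_res hn0 hco s (-2) 3
  have h4 := (h1.trans h3.symm).mul_left (uN_mem hn0 1 (-2))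
  have e1 := uN_FF (n := n) 1 s (-2)
  have e3 := uN_FF (n := n) 3 s (-2)
  rw [uN_symm] at e3
  rw [← e1] at h4
  have e3' : uN n 1 (-2) * ∏ j ∈ Finset.range n, FF n s (-2) (4 * (j : ℤ) + ((3 : ℕ) : ℤ)) =
      uN n 3 s := by rw [e3]
  rw [e3'] at h4
  obtain ⟨hi, hne⟩ := uN_inv hn0 3 s
  have h5 := h4.mul_right hi
  rw [mul_inv_cancel₀ hne] at h5
  rw [div_eq_mul_inv]
  exact h5

/-- A block of the products. -/
noncomputable def blk (n : ℕ) (s : ℤ) : RatFunc ℚ := ∏ j ∈ Finset.range n,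
  ((1 - q ^ ((n : ℤ) * s + (4 * (j : ℤ) + ((1 : ℕ) : ℤ)))) /
    (1 - q ^ ((n : ℤ) * s + (4 * (j : ℤ) + ((3 : ℕ) : ℤ)))))

theorem blk_eq (t : ℕ) (s : ℤ) : blk (4 * t + 1) s =
    (uN (4 * t + 1) 1 s / uN (4 * t + 1) 3 s) *
      ((1 - q ^ (((4 * t + 1 : ℕ) : ℤ) * (s + 1))) / (1 - q ^ (((4 * t + 1 : ℕ) : ℤ) * (s + 3)))) := by
  set n := 4 * t + 1 with hn
  have hnz : (n : ℤ) = 4 * t + 1 := by rw [hn]; push_cast; ring
  rw [blk, Finset.prod_div_distrib,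
    split_one (n := n) (j0 := t) (by omega) (fun j => (n : ℤ) ∣ 4 * (j : ℤ) + ((1 : ℕ) : ℤ))
      (fun j hj => dvd1 hj) (fun j => 1 - q ^ ((n : ℤ) * s + (4 * (j : ℤ) + ((1 : ℕ) : ℤ)))),
    split_one (n := n) (j0 := 3 * t) (by omega) (fun j => (n : ℤ) ∣ 4 * (j : ℤ) + ((3 : ℕ) : ℤ))
      (fun j hj => dvd3 hj) (fun j => 1 - q ^ ((n : ℤ) * s + (4 * (j : ℤ) + ((3 : ℕ) : ℤ))))]
  have e1 : (n : ℤ) * s + (4 * (t : ℤ) + ((1 : ℕ) : ℤ)) = n * (s + 1) := by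
    rw [hnz]; push_cast; ring
  have e3 : (n : ℤ) * s + (4 * ((3 * t : ℕ) : ℤ) + ((3 : ℕ) : ℤ)) = n * (s + 3) := by
    rw [hnz]; push_cast; ring
  rw [e1, e3, mul_div_mul_comm]
  rfl

theorem blk_cg (t : ℕ) {s : ℤ} (hs : s + 3 ≠ 0) : Cg (4 * t + 1) 2 (blk (4 * t + 1) s)
    ((((s + 1) / (s + 3) : ℚ) : RatFunc ℚ) * (1 - del (4 * t + 1))) := by
  have hn0 : 0 < 4 * t + 1 := by omega
  rw [blk_eq]
  have h1 := ratio1 (n := 4 * t + 1) hn0 (s + 1) hs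
  have hm : (((((s + 1 : ℤ) : ℚ) / ((s + 3 : ℤ) : ℚ) : ℚ) : RatFunc ℚ) *
      (1 + (((((s + 1 : ℤ) : ℚ) - ((s + 3 : ℤ) : ℚ)) / 2 : ℚ) : RatFunc ℚ) * del (4 * t + 1))) ∈
      Loc (Phi (4 * t + 1)) :=
    mul_mem (ratc _ _) (add_mem (one_mem _) (mul_mem (ratc _ _) del_mem))
  have h2 := Cg.mul (h1.mem_left hm) (one_mem _) (uN_cg t s) h1
  refine h2.trans (Cg.of_eq ?_)
  push_cast
  ring

end Pool.Agent.Q281.QC
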