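import Pool.Agent.Q281.QC.Engine2

set_option autoImplicit false

/-!
# The triangular system
-/

namespace Pool.Agent.Q281.QC

open Polynomial

section

variable {n b b' κ θ : ℕ}

theorem ww_ne (hθ0 : θ ≠ 0)
    (hadm : ∀ l i : ℕ, l < i → ((θ : ℤ) * (l + 1)) ^ 2 ≠ (κ * (2 * i + 1)) ^ 2) (i : ℕ) :
    ww κ θ (2 * i + 1) i ≠ 0 := by
  rw [ww, Finset.prod_ne_zero_iff]
  intro l hl
  rw [Finset.mem_range] at hl
  unfold cS
  have h1 : ((2 * (l : ℚ) + 1) ^ 2 - ((2 * i + 1 : ℤ) : ℚ) ^ 2) ≠ 0 := by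
    push_cast
    have h2 : ((2 * (l : ℚ) + 1) ^ 2 - (2 * (i : ℚ) + 1) ^ 2) = -(4 * (i - l) * (i + l + 1)) := by ring
    have h3 : (l : ℚ) < i := by exact_mod_cast hl
    have h4 : (0 : ℚ) ≤ l := by positivity
    have h5 : (0 : ℚ) < i - l := by linarith
    have h6 : (0 : ℚ) < (i : ℚ) + l + 1 := by linarith
    rw [h2]
    have := mul_pos (mul_pos (by norm_num : (0 : ℚ) < 4) h5) h6
    linarith [this]
  have h2 : (2 * (l : ℚ) + 1) ≠ 0 := by positivity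
  have h3 : ((θ : ℚ) * (l + 1)) ≠ 0 := by
    have : (θ : ℚ) ≠ 0 := by exact_mod_cast hθ0
    positivity
  have h4 : ((θ : ℚ) * (l + 1)) ^ 2 - ((κ : ℚ) * ((2 * i + 1 : ℤ) : ℚ)) ^ 2 ≠ 0 := by
    have := hadm l i hl
    rw [sub_ne_zero]
    exact_mod_cast this
  exact div_ne_zero (mul_ne_zero h1 h2) (mul_ne_zero h4 h3)

theorem engine (hodd : n % 2 = 1) (hb : Nat.Coprime n b) (hb' : Nat.Coprime n b')
    (hθ : Nat.Coprime n θ) (hb0 : b ≠ 0) (hb0' : b' ≠ 0) (hθ0 : θ ≠ 0) (σ : ℕ → RatFunc ℚ)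
    (hσ : ∀ k, σ k ∈ Loc (Phi n)) (μ e : ℕ → ℚ) {lam : RatFunc ℚ}
    (E : ℕ → RatFunc ℚ)
    (hadm : ∀ l i : ℕ, l < i → ((θ : ℤ) * (l + 1)) ^ 2 ≠ (κ * (2 * i + 1)) ^ 2)
    (hE : ∀ i : ℕ, ∑ k ∈ Finset.range ((i + 1) * n), σ k * PP b b' κ θ (n * (2 * i + 1)) k = E i)
    (hEc : ∀ i, Cg n 2 (E i) (lam * (e i : RatFunc ℚ)))
    (hμ : ∀ i : ℕ, ∑ l ∈ Finset.range (i + 1), ww κ θ (2 * i + 1) l * μ l = e i) (m : ℕ) :
    Cg n 2 (∑ k ∈ Finset.range (m * n), σ k * PP b b' κ θ 0 k)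
      (lam * ((∑ l ∈ Finset.range m, ww κ θ 0 l * μ l : ℚ) : RatFunc ℚ)) := by
  have key : ∀ l, Cg n 2 (BB n b b' θ σ l) (lam * (μ l : RatFunc ℚ)) := by
    intro i
    induction i using Nat.strong_induction_on with
    | _ i ih =>
      have h1 := sum_cg κ hodd hb hb' hθ hb0 hb0' hθ0 σ hσ (2 * i + 1) (i + 1)
        (fun l hl => hadm l i (by omega))
      rw [hE i] at h1
      have h2 : Cg n 2 (∑ l ∈ Finset.range i, (ww κ θ (2 * i + 1) l : RatFunc ℚ) * BB n b b' θ σ l)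
          (∑ l ∈ Finset.range i, (ww κ θ (2 * i + 1) l : RatFunc ℚ) * (lam * (μ l : RatFunc ℚ))) :=
        Cg.sum fun l hl => (ih l (Finset.mem_range.1 hl)).mul_left (ratc n _)
      have h3 := h1.symm.trans (hEc i)
      rw [← hμ i, Finset.sum_range_succ] at h3
      push_cast at h3
      rw [Finset.sum_range_succ] at h3
      have hw : ((ww κ θ (2 * i + 1) i : ℚ) : RatFunc ℚ) ≠ 0 := by
        exact_mod_cast ww_ne hθ0 hadm i
      obtain ⟨z2, hz2, e2⟩ := h2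
      obtain ⟨z3, hz3, e3⟩ := h3
      refine ⟨(((ww κ θ (2 * i + 1) i)⁻¹ : ℚ) : RatFunc ℚ) * (z3 - z2),
        mul_mem (ratc n _) (sub_mem hz3 hz2), ?_⟩
      have e4 : ((ww κ θ (2 * i + 1) i : ℚ) : RatFunc ℚ) *
          (BB n b b' θ σ i - lam * (μ i : RatFunc ℚ)) = del n ^ 2 * (z3 - z2) := by
        have e5 : ∑ l ∈ Finset.range i, (ww κ θ (2 * i + 1) l : RatFunc ℚ) *
            (lam * (μ l : RatFunc ℚ)) = lam * ∑ l ∈ Finset.range i,
              (ww κ θ (2 * i + 1) l : RatFunc ℚ) * (μ l : RatFunc ℚ) := by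
          rw [Finset.mul_sum]
          exact Finset.sum_congr rfl fun l _ => by ring
        rw [e5] at e2
        linear_combination e3 - e2
      apply mul_left_cancel₀ hw
      rw [e4]
      push_cast
      field_simp
  have h0 := sum_cg κ hodd hb hb' hθ hb0 hb0' hθ0 σ hσ 0 m (by
    intro i _ h
    rw [mul_zero] at h
    have h1 : (θ : ℤ) * (i + 1) ≠ 0 := by
      have : (0 : ℤ) < θ := by exact_mod_cast Nat.pos_of_ne_zero hθ0
      positivity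
    have h2 : ((θ : ℤ) * (i + 1)) ^ 2 ≠ 0 := pow_ne_zero 2 h1
    apply h2
    rw [h]
    norm_num)
  rw [mul_zero] at h0
  refine h0.trans ?_
  rw [Rat.cast_sum, Finset.mul_sum]
  refine Cg.sum fun l _ => ?_
  refine ((key l).mul_left (ratc n _)).trans (Cg.of_eq ?_)
  push_cast
  ring

theorem rat_identity (hb0 : b ≠ 0) (hb0' : b' ≠ 0) (hθ0 : θ ≠ 0) (σ : ℕ → RatFunc ℚ)
    (μ : ℕ → ℚ) (hσ : ∀ k, Cg 1 1 (σ k) (μ k : RatFunc ℚ))
    (hadm : ∀ l i : ℕ, l < i → ((θ : ℤ) * (l + 1)) ^ 2 ≠ (κ * (2 * i + 1)) ^ 2) (i : ℕ)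
    {E : RatFunc ℚ} {e : ℚ}
    (hE : ∑ k ∈ Finset.range (i + 1), σ k * PP b b' κ θ (2 * i + 1) k = E)
    (hEc : Cg 1 1 E (e : RatFunc ℚ)) :
    ∑ l ∈ Finset.range (i + 1), ww κ θ (2 * i + 1) l * μ l = e := by
  have hσm : ∀ k, σ k ∈ Loc (Phi 1) := fun k => (hσ k).mem_left (ratc 1 _)
  have hR : ∀ k, Rg 1 b b' θ k = 1 := by
    intro k
    rw [Rg]
    refine Finset.prod_eq_one fun i _ => ?_
    rw [rN, rD, if_pos (one_dvd _), if_pos (one_dvd _), div_one]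
  have hU : ∀ l, Cg 1 1 (uu 1 b b' θ l) 1 := by
    intro l
    rw [uu]
    have h1 : ∀ i : ℕ, Cg 1 1 (1 + (((2 * b + b') * (2 * i + 1 - θ * (i + 1)) / 2 : ℚ) : RatFunc ℚ) *
        del 1) 1 := fun i => ⟨(((2 * b + b') * (2 * i + 1 - θ * (i + 1)) / 2 : ℚ) : RatFunc ℚ),
          ratc 1 _, by ring⟩
    have h2 := Cg.prod (n := 1) (r := 1) (s := Finset.range l)
      (f := fun i : ℕ => (1 + (((2 * b + b') * (2 * i + 1 - θ * (i + 1)) / 2 : ℚ) : RatFunc ℚ) *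
        del 1)) (g := fun _ => 1)
      (fun i _ => (h1 i).mem_left (one_mem _)) (fun _ _ => one_mem _) (fun i _ => h1 i)
    simpa using h2
  have hP : ∀ k ∈ Finset.range (i + 1), Cg 1 1 (σ k * PP b b' κ θ (2 * i + 1) k)
      ((μ k : RatFunc ℚ) * (ww κ θ (2 * i + 1) k : RatFunc ℚ)) := by
    intro k hk
    rw [Finset.mem_range] at hk
    have h1 := PP_cg (n := 1) κ (b := b) (b' := b') (θ := θ) (by norm_num) (Nat.coprime_one_left b)
      (Nat.coprime_one_left b') (Nat.coprime_one_left θ) hb0 hb0' hθ0 (2 * i + 1) k 0 one_pos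
      (fun l hl => hadm l i (by omega))
    rw [if_pos (by norm_num), hR, Nat.cast_one, one_mul, mul_one, add_zero, mul_one] at h1
    have h2 := (h1.mono (r' := 1) (by norm_num)).trans ((hU k).mul_left (ratc 1 _))
    rw [mul_one] at h2
    have h3 : PP b b' κ θ (2 * i + 1) k ∈ Loc (Phi 1) := h2.mem_left (ratc 1 _)
    exact Cg.mul h3 (ratc 1 _) (hσ k) h2
  have h4 := Cg.sum hP
  rw [hE] at h4
  have h5 := h4.symm.trans hEc
  have h6 : Cg 1 1 (((∑ l ∈ Finset.range (i + 1), ww κ θ (2 * i + 1) l * μ l - e : ℚ)) :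
      RatFunc ℚ) 0 := by
    obtain ⟨z, hz, e1⟩ := h5
    refine ⟨z, hz, ?_⟩
    rw [sub_zero, ← e1, Rat.cast_sub, Rat.cast_sum]
    congr 1
    refine Finset.sum_congr rfl fun l _ => ?_
    push_cast
    ring
  have h7 := rat_zero one_pos h6
  linarith

end

end Pool.Agent.Q281.QC
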