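import Pool.Agent.Q281.QC.WZ2
import Pool.Agent.Q281.QC.Engine3

set_option autoImplicit false

/-!
# The four terminating sums
-/

namespace Pool.Agent.Q281.QC

open Polynomial

theorem pa_zero {K : Type} [Field K] {q : K} (hq0 : q ≠ 0) {M k : ℕ} (h : M < k) :
    pa q (q ^ (2 * M + 1)) k = 0 := by
  rw [pa]
  refine Finset.prod_eq_zero (Finset.mem_range.2 h) ?_
  rw [inv_mul_cancel₀ (pow_ne_zero _ hq0)]
  simp

theorem pb_zero {K : Type} [Field K] {q : K} (hq0 : q ≠ 0) {M k : ℕ} (h : M < k) :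
    pb q (q ^ (2 * M + 1)) k = 0 := by
  rw [pb]
  refine Finset.prod_eq_zero (Finset.mem_range.2 h) ?_
  rw [inv_mul_cancel₀ (pow_ne_zero _ hq0)]
  simp

theorem pd_zero {K : Type} [Field K] {q : K} (hq0 : q ≠ 0) {M k : ℕ} (h : M < k) :
    pd q (q ^ (2 * M + 1)) k = 0 := by
  rw [pd]
  refine Finset.prod_eq_zero (Finset.mem_range.2 h) ?_
  rw [inv_mul_cancel₀ (pow_ne_zero _ hq0)]
  simp

theorem qx_ne {a : ℕ} (ha : 0 < a) (i : ℕ) : 1 - q ^ a * q ^ i ≠ 0 := by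
  rw [← pow_add]
  intro h
  exact q_pow_ne_one (show 0 < a + i by omega) (sub_eq_zero.1 h).symm

theorem qq_ne (i : ℕ) : 1 - q ^ (i + 1) ≠ 0 := fun h =>
  q_pow_ne_one (Nat.succ_pos i) (sub_eq_zero.1 h).symm

theorem q_pow_inj {a b : ℕ} (h : q ^ a = q ^ b) : a = b := by
  rcases Nat.lt_trichotomy a b with h1 | h1 | h1
  · exfalso
    have e : q ^ b = q ^ a * q ^ (b - a) := by rw [← pow_add]; congr 1; omega
    rw [e] at h
    have h2 : q ^ (b - a) = 1 := mul_left_cancel₀ (pow_ne_zero a q_ne) (by rw [← h, mul_one])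
    exact q_pow_ne_one (by omega) h2
  · exact h1
  · exfalso
    have e : q ^ a = q ^ b * q ^ (a - b) := by rw [← pow_add]; congr 1; omega
    rw [e] at h
    have h2 : q ^ (a - b) = 1 := mul_left_cancel₀ (pow_ne_zero b q_ne) (by rw [h, mul_one])
    exact q_pow_ne_one (by omega) h2

theorem qi_ne {a b : ℕ} (h : a ≠ b) : 1 - (q ^ a)⁻¹ * q ^ b ≠ 0 := by
  intro h0
  have h1 : (q ^ a)⁻¹ * q ^ b = 1 := (sub_eq_zero.1 h0).symm
  rw [inv_mul_eq_one₀ (pow_ne_zero _ q_ne)] at h1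
  exact h (q_pow_inj h1)

theorem sum_A (M : ℕ) : ∀ K, M + 1 ≤ K →
    ∑ k ∈ Finset.range K, (-1) ^ k * (1 - q ^ (4 * k + 1)) * q ^ (k ^ 2) *
      pa q (q ^ (2 * M + 1)) k = (-1) ^ M * q ^ (M ^ 2) * (1 - q ^ (2 * M + 1)) := by
  induction M with
  | zero =>
    intro K hK
    rw [Finset.sum_eq_single 0]
    · simp [pa]
    · intro k _ hk
      rw [pa_zero q_ne (Nat.pos_of_ne_zero hk), mul_zero]
    · intro h
      exact absurd (Finset.mem_range.2 (by omega)) h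
  | succ M ih =>
    intro K hK
    set x := q ^ (2 * M + 1) with hx
    have hx0 : x ≠ 0 := pow_ne_zero _ q_ne
    have e1 : q ^ (2 * (M + 1) + 1) = x * q ^ 2 := by rw [hx, ← pow_add]; congr 1
    have h1 := ih K (by omega)
    have hxi : ∀ i : ℕ, 1 - x * q ^ i ≠ 0 := fun i => qx_ne (by omega) i
    have hyi : ∀ i : ℕ, 1 - x⁻¹ * q ^ (2 * i) ≠ 0 := fun i => qi_ne (by omega)
    have a8 : 1 - x * q ^ 2 ≠ 0 := hxi 2
    have a9 : 1 - x ≠ 0 := by have := hxi 0; rwa [pow_zero, mul_one] at this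
    have hsum := Finset.sum_range_sub (fun k => -((1 + x * q) / (1 - x * q ^ 2) * ((-1) ^ k *
      q ^ (k ^ 2) * pa q (x * q ^ 2) k * (1 - q ^ (2 * k)) * (1 - x * q ^ 2 * q ^ (2 * k)) /
        (1 - x * q * q ^ (2 * k))))) K
    have hz : pa q (x * q ^ 2) K = 0 := by rw [← e1]; exact pa_zero q_ne (by omega)
    rw [hz] at hsum
    simp only [mul_zero, zero_mul, zero_div, pow_zero, sub_self, neg_zero] at hsum
    have hsum2 : ∑ k ∈ Finset.range K, ((-1) ^ k * (1 - q ^ (4 * k + 1)) * q ^ (k ^ 2) *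
        pa q (x * q ^ 2) k / (1 - x * q ^ 2) + x * ((-1) ^ k * (1 - q ^ (4 * k + 1)) * q ^ (k ^ 2) *
          pa q x k) / (1 - x)) = 0 := by
      rw [← hsum]
      exact Finset.sum_congr rfl fun k _ => tele_A q_ne hx0 hxi hyi qq_ne k
    rw [Finset.sum_add_distrib, ← Finset.sum_div, ← Finset.sum_div, ← Finset.mul_sum, h1] at hsum2
    rw [e1]
    have h2 : ∑ k ∈ Finset.range K, (-1) ^ k * (1 - q ^ (4 * k + 1)) * q ^ (k ^ 2) *
        pa q (x * q ^ 2) k = (1 - x * q ^ 2) * (-(x * ((-1) ^ M * q ^ (M ^ 2) * (1 - x)) / (1 - x))) := by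
      rw [← eq_neg_iff_add_eq_zero, div_eq_iff a8] at hsum2
      rw [hsum2]
      ring
    rw [h2]
    have e2 : q ^ ((M + 1) ^ 2) = q ^ (M ^ 2) * x := by rw [hx, ← pow_add]; congr 1; ring
    rw [e2, pow_succ]
    field_simp
    ring

theorem sum_B (M : ℕ) :
    ∑ k ∈ Finset.range (M + 1), (-1) ^ k * (1 - q ^ (3 * k + 1)) *
      pb q (q ^ (2 * M + 1)) k = (-1) ^ M * q ^ (M ^ 2) * (1 - q ^ (2 * M + 1)) := by
  induction M with
  | zero => simp [pb]
  | succ M ih =>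
    rcases Nat.eq_zero_or_pos M with h0 | hM
    · subst h0
      have hp : pb q (q ^ (2 * (0 + 1) + 1)) 1 = 1 := by
        rw [pb, Finset.prod_range_one]
        simp only [mul_zero, zero_add, mul_one, pow_one]
        have h1 : 1 - q ^ (2 + 1) * q ≠ 0 := by
          have := qx_ne (a := 3) (by norm_num) 1
          rwa [pow_one] at this
        have h2 : 1 - (q ^ (2 + 1))⁻¹ * q ≠ 0 := by
          have := qi_ne (a := 3) (b := 1) (by norm_num)
          rwa [pow_one] at this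
        have h3 : 1 - q ≠ 0 := by
          have := qq_ne 0
          rwa [zero_add, pow_one] at this
        exact div_self (mul_ne_zero (mul_ne_zero h1 h2) h3)
      rw [Finset.sum_range_succ, Finset.sum_range_one, hp]
      simp only [pb, Finset.range_zero, Finset.prod_empty]
      ring
    · set x := q ^ (2 * M + 1) with hx
      have hx0 : x ≠ 0 := pow_ne_zero _ q_ne
      have e1 : q ^ (2 * (M + 1) + 1) = x * q ^ 2 := by rw [hx, ← pow_add]; congr 1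
      have hxi : ∀ i : ℕ, 1 - x * q ^ i ≠ 0 := fun i => qx_ne (by omega) i
      have a8 : 1 - x * q ^ 2 ≠ 0 := hxi 2
      have a9 : 1 - x ≠ 0 := by have := hxi 0; rwa [pow_zero, mul_one] at this
      have hyi : ∀ k < M + 2, ∀ i ≤ k, x - q ^ i ≠ 0 := by
        intro k hk i hi h
        have := q_pow_inj (sub_eq_zero.1 h)
        omega
      have h1 : ∑ k ∈ Finset.range (M + 2), (-1) ^ k * (1 - q ^ (3 * k + 1)) * pb q x k =
          (-1) ^ M * q ^ (M ^ 2) * (1 - x) := by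
        rw [Finset.sum_range_succ, ih, hx, pb_zero q_ne (Nat.lt_succ_self M), mul_zero, add_zero]
      have hsum := Finset.sum_range_sub (fun k => ((1 - x ^ 2 * q ^ 2) / (1 - x * q ^ 2) *
        ((-1) ^ k * pb q (x * q ^ 2) k * q ^ k * (1 - q ^ k) * (1 - x * q ^ 2 * q ^ k) /
        ((1 - x * q * (q ^ k) ^ 2) * (x * q - q ^ k))))) (M + 2)
      have hz : pb q (x * q ^ 2) (M + 2) = 0 := by
        rw [← e1]
        exact pb_zero q_ne (by omega)
      rw [hz] at hsum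
      simp only [mul_zero, zero_mul, zero_div, pow_zero, sub_self] at hsum
      have hsum2 : ∑ k ∈ Finset.range (M + 2), ((-1) ^ k * (1 - q ^ (3 * k + 1)) *
          pb q (x * q ^ 2) k / (1 - x * q ^ 2) + x * ((-1) ^ k * (1 - q ^ (3 * k + 1)) *
            pb q x k) / (1 - x)) = 0 := by
        rw [← hsum]
        exact Finset.sum_congr rfl fun k hk => tele_B q_ne hx0 hxi qq_ne k
          (hyi k (Finset.mem_range.1 hk))
      rw [Finset.sum_add_distrib, ← Finset.sum_div, ← Finset.sum_div, ← Finset.mul_sum, h1] at hsum2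
      rw [e1, show M + 1 + 1 = M + 2 from rfl]
      have h2 : ∑ k ∈ Finset.range (M + 2), (-1) ^ k * (1 - q ^ (3 * k + 1)) *
          pb q (x * q ^ 2) k = (1 - x * q ^ 2) *
            (-(x * ((-1) ^ M * q ^ (M ^ 2) * (1 - x)) / (1 - x))) := by
        rw [← eq_neg_iff_add_eq_zero, div_eq_iff a8] at hsum2
        rw [hsum2]
        ring
      rw [h2]
      have e2 : q ^ ((M + 1) ^ 2) = q ^ (M ^ 2) * x := by rw [hx, ← pow_add]; congr 1; ring
      rw [e2, pow_succ]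
      field_simp
      ring

/-- The right-hand side of the sum with `(1+q^(4k+1))`. -/
noncomputable def eC (M : ℕ) : RatFunc ℚ := (q ^ M)⁻¹ * ((1 - (q ^ 2) ^ (2 * M + 1)) / (1 - q ^ 2)) *
  ∏ j ∈ Finset.range M, ((1 - q ^ (4 * j + 3)) / (1 - q ^ (4 * j + 5)))

theorem sum_C (M : ℕ) : ∀ K, M + 1 ≤ K →
    ∑ k ∈ Finset.range K, q ^ k * (1 + q ^ (4 * k + 1)) *
      pa (q ^ 2) ((q ^ 2) ^ (2 * M + 1)) k = (1 + q) * eC M := by
  have hq2 : q ^ 2 ≠ 0 := pow_ne_zero 2 q_ne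
  induction M with
  | zero =>
    intro K hK
    rw [Finset.sum_eq_single 0]
    · have h : 1 - q ^ 2 ≠ 0 := qq_ne 1
      simp [pa, eC, h]
    · intro k _ hk
      rw [pa_zero hq2 (Nat.pos_of_ne_zero hk), mul_zero]
    · intro h
      exact absurd (Finset.mem_range.2 (by omega)) h
  | succ M ih =>
    intro K hK
    set x := (q ^ 2) ^ (2 * M + 1) with hx
    have hx0 : x ≠ 0 := pow_ne_zero _ hq2
    have hx' : x = q ^ (2 * (2 * M + 1)) := by rw [hx, ← pow_mul]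
    have e1 : (q ^ 2) ^ (2 * (M + 1) + 1) = x * (q ^ 2) ^ 2 := by rw [hx, ← pow_add]; congr 1
    have h1 := ih K (by omega)
    have hxi : ∀ i : ℕ, 1 - x * q ^ i ≠ 0 := fun i => by rw [hx']; exact qx_ne (by omega) i
    have hyi : ∀ i : ℕ, 1 - x⁻¹ * q ^ (4 * i) ≠ 0 := fun i => by rw [hx']; exact qi_ne (by omega)
    have a8 : 1 - x * q ^ 4 ≠ 0 := hxi 4
    have a3 : 1 - x * q ^ 3 ≠ 0 := hxi 3
    have a2 : 1 - q ^ 2 ≠ 0 := qq_ne 1
    have a9 : 1 - x ≠ 0 := by have := hxi 0; rwa [pow_zero, mul_one] at this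
    have hsum := Finset.sum_range_sub (fun k => -((1 + x * q ^ 2) / (1 - x * q ^ 4) * (q ^ k *
      pa (q ^ 2) (x * (q ^ 2) ^ 2) k * (1 - q ^ (4 * k)) * (1 - x * q ^ 4 * q ^ (4 * k)) /
        (1 - x * q ^ 2 * q ^ (4 * k))))) K
    have hz : pa (q ^ 2) (x * (q ^ 2) ^ 2) K = 0 := by rw [← e1]; exact pa_zero hq2 (by omega)
    rw [hz] at hsum
    simp only [mul_zero, zero_mul, zero_div, pow_zero, sub_self, neg_zero] at hsum
    have hsum2 : ∑ k ∈ Finset.range K, ((1 - x * q ^ 3) / (1 - x * q ^ 4) *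
        (q ^ k * (1 + q ^ (4 * k + 1)) * pa (q ^ 2) (x * (q ^ 2) ^ 2) k) -
      (1 - x * q) / (q * (1 - x)) * (q ^ k * (1 + q ^ (4 * k + 1)) * pa (q ^ 2) x k)) = 0 := by
      rw [← hsum]
      exact Finset.sum_congr rfl fun k _ => tele_C q_ne hx0 hxi hyi qq_ne k
    rw [Finset.sum_sub_distrib, ← Finset.mul_sum, ← Finset.mul_sum, h1, sub_eq_zero] at hsum2
    rw [e1]
    have h2 : ∑ k ∈ Finset.range K, q ^ k * (1 + q ^ (4 * k + 1)) *
        pa (q ^ 2) (x * (q ^ 2) ^ 2) k = (1 - x * q ^ 4) / (1 - x * q ^ 3) *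
          ((1 - x * q) / (q * (1 - x)) * ((1 + q) * eC M)) := by
      rw [← hsum2, ← mul_assoc, div_mul_div_comm, mul_comm (1 - x * q ^ 4),
        div_self (mul_ne_zero a3 a8), one_mul]
    rw [h2, eC, eC, Finset.prod_range_succ, e1, ← hx]
    have e3 : q ^ (4 * M + 3) = x * q := by rw [hx', ← pow_succ]; congr 1; ring
    have e5 : q ^ (4 * M + 5) = x * q ^ 3 := by rw [hx', ← pow_add]; congr 1; ring
    have hq0 := q_ne
    have hqM : q ^ M ≠ 0 := pow_ne_zero _ q_ne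
    rw [e3, e5, pow_succ q M]
    have e6 : x * (q ^ 2) ^ 2 = x * q ^ 4 := by rw [← pow_mul q 2 2]
    rw [e6]
    field_simp

/-- The right-hand side of the q-Watson sum. -/
noncomputable def eD (u : ℕ) : RatFunc ℚ := q ^ (2 * u) *
  (∏ j ∈ Finset.range u, ((1 - q ^ (4 * j + 2)) / (1 - q ^ (4 * j + 4)))) ^ 2

theorem step_D (M K : ℕ) (hK : M + 3 ≤ K) :
    (1 - q ^ (2 * M + 1) * q ^ 3) ^ 2 * (∑ k ∈ Finset.range K, q ^ (2 * k) *
      pd q (q ^ (2 * (M + 2) + 1)) k) =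
    q ^ 2 * (1 - q ^ (2 * M + 1) * q) ^ 2 * ∑ k ∈ Finset.range K, q ^ (2 * k) *
      pd q (q ^ (2 * M + 1)) k := by
  set x := q ^ (2 * M + 1) with hx
  have hx0 : x ≠ 0 := pow_ne_zero _ q_ne
  have e1 : q ^ (2 * (M + 2) + 1) = x * q ^ 4 := by rw [hx, ← pow_add]; congr 1
  have hxi : ∀ i : ℕ, 1 - x * q ^ i ≠ 0 := fun i => qx_ne (by omega) i
  have hsum := Finset.sum_range_sub (fun k => -(x * q ^ 3 * (1 - x ^ 2 * q ^ 4) *
    (pd q (x * q ^ 4) k * (1 - q ^ (2 * k)) ^ 2 *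
      (1 - (q ^ (2 * k)) ^ 2) / ((1 - x * q * q ^ (2 * k)) * (1 - x * q ^ 3 * q ^ (2 * k)))))) K
  have hz : pd q (x * q ^ 4) K = 0 := by rw [← e1]; exact pd_zero q_ne (by omega)
  rw [hz] at hsum
  simp only [mul_zero, zero_mul, zero_div, pow_zero, sub_self, neg_zero, ne_eq,
    OfNat.ofNat_ne_zero, not_false_eq_true, zero_pow] at hsum
  have hsum2 : ∑ k ∈ Finset.range K, ((1 - x * q ^ 3) ^ 2 * (q ^ (2 * k) * pd q (x * q ^ 4) k) -
      q ^ 2 * (1 - x * q) ^ 2 * (q ^ (2 * k) * pd q x k)) = 0 := by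
    rw [← hsum]
    exact Finset.sum_congr rfl fun k _ => tele_D q_ne hx0 hxi qq_ne k
  rw [Finset.sum_sub_distrib, ← Finset.mul_sum, ← Finset.mul_sum, sub_eq_zero] at hsum2
  rw [e1]
  exact hsum2

theorem sum_D_even (u : ℕ) : ∀ K, 2 * u + 1 ≤ K →
    ∑ k ∈ Finset.range K, q ^ (2 * k) * pd q (q ^ (2 * (2 * u) + 1)) k = eD u := by
  induction u with
  | zero =>
    intro K hK
    rw [Finset.sum_eq_single 0]
    · simp [pd, eD]
    · intro k _ hk
      rw [mul_zero, pd_zero q_ne (Nat.pos_of_ne_zero hk), mul_zero]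
    · intro h
      exact absurd (Finset.mem_range.2 (by omega)) h
  | succ u ih =>
    intro K hK
    have h1 := step_D (2 * u) K (by omega)
    rw [ih K (by omega)] at h1
    have h2 : 1 - q ^ (2 * (2 * u) + 1) * q ^ 3 ≠ 0 := qx_ne (by omega) 3
    rw [show 2 * (u + 1) = 2 * u + 2 by ring]
    apply mul_left_cancel₀ (pow_ne_zero 2 h2)
    rw [h1, eD, eD, Finset.prod_range_succ]
    have e1 : q ^ (4 * u + 2) = q ^ (2 * (2 * u) + 1) * q := by rw [← pow_succ]; congr 1; ring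
    have e2 : q ^ (4 * u + 4) = q ^ (2 * (2 * u) + 1) * q ^ 3 := by
      rw [← pow_add]; congr 1; ring
    have e3 : q ^ (2 * (u + 1)) = q ^ (2 * u) * q ^ 2 := by rw [← pow_add]; congr 1
    rw [e1, e2, e3]
    obtain ⟨d, hd⟩ : ∃ d, 1 - q ^ (2 * (2 * u) + 1) * q ^ 3 = d := ⟨_, rfl⟩
    rw [hd] at h2
    rw [hd]
    field_simp

theorem sum_D_odd (u : ℕ) : ∀ K, 2 * u + 2 ≤ K →
    ∑ k ∈ Finset.range K, q ^ (2 * k) * pd q (q ^ (2 * (2 * u + 1) + 1)) k = 0 := by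
  induction u with
  | zero =>
    intro K hK
    have h0 : ∑ k ∈ Finset.range K, q ^ (2 * k) * pd q (q ^ (2 * (2 * 0 + 1) + 1)) k =
        ∑ k ∈ Finset.range 2, q ^ (2 * k) * pd q (q ^ (2 * (2 * 0 + 1) + 1)) k := by
      symm
      refine Finset.sum_subset (fun a ha => ?_) (fun a _ ha => ?_)
      · rw [Finset.mem_range] at ha ⊢
        omega
      · rw [Finset.mem_range, not_lt] at ha
        rw [pd_zero q_ne (by omega), mul_zero]
    rw [h0, Finset.sum_range_succ, Finset.sum_range_one, pd, pd, Finset.prod_range_one]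
    simp only [mul_zero, zero_add, mul_one, pow_one, pow_zero, Finset.range_zero,
      Finset.prod_empty]
    have h1 : 1 - q ^ 2 ≠ 0 := qq_ne 1
    have h2 : 1 - q ^ 4 ≠ 0 := qq_ne 3
    have h3 : q ≠ 0 := q_ne
    have e1 : q ^ (2 + 1) * q = q ^ 4 := by rw [← pow_succ]
    have e2 : 1 - (q ^ (2 + 1))⁻¹ * q = (q ^ 2 - 1) / q ^ 2 := by
      field_simp
      ring
    rw [e1, e2]
    obtain ⟨d1, hd1⟩ : ∃ d, 1 - q ^ 2 = d := ⟨_, rfl⟩
    have e3 : q ^ 2 - 1 = -d1 := by rw [← hd1]; ring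
    obtain ⟨d2, hd2⟩ : ∃ d, 1 - q ^ 4 = d := ⟨_, rfl⟩
    rw [hd1] at h1
    rw [hd2] at h2
    rw [e3, hd1, hd2]
    field_simp
    ring
  | succ u ih =>
    intro K hK
    have h1 := step_D (2 * u + 1) K (by omega)
    rw [ih K (by omega), mul_zero] at h1
    have h2 : 1 - q ^ (2 * (2 * u + 1) + 1) * q ^ 3 ≠ 0 := qx_ne (by omega) 3
    rw [show 2 * (u + 1) + 1 = 2 * u + 1 + 2 by ring]
    rcases mul_eq_zero.1 h1 with h | h
    · exact absurd h (pow_ne_zero 2 h2)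
    · exact h

/-! ### The products as `PP` -/

theorem zp1 (b N e : ℕ) : q ^ ((b : ℤ) * ((e : ℤ) + N)) = (q ^ b) ^ N * (q ^ b) ^ e := by
  rw [← pow_add, ← pow_mul, ← zpow_natCast]
  congr 1
  push_cast
  ring

theorem zp2 (b N e : ℕ) : q ^ ((b : ℤ) * ((e : ℤ) - N)) = ((q ^ b) ^ N)⁻¹ * (q ^ b) ^ e := by
  rw [← pow_mul, ← pow_mul, ← zpow_natCast, ← zpow_natCast, ← zpow_neg, ← zpow_add₀ q_ne]
  congr 1
  push_cast
  ring

theorem ff_nat (b b' N e : ℕ) : ff b b' N e = (1 - (q ^ b) ^ N * (q ^ b) ^ e) *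
    (1 - ((q ^ b) ^ N)⁻¹ * (q ^ b) ^ e) * (1 - (q ^ b') ^ e) := by
  rw [ff, zp1, zp2]
  congr 2
  rw [← pow_mul, ← zpow_natCast]
  congr 1

theorem PP_pa (b N k : ℕ) : PP b b 1 2 N k = pa (q ^ b) ((q ^ b) ^ N) k := by
  rw [PP, pa]
  refine Finset.prod_congr rfl fun i _ => ?_
  have e1 : (2 * (i : ℤ) + 1) = ((2 * i + 1 : ℕ) : ℤ) := by push_cast; ring
  have e2 : (((2 : ℕ) : ℤ) * ((i : ℤ) + 1)) = ((2 * i + 2 : ℕ) : ℤ) := by push_cast; ring
  rw [e1, e2, Nat.cast_one, one_mul, ff_nat, ff_nat]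

theorem PP_pb (N k : ℕ) : PP 1 1 1 1 N k = pb q (q ^ N) k := by
  rw [PP, pb]
  refine Finset.prod_congr rfl fun i _ => ?_
  have e1 : (2 * (i : ℤ) + 1) = ((2 * i + 1 : ℕ) : ℤ) := by push_cast; ring
  have e2 : (((1 : ℕ) : ℤ) * ((i : ℤ) + 1)) = ((i + 1 : ℕ) : ℤ) := by push_cast; ring
  rw [e1, e2, Nat.cast_one, one_mul, ff_nat, ff_nat, pow_one]

theorem PP_pd (N k : ℕ) : PP 1 2 0 2 N k = pd q (q ^ N) k := by
  rw [PP, pd]
  refine Finset.prod_congr rfl fun i _ => ?_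
  have e1 : (2 * (i : ℤ) + 1) = ((2 * i + 1 : ℕ) : ℤ) := by push_cast; ring
  have e2 : (((2 : ℕ) : ℤ) * ((i : ℤ) + 1)) = ((2 * i + 2 : ℕ) : ℤ) := by push_cast; ring
  have e3 : (((0 : ℕ) : ℤ) * (N : ℤ)) = ((0 : ℕ) : ℤ) := by simp
  rw [e1, e2, e3, ff_nat, ff_nat, pow_one, ← pow_mul, ← pow_mul, pow_zero, inv_one, one_mul]
  congr 1
  · congr 2
    congr 1
    ring
  · rw [← sq]
    congr 3
    ring

end Pool.Agent.Q281.QC
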