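import Pool.Agent.Q281.QC.Engine

set_option autoImplicit false

/-!
# Block decomposition and the triangular system
-/

namespace Pool.Agent.Q281.QC

open Polynomial

section

variable (n b b' κ θ : ℕ)

/-- Regular part of the numerator factor. -/
noncomputable def rN (N : ℤ) (i : ℕ) : RatFunc ℚ := if n ∣ 2 * i + 1 then 1 else ff b b' N (2 * i + 1)

/-- Singular part of the numerator factor. -/
noncomputable def sN (N : ℤ) (i : ℕ) : RatFunc ℚ := if n ∣ 2 * i + 1 then ff b b' N (2 * i + 1) else 1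

/-- Regular part of the denominator factor. -/
noncomputable def rD (N : ℤ) (i : ℕ) : RatFunc ℚ := if n ∣ i + 1 then 1 else ff b b' N (θ * (i + 1))

/-- Singular part of the denominator factor. -/
noncomputable def sD (N : ℤ) (i : ℕ) : RatFunc ℚ := if n ∣ i + 1 then ff b b' N (θ * (i + 1)) else 1

theorem PP_split (N : ℤ) (k : ℕ) : PP b b' κ θ N k =
    (∏ i ∈ Finset.range k, rN n b b' N i / rD n b b' θ (κ * N) i) *
      ∏ i ∈ Finset.range k, sN n b b' N i / sD n b b' θ (κ * N) i := by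
  rw [PP, ← Finset.prod_mul_distrib]
  refine Finset.prod_congr rfl fun i _ => ?_
  rw [rN, sN, rD, sD]
  split_ifs <;> simp [div_eq_mul_inv, mul_comm]

/-- The singular ratio number `l`. -/
noncomputable def sr (N : ℤ) (l : ℕ) : RatFunc ℚ :=
  ff b b' N (n * (2 * l + 1)) / ff b b' (κ * N) (n * (θ * (l + 1)))

/-- The singular part. -/
noncomputable def SP (N : ℤ) (k : ℕ) : RatFunc ℚ :=
  ∏ i ∈ Finset.range k, sN n b b' N i / sD n b b' θ (κ * N) i

theorem SP_succ (N : ℤ) (k : ℕ) : SP n b b' κ θ N (k + 1) =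
    SP n b b' κ θ N k * (sN n b b' N k / sD n b b' θ (κ * N) k) := Finset.prod_range_succ _ _

variable {n}

theorem SP_step (hodd : n % 2 = 1) (N : ℤ) (l j : ℕ) (hj : j + 1 < n)
    (h : SP n b b' κ θ N (l * n + j) = (∏ i ∈ Finset.range l, sr n b b' κ θ N i) *
      (if 2 * j < n then 1 else ff b b' N (n * (2 * l + 1)))) :
    SP n b b' κ θ N (l * n + (j + 1)) = (∏ i ∈ Finset.range l, sr n b b' κ θ N i) *
      (if 2 * (j + 1) < n then 1 else ff b b' N (n * (2 * l + 1))) := by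
  rw [← add_assoc, SP_succ, h]
  have h1 : ¬ n ∣ l * n + j + 1 := by
    rw [add_assoc, Nat.dvd_add_right (dvd_mul_left n l)]
    intro h'
    exact absurd (Nat.le_of_dvd (Nat.succ_pos j) h') (by omega)
  have h2 : n ∣ 2 * (l * n + j) + 1 ↔ 2 * j + 1 = n := by
    have e : 2 * (l * n + j) + 1 = (2 * l) * n + (2 * j + 1) := by ring
    rw [e, Nat.dvd_add_right (dvd_mul_left n (2 * l))]
    constructor
    · rintro ⟨c, hc⟩
      have h3 : c < 2 := by
        by_contra h4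
        have : n * 2 ≤ n * c := Nat.mul_le_mul_left n (by omega)
        omega
      interval_cases c
      · omega
      · omega
    · intro h'
      rw [h']
  rw [sD, if_neg h1, div_one, sN]
  by_cases h3 : 2 * j + 1 = n
  · rw [if_pos (h2.2 h3), if_pos (show 2 * j < n by omega), if_neg (show ¬ 2 * (j + 1) < n by omega)]
    have e : (2 * ((l * n + j : ℕ) : ℤ) + 1) = n * (2 * l + 1) := by
      have : (n : ℤ) = 2 * j + 1 := by exact_mod_cast h3.symm
      push_cast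
      rw [this]
      ring
    rw [e, mul_one]
  · rw [if_neg (fun h' => h3 (h2.1 h')), mul_one]
    by_cases h4 : 2 * j < n
    · rw [if_pos h4, if_pos (show 2 * (j + 1) < n by omega)]
    · rw [if_neg h4, if_neg (show ¬ 2 * (j + 1) < n by omega)]

theorem SP_wrap (hodd : n % 2 = 1) (N : ℤ) (l : ℕ)
    (h : SP n b b' κ θ N (l * n + (n - 1)) = (∏ i ∈ Finset.range l, sr n b b' κ θ N i) *
      (if 2 * (n - 1) < n then 1 else ff b b' N (n * (2 * l + 1)))) :
    SP n b b' κ θ N ((l + 1) * n) = ∏ i ∈ Finset.range (l + 1), sr n b b' κ θ N i := by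
  have hn : 0 < n := by omega
  have e0 : (l + 1) * n = l * n + (n - 1) + 1 := by
    rw [Nat.succ_mul]
    omega
  rw [e0, SP_succ, h, Finset.prod_range_succ]
  have h1 : n ∣ l * n + (n - 1) + 1 := by
    rw [← e0]
    exact dvd_mul_left n (l + 1)
  have e1 : ((θ : ℤ) * (((l * n + (n - 1) : ℕ) : ℤ) + 1)) = n * (θ * (l + 1)) := by
    have h2 : (((l * n + (n - 1) : ℕ) : ℤ) + 1) = (l + 1) * n := by
      have := congrArg (Nat.cast : ℕ → ℤ) e0
      push_cast at this ⊢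
      rw [← this]
    rw [h2]
    ring
  rw [sD, if_pos h1, e1, sN, sr]
  have h2 : n ∣ 2 * (l * n + (n - 1)) + 1 ↔ n = 1 := by
    have e : 2 * (l * n + (n - 1)) + 1 + 1 = (2 * l + 2) * n := by
      have : 2 * (l * n + (n - 1)) + 1 + 1 = 2 * (l * n + (n - 1) + 1) := by ring
      rw [this, ← e0]
      ring
    constructor
    · intro h'
      have h3 : n ∣ 1 := by
        have h4 : n ∣ 2 * (l * n + (n - 1)) + 1 + 1 := by
          rw [e]
          exact dvd_mul_left n _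
        exact (Nat.dvd_add_right h').1 h4
      exact Nat.dvd_one.1 h3
    · intro h'
      rw [h']
      exact one_dvd _
  by_cases h3 : n = 1
  · rw [if_pos (h2.2 h3), if_pos (by omega)]
    subst h3
    simp
  · rw [if_neg (fun h' => h3 (h2.1 h')), if_neg (by omega)]
    rw [mul_assoc, mul_one_div]

theorem SP_block (hodd : n % 2 = 1) (N : ℤ) (l : ℕ) : ∀ j, j < n →
    SP n b b' κ θ N (l * n + j) = (∏ i ∈ Finset.range l, sr n b b' κ θ N i) *
      (if 2 * j < n then 1 else ff b b' N (n * (2 * l + 1))) := by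
  have hn : 0 < n := by omega
  have inner : ∀ l, SP n b b' κ θ N (l * n) = ∏ i ∈ Finset.range l, sr n b b' κ θ N i →
      ∀ j, j < n → SP n b b' κ θ N (l * n + j) = (∏ i ∈ Finset.range l, sr n b b' κ θ N i) *
        (if 2 * j < n then 1 else ff b b' N (n * (2 * l + 1))) := by
    intro l h0 j
    induction j with
    | zero =>
      intro _
      rw [add_zero, h0, if_pos (by omega), mul_one]
    | succ j ih =>
      intro hj
      exact SP_step b b' κ θ hodd N l j hj (ih (by omega))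
  have h0 : ∀ l, SP n b b' κ θ N (l * n) = ∏ i ∈ Finset.range l, sr n b b' κ θ N i := by
    intro l
    induction l with
    | zero => rw [Nat.zero_mul]; rfl
    | succ l ih => exact SP_wrap b b' κ θ hodd N l (inner l ih (n - 1) (by omega))
  exact inner l (h0 l)

/-- The weights. -/
noncomputable def ww (κ θ : ℕ) (s : ℤ) (l : ℕ) : ℚ := ∏ i ∈ Finset.range l, cS κ θ s i

variable (n)

/-- The unit of the block. -/
noncomputable def uu (l : ℕ) : RatFunc ℚ := ∏ i ∈ Finset.range l,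
  (1 + (((2 * b + b') * (2 * i + 1 - θ * (i + 1)) / 2 : ℚ) : RatFunc ℚ) * del n)

/-- The regular part at `N = 0`. -/
noncomputable def Rg (k : ℕ) : RatFunc ℚ :=
  ∏ i ∈ Finset.range k, rN n b b' 0 i / rD n b b' θ 0 i

variable {n}

theorem uu_mem (l : ℕ) : uu n b b' θ l ∈ Loc (Phi n) := by
  rw [uu]
  exact prod_mem fun i _ => add_mem (one_mem _) (mul_mem (ratc n _) del_mem)

theorem not_dvd_num {i : ℕ} (h : ¬ n ∣ 2 * i + 1) : ¬ (n : ℤ) ∣ 2 * i + 1 := by
  intro h'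
  exact h (by exact_mod_cast h')

theorem not_dvd_den (hθ : Nat.Coprime n θ) {i : ℕ} (h : ¬ n ∣ i + 1) : ¬ (n : ℤ) ∣ θ * (i + 1) := by
  intro h'
  have h1 : IsCoprime (n : ℤ) θ := Nat.isCoprime_iff_coprime.2 hθ
  have h2 := h1.dvd_of_dvd_mul_left h'
  exact h (by exact_mod_cast h2)

variable {b b' θ}

theorem reg_facts (hn : 0 < n) (hb : Nat.Coprime n b) (hb' : Nat.Coprime n b')
    (hθ : Nat.Coprime n θ) (s : ℤ) (i : ℕ) :
    rN n b b' (n * s) i / rD n b b' θ (κ * (n * s)) i ∈ Loc (Phi n) ∧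
    rN n b b' 0 i / rD n b b' θ 0 i ∈ Loc (Phi n) ∧
    Cg n 2 (rN n b b' (n * s) i / rD n b b' θ (κ * (n * s)) i)
      (rN n b b' 0 i / rD n b b' θ 0 i) := by
  have e0 : (κ : ℤ) * (n * s) = n * (κ * s) := by ring
  rw [e0]
  have num : rN n b b' (n * s) i ∈ Loc (Phi n) ∧ rN n b b' 0 i ∈ Loc (Phi n) ∧
      Cg n 2 (rN n b b' (n * s) i) (rN n b b' 0 i) := by
    rw [rN, rN]
    split_ifs with h
    · exact ⟨one_mem _, one_mem _, Cg.refl _⟩
    · exact ⟨ff_mem hn _ _ _ _, ff_mem hn _ _ _ _, ff_cg hn _ _ _ _⟩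
  have den : (rD n b b' θ (n * (κ * s)) i)⁻¹ ∈ Loc (Phi n) ∧ (rD n b b' θ 0 i)⁻¹ ∈ Loc (Phi n) ∧
      Cg n 2 (rD n b b' θ (n * (κ * s)) i)⁻¹ (rD n b b' θ 0 i)⁻¹ := by
    rw [rD, rD]
    split_ifs with h
    · rw [inv_one]
      exact ⟨one_mem _, one_mem _, Cg.refl _⟩
    · have h1 := not_dvd_den θ hθ h
      have h2 := ff_inv_mem hn hb hb' (κ * s) h1
      have h3 := ff_inv_mem hn hb hb' 0 h1
      have h4 := ff_ne hb hb' (κ * s) h1
      have h5 := ff_ne hb hb' 0 h1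
      rw [mul_zero] at h3 h5
      exact ⟨h2, h3, Cg.inv h2 h3 h4 h5 (ff_cg hn _ _ _ _)⟩
  rw [div_eq_mul_inv, div_eq_mul_inv]
  exact ⟨mul_mem num.1 den.1, mul_mem num.2.1 den.2.1, Cg.mul den.1 num.2.1 num.2.2 den.2.2⟩

theorem Rg_mem (hn : 0 < n) (hb : Nat.Coprime n b) (hb' : Nat.Coprime n b')
    (hθ : Nat.Coprime n θ) (k : ℕ) : Rg n b b' θ k ∈ Loc (Phi n) := by
  rw [Rg]
  exact prod_mem fun i _ => (reg_facts 0 hn hb hb' hθ 0 i).2.1

/-- The terms modulo `δ^2`. -/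
theorem PP_cg (hodd : n % 2 = 1) (hb : Nat.Coprime n b) (hb' : Nat.Coprime n b')
    (hθ : Nat.Coprime n θ) (hb0 : b ≠ 0) (hb0' : b' ≠ 0) (hθ0 : θ ≠ 0) (s : ℤ) (l j : ℕ)
    (hj : j < n) (hs : ∀ i < l, ((θ : ℤ) * (i + 1)) ^ 2 ≠ (κ * s) ^ 2) :
    Cg n 2 (PP b b' κ θ (n * s) (l * n + j))
      ((ww κ θ s l : RatFunc ℚ) *
        (if 2 * j < n then uu n b b' θ l * Rg n b b' θ (l * n + j) else 0)) := by
  have hn : 0 < n := by omega
  have hreg : Cg n 2 (∏ i ∈ Finset.range (l * n + j), rN n b b' (n * s) i /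
      rD n b b' θ (κ * (n * s)) i) (Rg n b b' θ (l * n + j)) :=
    Cg.prod (fun i _ => (reg_facts κ hn hb hb' hθ s i).1)
      (fun i _ => (reg_facts κ hn hb hb' hθ s i).2.1)
      (fun i _ => (reg_facts κ hn hb hb' hθ s i).2.2)
  have hRm := Rg_mem hn hb hb' hθ (l * n + j)
  have hum := uu_mem (n := n) b b' θ l
  have hsm : ∀ i ∈ Finset.range l, sr n b b' κ θ (n * s) i ∈ Loc (Phi n) ∧
      Cg n 2 (sr n b b' κ θ (n * s) i) ((cS κ θ s i : RatFunc ℚ) *
        (1 + (((2 * b + b') * (2 * i + 1 - θ * (i + 1)) / 2 : ℚ) : RatFunc ℚ) * del n)) := by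
    intro i hi
    have h1 := sing_cg hn hb0 hb0' hθ0 s i (hs i (Finset.mem_range.1 hi))
    refine ⟨h1.mem_left (mul_mem (ratc n _) (add_mem (one_mem _) (mul_mem (ratc n _) del_mem))), h1⟩
  have hsing : Cg n 2 (∏ i ∈ Finset.range l, sr n b b' κ θ (n * s) i)
      ((ww κ θ s l : RatFunc ℚ) * uu n b b' θ l) := by
    refine (Cg.prod (fun i hi => (hsm i hi).1) (fun i _ => mul_mem (ratc n _)
      (add_mem (one_mem _) (mul_mem (ratc n _) del_mem))) (fun i hi => (hsm i hi).2)).trans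
      (Cg.of_eq ?_)
    rw [Finset.prod_mul_distrib, uu, ww]
    push_cast
    rfl
  have hsl : ∏ i ∈ Finset.range l, sr n b b' κ θ (n * s) i ∈ Loc (Phi n) :=
    hsing.mem_left (mul_mem (ratc n _) hum)
  have hSP := SP_block b b' κ θ hodd (n * s) l j hj
  rw [SP] at hSP
  rw [PP_split n, hSP]
  by_cases h : 2 * j < n
  · rw [if_pos h, if_pos h, mul_one]
    refine (Cg.mul hsl hRm hreg hsing).trans (Cg.of_eq ?_)
    ring
  · rw [if_neg h, if_neg h, mul_zero]
    have h1 : Cg n 2 (ff b b' (n * s) (n * (2 * l + 1))) 0 := by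
      rw [ff_sing hn]
      exact ⟨-(del n * (br n (b * ((2 * l + 1) + s)) * br n (b * ((2 * l + 1) - s)) *
        br n (b' * (2 * l + 1)))), neg_mem (mul_mem del_mem (mul_mem (mul_mem (br_mem hn _)
        (br_mem hn _)) (br_mem hn _))), by ring⟩
    have h2 := h1.mul_left (mul_mem (hreg.mem_left hRm) hsl)
    rw [mul_zero, mul_assoc] at h2
    exact h2

/-- The block sums. -/
noncomputable def BB (n b b' θ : ℕ) (σ : ℕ → RatFunc ℚ) (l : ℕ) : RatFunc ℚ :=
  ∑ j ∈ Finset.range n, σ (l * n + j) *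
    (if 2 * j < n then uu n b b' θ l * Rg n b b' θ (l * n + j) else 0)

theorem sum_blocks {M : Type} [AddCommMonoid M] (f : ℕ → M) (n m : ℕ) :
    ∑ k ∈ Finset.range (m * n), f k =
      ∑ l ∈ Finset.range m, ∑ j ∈ Finset.range n, f (l * n + j) := by
  induction m with
  | zero => simp
  | succ m ih => rw [Nat.succ_mul, Finset.sum_range_add, ih, Finset.sum_range_succ]

theorem sum_cg (hodd : n % 2 = 1) (hb : Nat.Coprime n b) (hb' : Nat.Coprime n b')
    (hθ : Nat.Coprime n θ) (hb0 : b ≠ 0) (hb0' : b' ≠ 0) (hθ0 : θ ≠ 0) (σ : ℕ → RatFunc ℚ)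
    (hσ : ∀ k, σ k ∈ Loc (Phi n)) (s : ℤ) (m : ℕ)
    (hs : ∀ i, i + 1 < m → ((θ : ℤ) * (i + 1)) ^ 2 ≠ (κ * s) ^ 2) :
    Cg n 2 (∑ k ∈ Finset.range (m * n), σ k * PP b b' κ θ (n * s) k)
      (∑ l ∈ Finset.range m, (ww κ θ s l : RatFunc ℚ) * BB n b b' θ σ l) := by
  rw [sum_blocks]
  refine Cg.sum fun l hl => ?_
  rw [Finset.mem_range] at hl
  rw [BB, Finset.mul_sum]
  refine Cg.sum fun j hj => ?_
  have h := (PP_cg κ hodd hb hb' hθ hb0 hb0' hθ0 s l j (Finset.mem_range.1 hj)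
    (fun i hi => hs i (by omega))).mul_left (hσ (l * n + j))
  refine h.trans (Cg.of_eq ?_)
  ring

end

end Pool.Agent.Q281.QC
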