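import Pool.Agent.Q281.QC.Cong

set_option autoImplicit false

/-!
# Dwork type congruences modulo `Φ_n(q)^2` from evaluations at `N = s n`, `s` odd
-/

namespace Pool.Agent.Q281.QC

open Polynomial

/-- `(1 - q^(b(e+N))) (1 - q^(b(e-N))) (1 - q^(b'e))`. -/
noncomputable def ff (b b' : ℕ) (N e : ℤ) : RatFunc ℚ :=
  (1 - q ^ ((b : ℤ) * (e + N))) * (1 - q ^ ((b : ℤ) * (e - N))) * (1 - q ^ ((b' : ℤ) * e))

/-- `P(N,k)`. -/
noncomputable def PP (b b' κ θ : ℕ) (N : ℤ) (k : ℕ) : RatFunc ℚ :=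
  ∏ i ∈ Finset.range k, ff b b' N (2 * i + 1) / ff b b' (κ * N) (θ * (i + 1))

theorem ff_mem {n : ℕ} (hn : 0 < n) (b b' : ℕ) (N e : ℤ) : ff b b' N e ∈ Loc (Phi n) := by
  have h : ∀ z : ℤ, 1 - q ^ z ∈ Loc (Phi n) := fun z => sub_mem (one_mem _) (qz_mem hn z)
  exact mul_mem (mul_mem (h _) (h _)) (h _)

theorem ff_inv_mem {n : ℕ} (hn : 0 < n) {b b' : ℕ} (hb : Nat.Coprime n b) (hb' : Nat.Coprime n b')
    (s : ℤ) {e : ℤ} (he : ¬ (n : ℤ) ∣ e) : (ff b b' (n * s) e)⁻¹ ∈ Loc (Phi n) := by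
  have hb1 : IsCoprime (n : ℤ) b := Nat.isCoprime_iff_coprime.2 hb
  have hb2 : IsCoprime (n : ℤ) b' := Nat.isCoprime_iff_coprime.2 hb'
  rw [ff, mul_inv, mul_inv]
  refine mul_mem (mul_mem (one_sub_z_inv_mem hn ?_) (one_sub_z_inv_mem hn ?_))
    (one_sub_z_inv_mem hn ?_)
  · intro h
    have h1 := hb1.dvd_of_dvd_mul_left h
    exact he ((dvd_add_left (dvd_mul_right _ s)).1 h1)
  · intro h
    have h1 := hb1.dvd_of_dvd_mul_left h
    rw [sub_eq_add_neg] at h1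
    exact he ((dvd_add_left ((dvd_neg).2 (dvd_mul_right _ s))).1 h1)
  · intro h
    exact he (hb2.dvd_of_dvd_mul_left h)

theorem ff_cg {n : ℕ} (hn : 0 < n) (b b' : ℕ) (s e : ℤ) :
    Cg n 2 (ff b b' (n * s) e) (ff b b' 0 e) := by
  refine ⟨-(q ^ ((b : ℤ) * e - n * (b * s)) * br n (b * s) ^ 2 * (1 - q ^ ((b' : ℤ) * e))), ?_, ?_⟩
  · exact neg_mem (mul_mem (mul_mem (qz_mem hn _) (pow_mem (br_mem hn _) 2))
      (sub_mem (one_mem _) (qz_mem hn _)))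
  · have h1 := br_eq hn (b * s)
    have hq := q_ne
    set y := q ^ ((n : ℤ) * (b * s)) with hy
    set x := q ^ ((b : ℤ) * e) with hx
    have hy0 : y ≠ 0 := zpow_ne_zero _ hq
    have e1 : q ^ ((b : ℤ) * (e + n * s)) = x * y := by
      rw [hx, hy, ← zpow_add₀ hq]
      congr 1
      ring
    have e2 : q ^ ((b : ℤ) * (e - n * s)) = x * y⁻¹ := by
      rw [hx, hy, ← zpow_neg, ← zpow_add₀ hq]
      congr 1
      ring
    have e3 : q ^ ((b : ℤ) * e - n * (b * s)) = x * y⁻¹ := by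
      rw [hx, hy, ← zpow_neg, ← zpow_add₀ hq]
      congr 1
    have e4 : q ^ ((b : ℤ) * (e + 0)) = x := by rw [add_zero]
    have e5 : q ^ ((b : ℤ) * (e - 0)) = x := by rw [sub_zero]
    have h2 : del n ^ 2 * br n (b * s) ^ 2 = (1 - y) ^ 2 := by
      rw [h1]
      ring
    rw [ff, ff, e1, e2, e3, e4, e5]
    have h3 : del n ^ 2 * -(x * y⁻¹ * br n (b * s) ^ 2 * (1 - q ^ ((b' : ℤ) * e))) =
        -(x * y⁻¹ * (1 - y) ^ 2 * (1 - q ^ ((b' : ℤ) * e))) := by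
      rw [← h2]
      ring
    rw [h3]
    field_simp
    ring

theorem ff_ne {n : ℕ} {b b' : ℕ} (hb : Nat.Coprime n b) (hb' : Nat.Coprime n b')
    (s : ℤ) {e : ℤ} (he : ¬ (n : ℤ) ∣ e) : ff b b' (n * s) e ≠ 0 := by
  have hb1 : IsCoprime (n : ℤ) b := Nat.isCoprime_iff_coprime.2 hb
  have hb2 : IsCoprime (n : ℤ) b' := Nat.isCoprime_iff_coprime.2 hb'
  have key : ∀ z : ℤ, ¬ (n : ℤ) ∣ z → 1 - q ^ z ≠ 0 := by
    intro z hz h
    have hz0 : z ≠ 0 := by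
      rintro rfl
      exact hz (dvd_zero _)
    exact qz_ne_one hz0 (sub_eq_zero.1 h).symm
  rw [ff]
  refine mul_ne_zero (mul_ne_zero (key _ ?_) (key _ ?_)) (key _ ?_)
  · intro h
    have h1 := hb1.dvd_of_dvd_mul_left h
    exact he ((dvd_add_left (dvd_mul_right _ s)).1 h1)
  · intro h
    have h1 := hb1.dvd_of_dvd_mul_left h
    rw [sub_eq_add_neg] at h1
    exact he ((dvd_add_left ((dvd_neg).2 (dvd_mul_right _ s))).1 h1)
  · intro h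
    exact he (hb2.dvd_of_dvd_mul_left h)

/-- The singular factors. -/
theorem ff_sing {n : ℕ} (hn : 0 < n) (b b' : ℕ) (s e : ℤ) :
    ff b b' (n * s) (n * e) =
      -(del n ^ 3 * (br n (b * (e + s)) * br n (b * (e - s)) * br n (b' * e))) := by
  have e1 : (b : ℤ) * (n * e + n * s) = n * (b * (e + s)) := by ring
  have e2 : (b : ℤ) * (n * e - n * s) = n * (b * (e - s)) := by ring
  have e3 : (b' : ℤ) * (n * e) = n * (b' * e) := by ring
  rw [ff, e1, e2, e3, br_eq hn, br_eq hn, br_eq hn]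
  ring

theorem ratc (n : ℕ) (c : ℚ) : (c : RatFunc ℚ) ∈ Loc (Phi n) := rat_mem _ c

theorem triple {n : ℕ} (hn : 0 < n) (x y z : ℤ) :
    Cg n 2 (br n x * br n y * br n z)
      (((x * y * z : ℚ) : RatFunc ℚ) * (1 + (((x + y + z - 3) / 2 : ℚ) : RatFunc ℚ) * del n)) := by
  have hx := br_cg hn x
  have hy := br_cg hn y
  have hz := br_cg hn z
  have hm : ∀ a : ℤ, ((a : RatFunc ℚ) + (a * (a - 1) / 2) * del n) ∈ Loc (Phi n) := by
    intro a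
    refine add_mem (intCast_mem _ a) (mul_mem ?_ del_mem)
    have := rat_mem (Phi n) ((a : ℚ) * (a - 1) / 2)
    push_cast at this
    exact this
  refine (Cg.mul (br_mem hn z) (mul_mem (hm x) (hm y))
    (Cg.mul (br_mem hn y) (hm x) hx hy) hz).trans ?_
  refine ⟨((x * y * z * (((x - 1) / 2) * ((y - 1) / 2) + ((x - 1) / 2) * ((z - 1) / 2) +
    ((y - 1) / 2) * ((z - 1) / 2)) : ℚ) : RatFunc ℚ) +
    ((x * y * z * ((x - 1) / 2) * ((y - 1) / 2) * ((z - 1) / 2) : ℚ) : RatFunc ℚ) * del n,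
    add_mem (ratc n _) (mul_mem (ratc n _) del_mem), ?_⟩
  push_cast
  ring

theorem ratio {n : ℕ} {x y : RatFunc ℚ} {A D ν μ : ℚ} (hD : D ≠ 0)
    (hx : Cg n 2 x ((A : RatFunc ℚ) * (1 + (ν : RatFunc ℚ) * del n)))
    (hy : Cg n 2 y ((D : RatFunc ℚ) * (1 + (μ : RatFunc ℚ) * del n)))
    (hyi : y⁻¹ ∈ Loc (Phi n)) (hy0 : y ≠ 0) :
    Cg n 2 (x / y) (((A / D : ℚ) : RatFunc ℚ) * (1 + ((ν - μ : ℚ) : RatFunc ℚ) * del n)) := by
  obtain ⟨z1, h1, e1⟩ := hx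
  obtain ⟨z2, h2, e2⟩ := hy
  have hD' : (D : RatFunc ℚ) ≠ 0 := by exact_mod_cast hD
  refine ⟨y⁻¹ * (z1 - ((A * μ * (ν - μ) : ℚ) : RatFunc ℚ) -
    z2 * (((A / D : ℚ) : RatFunc ℚ) * (1 + ((ν - μ : ℚ) : RatFunc ℚ) * del n))), ?_, ?_⟩
  · exact mul_mem hyi (sub_mem (sub_mem h1 (ratc n _)) (mul_mem h2 (mul_mem (ratc n _)
      (add_mem (one_mem _) (mul_mem (ratc n _) del_mem)))))
  · have ex : x = (A : RatFunc ℚ) * (1 + (ν : RatFunc ℚ) * del n) + del n ^ 2 * z1 := by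
      linear_combination e1
    have ey : y = (D : RatFunc ℚ) * (1 + (μ : RatFunc ℚ) * del n) + del n ^ 2 * z2 := by
      linear_combination e2
    have e3 : x - y * (((A / D : ℚ) : RatFunc ℚ) * (1 + ((ν - μ : ℚ) : RatFunc ℚ) * del n)) =
        del n ^ 2 * (z1 - ((A * μ * (ν - μ) : ℚ) : RatFunc ℚ) -
          z2 * (((A / D : ℚ) : RatFunc ℚ) * (1 + ((ν - μ : ℚ) : RatFunc ℚ) * del n))) := by
      rw [ex, ey]
      push_cast
      field_simp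
      ring
    have e4 : x / y - ((A / D : ℚ) : RatFunc ℚ) * (1 + ((ν - μ : ℚ) : RatFunc ℚ) * del n) =
        y⁻¹ * (x - y * (((A / D : ℚ) : RatFunc ℚ) * (1 + ((ν - μ : ℚ) : RatFunc ℚ) * del n))) := by
      field_simp
    rw [e4, e3]
    ring

/-- The rational factor of a block. -/
noncomputable def cS (κ θ : ℕ) (s : ℤ) (l : ℕ) : ℚ :=
  ((2 * l + 1) ^ 2 - s ^ 2) * (2 * l + 1) /
    (((θ * (l + 1)) ^ 2 - (κ * s) ^ 2) * (θ * (l + 1)))

theorem sing_cg {n : ℕ} (hn : 0 < n) {b b' κ θ : ℕ} (hb : b ≠ 0) (hb' : b' ≠ 0) (hθ : θ ≠ 0)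
    (s : ℤ) (l : ℕ) (hs : ((θ : ℤ) * (l + 1)) ^ 2 ≠ (κ * s) ^ 2) :
    Cg n 2 (ff b b' (n * s) (n * (2 * l + 1)) / ff b b' (κ * (n * s)) (n * (θ * (l + 1))))
      ((cS κ θ s l : RatFunc ℚ) *
        (1 + (((2 * b + b') * (2 * l + 1 - θ * (l + 1)) / 2 : ℚ) : RatFunc ℚ) * del n)) := by
  have hd := del_ne hn
  have hb1 : (b : ℤ) ≠ 0 := by exact_mod_cast hb
  have hb2 : (b' : ℤ) ≠ 0 := by exact_mod_cast hb'
  have hθ1 : (θ : ℤ) * (l + 1) ≠ 0 := by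
    have : (0 : ℤ) < θ := by exact_mod_cast Nat.pos_of_ne_zero hθ
    positivity
  have hs1 : (θ : ℤ) * (l + 1) + κ * s ≠ 0 := by
    intro h
    apply hs
    have : (θ : ℤ) * (l + 1) = -(κ * s) := by linarith
    rw [this]
    ring
  have hs2 : (θ : ℤ) * (l + 1) - κ * s ≠ 0 := by
    intro h
    apply hs
    have : (θ : ℤ) * (l + 1) = κ * s := by linarith
    rw [this]
  have e0 : (κ : ℤ) * (n * s) = n * (κ * s) := by ring
  rw [e0, ff_sing hn, ff_sing hn, neg_div_neg_eq, mul_div_mul_left _ _ (pow_ne_zero 3 hd)]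
  have hden : ∀ a : ℤ, a ≠ 0 → (br n a)⁻¹ ∈ Loc (Phi n) ∧ br n a ≠ 0 := fun a ha => br_unit hn ha
  have d1 := hden _ (mul_ne_zero hb1 hs1)
  have d2 := hden _ (mul_ne_zero hb1 hs2)
  have d3 := hden _ (mul_ne_zero hb2 hθ1)
  have h := ratio (n := n) (D := ((b * (θ * (l + 1) + κ * s) : ℤ) * (b * (θ * (l + 1) - κ * s) : ℤ) *
      (b' * (θ * (l + 1)) : ℤ) : ℚ)) (by
        have := mul_ne_zero (mul_ne_zero (mul_ne_zero hb1 hs1) (mul_ne_zero hb1 hs2))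
          (mul_ne_zero hb2 hθ1)
        exact_mod_cast this)
    (triple hn (b * (2 * l + 1 + s)) (b * (2 * l + 1 - s)) (b' * (2 * l + 1)))
    (triple hn (b * (θ * (l + 1) + κ * s)) (b * (θ * (l + 1) - κ * s)) (b' * (θ * (l + 1))))
    (by
      rw [mul_inv, mul_inv]
      exact mul_mem (mul_mem d1.1 d2.1) d3.1)
    (mul_ne_zero (mul_ne_zero d1.2 d2.2) d3.2)
  refine h.trans (Cg.of_eq ?_)
  have hA : ∀ {a b c d : ℚ}, a = c → b = d → (a : RatFunc ℚ) * (1 + (b : RatFunc ℚ) * del n) =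
      (c : RatFunc ℚ) * (1 + (d : RatFunc ℚ) * del n) := by
    rintro a b c d rfl rfl
    rfl
  refine hA ?_ ?_
  · unfold cS
    push_cast
    have q1 : (b : ℚ) ≠ 0 := by exact_mod_cast hb
    have q2 : (b' : ℚ) ≠ 0 := by exact_mod_cast hb'
    have q3 : (θ : ℚ) * (l + 1) ≠ 0 := by exact_mod_cast hθ1
    have q4 : (θ : ℚ) * (l + 1) + κ * s ≠ 0 := by exact_mod_cast hs1
    have q5 : (θ : ℚ) * (l + 1) - κ * s ≠ 0 := by exact_mod_cast hs2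
    have q6 : ((θ : ℚ) * (l + 1)) ^ 2 - (κ * s) ^ 2 ≠ 0 := by
      have : ((θ : ℚ) * (l + 1)) ^ 2 - (κ * s) ^ 2 =
        ((θ : ℚ) * (l + 1) + κ * s) * ((θ : ℚ) * (l + 1) - κ * s) := by ring
      rw [this]
      exact mul_ne_zero q4 q5
    rw [div_eq_div_iff (by
      refine mul_ne_zero (mul_ne_zero ?_ ?_) ?_
      · exact mul_ne_zero q1 q4
      · exact mul_ne_zero q1 q5
      · exact mul_ne_zero q2 q3) (mul_ne_zero q6 q3)]
    ring
  · push_cast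
    ring

end Pool.Agent.Q281.QC
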