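import Mathlib

set_option autoImplicit false

/-!
# A reflection formula for little q-Legendre polynomials

`∑_k c_k x^k = (-1)^N Q^(-N(N+1)/2) ∑_k c_k Q^k (x;Q)_k`,
`c_k = (Q^(-N);Q)_k (Q^(N+1);Q)_k / (Q;Q)_k^2`.
-/

namespace Pool.Agent.Q281.QC

open Polynomial

variable {K : Type} [Field K]

/-- `(x;Q)_k`. -/
noncomputable def ee (Q : K) (k : ℕ) : Polynomial K := ∏ j ∈ Finset.range k, (1 - C (Q ^ j) * X)

/-- `(Qx;Q)_k`. -/
noncomputable def hh (Q : K) (k : ℕ) : Polynomial K := ∏ j ∈ Finset.range k, (1 - C (Q ^ (j + 1)) * X)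

theorem hh_succ (Q : K) (k : ℕ) : hh Q (k + 1) = hh Q k * (1 - C (Q ^ (k + 1)) * X) := by
  rw [hh, Finset.prod_range_succ, ← hh]

theorem ee_succ (Q : K) (k : ℕ) : ee Q (k + 1) = (1 - X) * hh Q k := by
  rw [ee, Finset.prod_range_succ', pow_zero, C_1, one_mul, mul_comm]
  rfl

/-- `f(x) ↦ f(Qx)`. -/
noncomputable def eta (Q : K) (f : Polynomial K) : Polynomial K := f.comp (C Q * X)

theorem eta_ee (Q : K) (k : ℕ) : eta Q (ee Q k) = hh Q k := by
  rw [eta, ee, prod_comp, hh]
  refine Finset.prod_congr rfl fun j _ => ?_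
  simp only [sub_comp, one_comp, mul_comp, C_comp, X_comp]
  rw [← mul_assoc, ← C_mul, ← pow_succ]

theorem eta_hh (Q : K) (k : ℕ) : (1 - C Q * X) * eta Q (hh Q k) = hh Q (k + 1) := by
  rw [eta, hh, prod_comp, hh, Finset.prod_range_succ' _ k, zero_add, pow_one, mul_comm]
  congr 1
  refine Finset.prod_congr rfl fun j _ => ?_
  simp only [sub_comp, one_comp, mul_comp, C_comp, X_comp]
  rw [← mul_assoc, ← C_mul, ← pow_succ]

/-- The q-difference operator. -/
noncomputable def LL (Q s : K) (f : Polynomial K) : Polynomial K :=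
  (1 - X) * f - (2 - C s * X) * eta Q f + (1 - C Q * X) * eta Q (eta Q f)

theorem LL_ee (Q s : K) (k : ℕ) : LL Q s (ee Q (k + 1)) =
    X * hh Q k * (C (s - 2 + Q ^ (k + 1) - Q ^ (k + 2)) +
      C (1 - Q ^ (k + 1) * s + Q ^ (2 * k + 3)) * X) := by
  rw [LL, eta_ee, eta_hh, hh_succ Q (k + 1), hh_succ Q k, ee_succ]
  simp only [C_sub, C_add, C_mul, C_pow, C_1, C_ofNat]
  ring

theorem LL_add (Q s : K) (f g : Polynomial K) : LL Q s (f + g) = LL Q s f + LL Q s g := by
  simp only [LL, eta, add_comp]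
  ring

theorem LL_smul (Q s a : K) (f : Polynomial K) : LL Q s (C a * f) = C a * LL Q s f := by
  simp only [LL, eta, mul_comp, C_comp]
  ring

/-- The coefficients `c_k`, with `α` for `Q^(-N)`. -/
noncomputable def cc (Q α : K) (k : ℕ) : K :=
  ∏ j ∈ Finset.range k, ((1 - α * Q ^ j) * (1 - α⁻¹ * Q ^ (j + 1)) / (1 - Q ^ (j + 1)) ^ 2)

theorem cc_succ (Q α : K) (hQ : ∀ j : ℕ, 1 - Q ^ (j + 1) ≠ 0) (hα : α ≠ 0) (k : ℕ) :
    cc Q α (k + 1) * (1 - Q ^ (k + 1)) ^ 2 =
      cc Q α k * (1 - Q ^ k * (α + α⁻¹ * Q) + Q ^ (2 * k + 1)) := by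
  rw [cc, Finset.prod_range_succ, ← cc]
  have h := hQ k
  field_simp
  ring

theorem sum_LL (Q α : K) (hQ : ∀ j : ℕ, 1 - Q ^ (j + 1) ≠ 0) (hα : α ≠ 0) (M : ℕ) :
    ∑ k ∈ Finset.range (M + 1), LL Q (α + α⁻¹ * Q) (C (cc Q α k * Q ^ k) * ee Q k) =
      -(C (cc Q α (M + 1) * (1 - Q ^ (M + 1)) ^ 2) * X * hh Q M) := by
  induction M with
  | zero =>
    rw [zero_add, Finset.sum_range_one, cc_succ Q α hQ hα 0]
    simp only [cc, ee, hh, LL, eta, Finset.range_zero, Finset.prod_empty, pow_zero, mul_one,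
      mul_comp, C_comp, one_comp, C_1, one_mul, mul_zero, zero_add, pow_one, C_sub, C_add, C_mul]
    ring
  | succ M ih =>
    rw [Finset.sum_range_succ, ih, LL_smul, LL_ee, cc_succ Q α hQ hα (M + 1), hh_succ]
    have e : Q ^ (2 * (M + 1) + 1) = Q ^ (2 * M + 3) := by ring
    rw [e]
    simp only [C_sub, C_add, C_mul, C_pow, C_1, C_ofNat]
    ring

theorem LL_sum (Q s : K) (t : Finset ℕ) (f : ℕ → Polynomial K) :
    LL Q s (∑ k ∈ t, f k) = ∑ k ∈ t, LL Q s (f k) := by
  classical
  induction t using Finset.induction_on with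
  | empty => simp [LL, eta]
  | insert a t ha ih => rw [Finset.sum_insert ha, Finset.sum_insert ha, LL_add, ih]

theorem eta_coeff (Q : K) (f : Polynomial K) (k : ℕ) : (eta Q f).coeff k = f.coeff k * Q ^ k := by
  rw [eta, comp_C_mul_X_coeff]

/-- The reflection formula. -/
theorem reflect (Q : K) (hQ0 : Q ≠ 0) (hQ : ∀ j : ℕ, 1 - Q ^ (j + 1) ≠ 0) (N p : ℕ) (hN : N < p) :
    ∑ k ∈ Finset.range p, C (cc Q (Q ^ N)⁻¹ k * Q ^ k) * ee Q k =
      C ((-1) ^ N * Q ^ (N * (N + 1) / 2)) *
        ∑ k ∈ Finset.range p, C (cc Q (Q ^ N)⁻¹ k) * X ^ k := by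
  set α := (Q ^ N)⁻¹ with hα
  have hα0 : α ≠ 0 := inv_ne_zero (pow_ne_zero _ hQ0)
  set s := α + α⁻¹ * Q with hs
  set g := ∑ k ∈ Finset.range p, C (cc Q α k * Q ^ k) * ee Q k with hg
  -- vanishing beyond N
  have hvan : ∀ k, N < k → cc Q α k = 0 := by
    intro k hk
    rw [cc]
    refine Finset.prod_eq_zero (Finset.mem_range.2 hk) ?_
    rw [hα, inv_mul_cancel₀ (pow_ne_zero _ hQ0)]
    simp
  have hne : ∀ k, k ≤ N → cc Q α k ≠ 0 := by
    intro k hk
    rw [cc, Finset.prod_ne_zero_iff]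
    intro j hj
    rw [Finset.mem_range] at hj
    have h1 : 1 - α * Q ^ j ≠ 0 := by
      intro h0
      have h2 : Q ^ N = Q ^ j := by
        have : α * Q ^ j = 1 := by linear_combination -h0
        rw [hα, inv_mul_eq_one₀ (pow_ne_zero _ hQ0)] at this
        exact this
      have h3 : Q ^ (N - j) = 1 := by
        have h4 : Q ^ N = Q ^ j * Q ^ (N - j) := by rw [← pow_add]; congr 1; omega
        rw [h4] at h2
        exact mul_left_cancel₀ (pow_ne_zero j hQ0) (by rw [h2, mul_one])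
      apply hQ (N - j - 1)
      rw [show N - j - 1 + 1 = N - j by omega, h3, sub_self]
    have h2 : 1 - α⁻¹ * Q ^ (j + 1) ≠ 0 := by
      rw [hα, inv_inv, ← pow_add]
      exact hQ (N + j)
    exact div_ne_zero (mul_ne_zero h1 h2) (pow_ne_zero _ (hQ j))
  -- the equation
  have hL : LL Q s g = 0 := by
    obtain ⟨M, rfl⟩ : ∃ M, p = M + 1 := ⟨p - 1, by omega⟩
    rw [hg, LL_sum, sum_LL Q α hQ hα0 M, hvan (M + 1) (by omega)]
    simp
  have hrec : ∀ k, g.coeff (k + 1) * (1 - Q ^ (k + 1)) ^ 2 =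
      g.coeff k * (1 - Q ^ k * s + Q ^ (2 * k + 1)) := by
    intro k
    have h : (LL Q s g).coeff (k + 1) = 0 := by rw [hL, coeff_zero]
    rw [LL, coeff_add, coeff_sub] at h
    have e1 : ((1 - X) * g).coeff (k + 1) = g.coeff (k + 1) - g.coeff k := by
      rw [sub_mul, one_mul, coeff_sub, coeff_X_mul]
    have e2 : ((2 - C s * X) * eta Q g).coeff (k + 1) =
        2 * (g.coeff (k + 1) * Q ^ (k + 1)) - s * (g.coeff k * Q ^ k) := by
      rw [sub_mul, coeff_sub, mul_assoc, coeff_C_mul, coeff_X_mul, eta_coeff,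
        show (2 : Polynomial K) = C 2 from (C_ofNat 2).symm, coeff_C_mul, eta_coeff]
    have e3 : ((1 - C Q * X) * eta Q (eta Q g)).coeff (k + 1) =
        g.coeff (k + 1) * Q ^ (k + 1) * Q ^ (k + 1) - Q * (g.coeff k * Q ^ k * Q ^ k) := by
      rw [sub_mul, one_mul, coeff_sub, mul_assoc, coeff_C_mul, coeff_X_mul, eta_coeff, eta_coeff,
        eta_coeff, eta_coeff]
    rw [e1, e2, e3] at h
    linear_combination h
  have hcoef : ∀ k, g.coeff k = g.coeff 0 * cc Q α k := by
    intro k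
    induction k with
    | zero => simp [cc]
    | succ k ih =>
      have h1 := hrec k
      have h2 := cc_succ Q α hQ hα0 k
      rw [ih] at h1
      have h3 := pow_ne_zero 2 (hQ k)
      apply mul_right_cancel₀ h3
      rw [h1, mul_assoc, mul_assoc, h2]
  -- the top coefficient
  have htop : g.coeff N = cc Q α N * Q ^ N * ((-1) ^ N * Q ^ (N * (N - 1) / 2)) := by
    rw [hg, finsetSum_coeff, Finset.sum_eq_single N]
    · rw [coeff_C_mul]
      congr 1
      have h1 : (ee Q N).coeff N = ∏ j ∈ Finset.range N, (-(Q ^ j)) := by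
        have h2 : ∀ M, (ee Q M).natDegree ≤ M ∧ (ee Q M).coeff M = ∏ j ∈ Finset.range M, (-(Q ^ j)) := by
          intro M
          induction M with
          | zero => simp [ee]
          | succ M ih =>
            have e : ee Q (M + 1) = ee Q M * (1 - C (Q ^ M) * X) := by
              rw [ee, Finset.prod_range_succ, ← ee]
            have hd : (1 - C (Q ^ M) * X : Polynomial K).natDegree ≤ 1 := by
              refine (natDegree_sub_le _ _).trans ?_
              simp only [natDegree_one, max_le_iff, Nat.zero_le, true_and]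
              exact (natDegree_C_mul_le _ _).trans natDegree_X_le
            constructor
            · rw [e]
              exact natDegree_mul_le.trans (Nat.add_le_add ih.1 hd)
            · rw [e, coeff_mul_add_eq_of_natDegree_le ih.1 hd, ih.2, Finset.prod_range_succ]
              congr 1
              rw [coeff_sub, coeff_C_mul, coeff_X_one, mul_one, coeff_one]
              simp
        exact (h2 N).2
      rw [h1, Finset.prod_neg, Finset.card_range, Finset.prod_pow_eq_pow_sum, Finset.sum_range_id]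
    · intro k hk hkN
      rw [coeff_C_mul]
      rcases Nat.lt_or_ge N k with h | h
      · rw [hvan k h]
        simp
      · have h2 : (ee Q k).natDegree ≤ k := by
          rw [ee]
          refine (natDegree_prod_le _ _).trans ?_
          refine (Finset.sum_le_sum (g := fun _ => 1) fun j _ => ?_).trans (by simp)
          refine (natDegree_sub_le _ _).trans ?_
          simp only [natDegree_one, max_le_iff, Nat.zero_le, true_and]
          exact (natDegree_C_mul_le _ _).trans natDegree_X_le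
        rw [coeff_eq_zero_of_natDegree_lt (by omega), mul_zero]
    · intro h
      exact absurd (Finset.mem_range.2 hN) h
  have hg0 : g.coeff 0 = (-1) ^ N * Q ^ (N * (N + 1) / 2) := by
    have h1 := hcoef N
    rw [htop] at h1
    have h2 := hne N le_rfl
    have h3 : Q ^ (N * (N + 1) / 2) = Q ^ N * Q ^ (N * (N - 1) / 2) := by
      rw [← pow_add]
      congr 1
      rcases Nat.eq_zero_or_pos N with rfl | hN0
      · rfl
      · obtain ⟨M, rfl⟩ : ∃ M, N = M + 1 := ⟨N - 1, by omega⟩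
        have e1 : (M + 1) * (M + 1 + 1) = (M + 1) * (M + 1 - 1) + 2 * (M + 1) := by
          rw [Nat.add_sub_cancel]; ring
        rw [e1, Nat.add_mul_div_left _ _ (by norm_num)]
        omega
    rw [h3]
    apply mul_right_cancel₀ h2
    linear_combination -h1
  ext k
  rw [hcoef k, hg0, coeff_C_mul, finsetSum_coeff]
  congr 1
  rw [Finset.sum_congr rfl fun j _ => coeff_C_mul_X_pow (cc Q α j) j k]
  rw [Finset.sum_ite_eq (Finset.range p) k (fun j => cc Q α j)]
  split_ifs with h
  · rfl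
  · rw [Finset.mem_range, not_lt] at h
    exact hvan k (by omega)

end Pool.Agent.Q281.QC
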