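import Pool.Agent.Q281.QC.Sums

set_option autoImplicit false

/-!
# The congruences with `[4k+1]` and `[3k+1]`
-/

namespace Pool.Agent.Q281.QC

open Polynomial

/-- `[N]`. -/
noncomputable def qn (N : ℕ) : RatFunc ℚ := ∑ i ∈ Finset.range N, q ^ i

theorem qn_mul (N : ℕ) : (1 - q) * qn N = 1 - q ^ N := by
  rw [qn, mul_neg_geom_sum]

theorem one_sub_q_ne : (1 : RatFunc ℚ) - q ≠ 0 := by
  have := qq_ne 0
  rwa [zero_add, pow_one] at this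

theorem qn_eq (N : ℕ) : qn N = (1 - q ^ N) / (1 - q) := by
  rw [eq_div_iff one_sub_q_ne, mul_comm, qn_mul]

theorem qn_mem (n N : ℕ) : qn N ∈ Loc (Phi n) := sum_mem fun i _ => pow_mem (q_mem n) i

theorem qpow_cg (n a : ℕ) : Cg n 1 (q ^ (n * a)) 1 := by
  have h : Cg n 1 (q ^ n) 1 := ⟨1, one_mem _, by rw [pow_one, mul_one, del]⟩
  have := h.pow (pow_mem (q_mem n) n) (one_mem _) a
  rwa [one_pow, ← pow_mul] at this

theorem q1_cg (a : ℕ) : Cg 1 1 (q ^ a) 1 := by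
  have := qpow_cg 1 a
  rwa [one_mul] at this

theorem qn_cg (N : ℕ) : Cg 1 1 (qn N) ((N : ℚ) : RatFunc ℚ) := by
  have h := Cg.sum (n := 1) (r := 1) (s := Finset.range N) (f := fun i => q ^ i) (g := fun _ => 1)
    (fun i _ => q1_cg i)
  refine h.trans (Cg.of_eq ?_)
  simp

theorem qn_block (n a : ℕ) : qn (a * n) = qn n * ∑ j ∈ Finset.range a, q ^ (n * j) := by
  rw [qn, sum_blocks, qn, Finset.sum_mul_sum, Finset.sum_comm]
  refine Finset.sum_congr rfl fun i _ => Finset.sum_congr rfl fun j _ => ?_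
  rw [← pow_add]
  congr 1
  ring

/-- The evaluations modulo `δ^2`. -/
theorem lam_cg {h : ℕ} (hh : 0 < h) (i : ℕ) :
    Cg (2 * h + 1) 2 ((-1) ^ (i * (2 * h + 1) + h) * q ^ ((i * (2 * h + 1) + h) ^ 2) *
      qn ((2 * i + 1) * (2 * h + 1)))
      (((-1) ^ h * q ^ (h ^ 2) * qn (2 * h + 1)) * (((-1) ^ i * (2 * i + 1) : ℚ) : RatFunc ℚ)) := by
  set n := 2 * h + 1 with hn
  have hn0 : 0 < n := by omega
  have hinv : (1 - q)⁻¹ ∈ Loc (Phi n) := by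
    have := one_sub_inv_mem hn0 (a := 1) (by
      intro h'
      have := Nat.dvd_one.1 h'
      omega)
    rwa [pow_one] at this
  -- the part modulo δ
  have h1 : Cg n 1 (q ^ ((i * n + h) ^ 2)) (q ^ (h ^ 2)) := by
    have e : (i * n + h) ^ 2 = n * (i * (i * n + 2 * h)) + h ^ 2 := by ring
    rw [e, pow_add]
    have := (qpow_cg n (i * (i * n + 2 * h))).mul_right (pow_mem (q_mem n) (h ^ 2))
    rwa [one_mul] at this
  have h2 : Cg n 1 (∑ j ∈ Finset.range (2 * i + 1), q ^ (n * j)) ((2 * i + 1 : ℕ) : RatFunc ℚ) := by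
    have := Cg.sum (n := n) (r := 1) (s := Finset.range (2 * i + 1)) (f := fun j => q ^ (n * j))
      (g := fun _ => 1) (fun j _ => qpow_cg n j)
    refine this.trans (Cg.of_eq ?_)
    simp
  have h3 := Cg.mul (sum_mem fun j _ => pow_mem (q_mem n) (n * j)) (pow_mem (q_mem n) (h ^ 2)) h1 h2
  obtain ⟨z, hz, e⟩ := h3
  have hsgn : ((-1 : RatFunc ℚ)) ^ (i * n + h) = (-1) ^ h * (-1) ^ i := by
    have e2 : i * n + h = h + i + 2 * (i * h) := by rw [hn]; ring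
    rw [e2, pow_add, pow_add, pow_mul (-1 : RatFunc ℚ) 2 (i * h)]
    norm_num
  refine ⟨(-1) ^ h * (-1) ^ i * (-(1 - q)⁻¹) * z,
    mul_mem (mul_mem (mul_mem (pow_mem (neg_mem (one_mem _)) _) (pow_mem (neg_mem (one_mem _)) _))
      (neg_mem hinv)) hz, ?_⟩
  have e3 : qn n = -(1 - q)⁻¹ * del n := by
    rw [qn_eq, del]
    field_simp
    ring
  rw [qn_block, hsgn]
  rw [pow_one] at e
  push_cast at e ⊢
  rw [e3]
  linear_combination ((-1) ^ h * (-1) ^ i * (-(1 - q)⁻¹) * del n) * e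

theorem lam_cg1 (i : ℕ) : Cg 1 1 ((-1) ^ i * q ^ (i ^ 2) * qn (2 * i + 1))
    (((-1) ^ i * (2 * i + 1) : ℚ) : RatFunc ℚ) := by
  have h1 := Cg.mul (qn_mem 1 (2 * i + 1)) (one_mem _) (q1_cg (i ^ 2)) (qn_cg (2 * i + 1))
  have h2 := h1.mul_left (c := (-1) ^ i) (pow_mem (neg_mem (one_mem _)) i)
  rw [← mul_assoc] at h2
  refine h2.trans (Cg.of_eq ?_)
  push_cast
  ring

theorem adm_A : ∀ l i : ℕ, l < i → (((2 : ℕ) : ℤ) * (l + 1)) ^ 2 ≠ (((1 : ℕ) : ℤ) * (2 * i + 1)) ^ 2 := by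
  intro l i _ h
  push_cast at h
  rcases sq_eq_sq_iff_eq_or_eq_neg.1 h with h1 | h1 <;> omega

theorem adm_B : ∀ l i : ℕ, l < i → (((1 : ℕ) : ℤ) * (l + 1)) ^ 2 ≠ (((1 : ℕ) : ℤ) * (2 * i + 1)) ^ 2 := by
  intro l i hl h
  push_cast at h
  rcases sq_eq_sq_iff_eq_or_eq_neg.1 h with h1 | h1 <;> omega

/-- `σ_k` for the first sum. -/
noncomputable def sgA (k : ℕ) : RatFunc ℚ := (-1) ^ k * qn (4 * k + 1) * q ^ (k ^ 2)

/-- `σ_k` for the second sum. -/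
noncomputable def sgB (k : ℕ) : RatFunc ℚ := (-1) ^ k * qn (3 * k + 1)

theorem exA (M K : ℕ) (hK : M + 1 ≤ K) :
    ∑ k ∈ Finset.range K, sgA k * PP 1 1 1 2 ((2 * M + 1 : ℕ) : ℤ) k =
      (-1) ^ M * q ^ (M ^ 2) * qn (2 * M + 1) := by
  apply mul_left_cancel₀ one_sub_q_ne
  have h := sum_A M K hK
  rw [Finset.mul_sum]
  have e : (1 - q) * ((-1) ^ M * q ^ (M ^ 2) * qn (2 * M + 1)) =
      (-1) ^ M * q ^ (M ^ 2) * (1 - q ^ (2 * M + 1)) := by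
    rw [← qn_mul]
    ring
  rw [e, ← h]
  refine Finset.sum_congr rfl fun k _ => ?_
  rw [PP_pa, pow_one, sgA, ← qn_mul]
  ring

theorem exB (M K : ℕ) (hK : M + 1 ≤ K) :
    ∑ k ∈ Finset.range K, sgB k * PP 1 1 1 1 ((2 * M + 1 : ℕ) : ℤ) k =
      (-1) ^ M * q ^ (M ^ 2) * qn (2 * M + 1) := by
  apply mul_left_cancel₀ one_sub_q_ne
  have h := sum_B M
  have hsub : ∑ k ∈ Finset.range K, sgB k * PP 1 1 1 1 ((2 * M + 1 : ℕ) : ℤ) k =
      ∑ k ∈ Finset.range (M + 1), sgB k * PP 1 1 1 1 ((2 * M + 1 : ℕ) : ℤ) k := by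
    symm
    refine Finset.sum_subset (fun a ha => ?_) (fun a _ ha => ?_)
    · rw [Finset.mem_range] at ha ⊢
      omega
    · rw [Finset.mem_range, not_lt] at ha
      rw [PP_pb, pb_zero q_ne (by omega), mul_zero]
  rw [hsub, Finset.mul_sum]
  have e : (1 - q) * ((-1) ^ M * q ^ (M ^ 2) * qn (2 * M + 1)) =
      (-1) ^ M * q ^ (M ^ 2) * (1 - q ^ (2 * M + 1)) := by
    rw [← qn_mul]
    ring
  rw [e, ← h]
  refine Finset.sum_congr rfl fun k _ => ?_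
  rw [PP_pb, sgB, ← qn_mul]
  ring

/-- General form for the sums with value `(-1)^M q^(M^2) [2M+1]`. -/
theorem dwork_AB {h θ : ℕ} (hh : 0 < h) (hθ : Nat.Coprime (2 * h + 1) θ) (hθ0 : θ ≠ 0)
    (σ : ℕ → RatFunc ℚ) (hσ : ∀ k, σ k ∈ Loc (Phi (2 * h + 1))) (μ : ℕ → ℚ)
    (hσ1 : ∀ k, Cg 1 1 (σ k) (μ k : RatFunc ℚ))
    (hadm : ∀ l i : ℕ, l < i → ((θ : ℤ) * (l + 1)) ^ 2 ≠ (((1 : ℕ) : ℤ) * (2 * i + 1)) ^ 2)
    (hex : ∀ M K : ℕ, M + 1 ≤ K →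
      ∑ k ∈ Finset.range K, σ k * PP 1 1 1 θ ((2 * M + 1 : ℕ) : ℤ) k =
        (-1) ^ M * q ^ (M ^ 2) * qn (2 * M + 1)) (m : ℕ) :
    Cg (2 * h + 1) 2 (∑ k ∈ Finset.range (m * (2 * h + 1)), σ k * PP 1 1 1 θ 0 k)
      (((-1) ^ h * q ^ (h ^ 2) * qn (2 * h + 1)) *
        ((∑ l ∈ Finset.range m, ww 1 θ 0 l * μ l : ℚ) : RatFunc ℚ)) := by
  set n := 2 * h + 1 with hn
  refine engine (n := n) (b := 1) (b' := 1) (κ := 1) (by omega) (Nat.coprime_one_right n)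
    (Nat.coprime_one_right n) hθ one_ne_zero one_ne_zero hθ0 σ hσ μ
    (fun i => (-1) ^ i * (2 * i + 1)) (fun i => (-1) ^ (i * n + h) * q ^ ((i * n + h) ^ 2) *
      qn ((2 * i + 1) * n)) hadm ?_ (fun i => lam_cg hh i) ?_ m
  · intro i
    have e : 2 * (i * n + h) + 1 = (2 * i + 1) * n := by rw [hn]; ring
    have h1 := hex (i * n + h) ((i + 1) * n) (by rw [Nat.succ_mul]; omega)
    rw [e] at h1
    rw [← h1]
    refine Finset.sum_congr rfl fun k _ => ?_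
    congr 2
    push_cast
    ring
  · intro i
    refine rat_identity (b := 1) (b' := 1) one_ne_zero one_ne_zero hθ0 σ μ hσ1 hadm i
      (E := (-1) ^ i * q ^ (i ^ 2) * qn (2 * i + 1)) ?_ (lam_cg1 i)
    rw [← hex i (i + 1) le_rfl]
    refine Finset.sum_congr rfl fun k _ => ?_
    congr 2

theorem sgA_cg (k : ℕ) : Cg 1 1 (sgA k) (((-1) ^ k * (4 * k + 1) : ℚ) : RatFunc ℚ) := by
  have h1 := Cg.mul (pow_mem (q_mem 1) (k ^ 2)) (ratc 1 _) (qn_cg (4 * k + 1)) (q1_cg (k ^ 2))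
  have h2 := h1.mul_left (c := (-1) ^ k) (pow_mem (neg_mem (one_mem _)) k)
  rw [← mul_assoc] at h2
  refine h2.trans (Cg.of_eq ?_)
  push_cast
  ring

theorem sgB_cg (k : ℕ) : Cg 1 1 (sgB k) (((-1) ^ k * (3 * k + 1) : ℚ) : RatFunc ℚ) := by
  have h2 := (qn_cg (3 * k + 1)).mul_left (c := (-1) ^ k) (pow_mem (neg_mem (one_mem _)) k)
  refine h2.trans (Cg.of_eq ?_)
  push_cast
  ring

theorem dworkA {h : ℕ} (hh : 0 < h) (m : ℕ) :
    Cg (2 * h + 1) 2 (∑ k ∈ Finset.range (m * (2 * h + 1)), sgA k * PP 1 1 1 2 0 k)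
      (((-1) ^ h * q ^ (h ^ 2) * qn (2 * h + 1)) *
        ((∑ l ∈ Finset.range m, ww 1 2 0 l * ((-1) ^ l * (4 * l + 1)) : ℚ) : RatFunc ℚ)) := by
  refine dwork_AB hh ?_ two_ne_zero sgA (fun k => ?_) _ sgA_cg adm_A exA m
  · rw [Nat.coprime_two_right, Nat.odd_iff]
    omega
  · exact mul_mem (mul_mem (pow_mem (neg_mem (one_mem _)) k) (qn_mem _ _))
      (pow_mem (q_mem _) _)

theorem dworkB {h : ℕ} (hh : 0 < h) (m : ℕ) :
    Cg (2 * h + 1) 2 (∑ k ∈ Finset.range (m * (2 * h + 1)), sgB k * PP 1 1 1 1 0 k)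
      (((-1) ^ h * q ^ (h ^ 2) * qn (2 * h + 1)) *
        ((∑ l ∈ Finset.range m, ww 1 1 0 l * ((-1) ^ l * (3 * l + 1)) : ℚ) : RatFunc ℚ)) := by
  refine dwork_AB hh (Nat.coprime_one_right _) one_ne_zero sgB (fun k => ?_) _ sgB_cg adm_B exB m
  exact mul_mem (pow_mem (neg_mem (one_mem _)) k) (qn_mem _ _)

end Pool.Agent.Q281.QC
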