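import Pool.Agent.Q281.QC.Block

set_option autoImplicit false

/-!
# The congruences with non-zero right-hand side modulo `Φ_n(q)`
-/

namespace Pool.Agent.Q281.QC

open Polynomial

theorem blk_nat (n a : ℕ) : ∏ j ∈ Finset.range n,
    ((1 - q ^ (n * a + (4 * j + 1))) / (1 - q ^ (n * a + (4 * j + 3)))) = blk n a := by
  rw [blk]
  refine Finset.prod_congr rfl fun j _ => ?_
  have e1 : (n : ℤ) * (a : ℤ) + (4 * (j : ℤ) + ((1 : ℕ) : ℤ)) = ((n * a + (4 * j + 1) : ℕ) : ℤ) := by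
    push_cast
    ring
  have e3 : (n : ℤ) * (a : ℤ) + (4 * (j : ℤ) + ((3 : ℕ) : ℤ)) = ((n * a + (4 * j + 3) : ℕ) : ℤ) := by
    push_cast
    ring
  rw [e1, e3, zpow_natCast, zpow_natCast]

/-! ### The q-Watson case -/

/-- `(∏ (4v+2)/(4v+4))^2`. -/
noncomputable def rD2 (u : ℕ) : ℚ := (∏ v ∈ Finset.range u, ((4 * (v : ℚ) + 2) / (4 * v + 4))) ^ 2

theorem eD_step (t u : ℕ) : eD ((u + 1) * (4 * t + 1) + t) = eD (u * (4 * t + 1) + t) *
    (q ^ (2 * (4 * t + 1)) * blk (4 * t + 1) ((4 * u + 1 : ℕ) : ℤ) ^ 2) := by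
  set n := 4 * t + 1 with hn
  have e0 : (u + 1) * n + t = (u * n + t) + n := by ring
  rw [e0, eD, eD, Finset.prod_range_add, ← blk_nat]
  have h1 : ∀ j, (1 - q ^ (4 * (u * n + t + j) + 2)) / (1 - q ^ (4 * (u * n + t + j) + 4)) =
      (1 - q ^ (n * (4 * u + 1) + (4 * j + 1))) / (1 - q ^ (n * (4 * u + 1) + (4 * j + 3))) := by
    intro j
    have e1 : 4 * (u * n + t + j) + 2 = n * (4 * u + 1) + (4 * j + 1) := by
      have : n * (4 * u + 1) = 4 * (u * n) + n := by ring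
      omega
    have e2 : 4 * (u * n + t + j) + 4 = n * (4 * u + 1) + (4 * j + 3) := by omega
    rw [e1, e2]
  rw [Finset.prod_congr rfl fun j _ => h1 j, show 2 * (u * n + t + n) = 2 * (u * n + t) + 2 * n by ring,
    pow_add]
  ring

theorem eD_cg (t u : ℕ) (hm : eD t ∈ Loc (Phi (4 * t + 1))) :
    Cg (4 * t + 1) 2 (eD (u * (4 * t + 1) + t)) (eD t * ((rD2 u : ℚ) : RatFunc ℚ)) := by
  set n := 4 * t + 1 with hn
  induction u with
  | zero =>
    rw [zero_mul, zero_add]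
    exact Cg.of_eq (by simp [rD2])
  | succ u ih =>
    rw [hn, eD_step, ← hn]
    have h1 := blk_cg t (s := ((4 * u + 1 : ℕ) : ℤ)) (by positivity)
    rw [← hn] at h1
    have hr : ((((((4 * u + 1 : ℕ) : ℤ) : ℚ) + 1) / ((((4 * u + 1 : ℕ) : ℤ) : ℚ) + 3) : ℚ) :
        RatFunc ℚ) * (1 - del n) ∈ Loc (Phi n) :=
      mul_mem (ratc _ _) (sub_mem (one_mem _) del_mem)
    have h2 := (h1.pow (h1.mem_left hr) hr 2).mul_left (c := q ^ (2 * n))
      (pow_mem (q_mem n) _)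
    have h3 : Cg n 2 (q ^ (2 * n) * (((((((4 * u + 1 : ℕ) : ℤ) : ℚ) + 1) /
        ((((4 * u + 1 : ℕ) : ℤ) : ℚ) + 3) : ℚ) : RatFunc ℚ) * (1 - del n)) ^ 2)
        (((((4 * (u : ℚ) + 2) / (4 * u + 4)) ^ 2 : ℚ)) : RatFunc ℚ) := by
      have hq : q ^ (2 * n) = (1 + del n) ^ 2 := by
        rw [del, mul_comm 2 n, pow_mul]
        ring
      refine ⟨((((4 * (u : ℚ) + 2) / (4 * u + 4)) ^ 2 : ℚ) : RatFunc ℚ) * (del n ^ 2 - 2),
        mul_mem (ratc _ _) (sub_mem (pow_mem del_mem 2) (natCast_mem _ 2)), ?_⟩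
      rw [hq]
      have e4 : ((((4 * u + 1 : ℕ) : ℤ) : ℚ) + 1) / ((((4 * u + 1 : ℕ) : ℤ) : ℚ) + 3) =
          (4 * (u : ℚ) + 2) / (4 * u + 4) := by
        push_cast
        congr 1 <;> ring
      rw [e4]
      push_cast
      ring
    have h4 := h2.trans h3
    have h5 := Cg.mul (h4.mem_left (ratc _ _)) (mul_mem hm (ratc _ _)) ih h4
    refine h5.trans (Cg.of_eq ?_)
    rw [rD2, rD2, Finset.prod_range_succ]
    push_cast
    ring

theorem eD_mem (t : ℕ) : eD t ∈ Loc (Phi (4 * t + 1)) := by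
  rw [eD]
  refine mul_mem (pow_mem (q_mem _) _) (pow_mem (prod_mem fun j hj => ?_) 2)
  rw [Finset.mem_range] at hj
  rw [div_eq_mul_inv]
  refine mul_mem (sub_mem (one_mem _) (pow_mem (q_mem _) _)) (one_sub_inv_mem (by omega) ?_)
  intro h
  have := Nat.le_of_dvd (by omega) h
  omega

/-- `e_i`. -/
noncomputable def eeD (i : ℕ) : ℚ := if i % 2 = 0 then rD2 (i / 2) else 0

/-- The evaluations. -/
noncomputable def EED (t i : ℕ) : RatFunc ℚ :=
  if i % 2 = 0 then eD ((i / 2) * (4 * t + 1) + t) else 0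

theorem exD (t i : ℕ) : ∑ k ∈ Finset.range ((i + 1) * (4 * t + 1)), q ^ (2 * k) *
    PP 1 2 0 2 (((4 * t + 1 : ℕ) : ℤ) * (2 * i + 1)) k = EED t i := by
  set n := 4 * t + 1 with hn
  have hsum : ∀ M : ℕ, (2 * M + 1 = n * (2 * i + 1)) →
      ∑ k ∈ Finset.range ((i + 1) * n), q ^ (2 * k) * PP 1 2 0 2 ((n : ℤ) * (2 * i + 1)) k =
      ∑ k ∈ Finset.range ((i + 1) * n), q ^ (2 * k) * pd q (q ^ (2 * M + 1)) k := by
    intro M hM
    refine Finset.sum_congr rfl fun k _ => ?_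
    have e : (n : ℤ) * (2 * i + 1) = ((2 * M + 1 : ℕ) : ℤ) := by
      rw [hM]
      push_cast
      ring
    rw [e, PP_pd]
  rcases Nat.mod_two_eq_zero_or_one i with h | h
  · obtain ⟨u, rfl⟩ : ∃ u, i = 2 * u := ⟨i / 2, by omega⟩
    have hM : 2 * (2 * (u * n + t)) + 1 = n * (2 * (2 * u) + 1) := by
      have : n * (2 * (2 * u) + 1) = 4 * (u * n) + n := by ring
      omega
    rw [hsum _ hM, EED, if_pos h, show 2 * u / 2 = u by omega]
    refine sum_D_even (u * n + t) _ ?_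
    have : (2 * u + 1) * n = 2 * (u * n) + n := by ring
    omega
  · obtain ⟨u, rfl⟩ : ∃ u, i = 2 * u + 1 := ⟨i / 2, by omega⟩
    have hM : 2 * (2 * (u * n + 3 * t) + 1) + 1 = n * (2 * (2 * u + 1) + 1) := by
      have : n * (2 * (2 * u + 1) + 1) = 4 * (u * n) + 3 * n := by ring
      omega
    rw [hsum _ hM, EED, if_neg (by omega)]
    refine sum_D_odd (u * n + 3 * t) _ ?_
    have : (2 * u + 1 + 1) * n = 2 * (u * n) + 2 * n := by ring
    omega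

theorem EED_cg (t i : ℕ) : Cg (4 * t + 1) 2 (EED t i) (eD t * ((eeD i : ℚ) : RatFunc ℚ)) := by
  rw [EED, eeD]
  split_ifs with h
  · exact eD_cg t (i / 2) (eD_mem t)
  · exact Cg.of_eq (by simp)

theorem adm_D : ∀ l i : ℕ, l < i → (((2 : ℕ) : ℤ) * (l + 1)) ^ 2 ≠ (((0 : ℕ) : ℤ) * (2 * i + 1)) ^ 2 := by
  intro l i _ h
  rw [Nat.cast_zero, zero_mul] at h
  have : (((2 : ℕ) : ℤ) * (l + 1)) ^ 2 > 0 := by positivity
  rw [h] at this
  norm_num at this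

theorem dworkD (t m : ℕ) :
    Cg (4 * t + 1) 2 (∑ k ∈ Finset.range (m * (4 * t + 1)), q ^ (2 * k) * PP 1 2 0 2 0 k)
      (eD t * ((∑ l ∈ Finset.range m, ww 0 2 0 l * 1 : ℚ) : RatFunc ℚ)) := by
  have hodd : (4 * t + 1) % 2 = 1 := by omega
  have hco : Nat.Coprime (4 * t + 1) 2 := by rw [Nat.coprime_two_right, Nat.odd_iff]; exact hodd
  refine engine (n := 4 * t + 1) (b := 1) (b' := 2) (κ := 0) hodd (Nat.coprime_one_right _) hco hco
    one_ne_zero two_ne_zero two_ne_zero (fun k => q ^ (2 * k)) (fun k => pow_mem (q_mem _) _)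
    (fun _ => 1) eeD (EED t) adm_D (exD t) (EED_cg t) ?_ m
  intro i
  refine rat_identity (b := 1) (b' := 2) one_ne_zero two_ne_zero two_ne_zero
    (fun k => q ^ (2 * k)) (fun _ => 1) (fun k => ?_) adm_D i (E := EED 0 i) ?_ ?_
  · have := q1_cg (2 * k)
    refine this.trans (Cg.of_eq (by simp))
  · have := exD 0 i
    rw [← this]
    rw [show (i + 1) * (4 * 0 + 1) = i + 1 by ring]
    refine Finset.sum_congr rfl fun k _ => ?_
    congr 2
    push_cast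
    ring
  · have h := (EED_cg 0 i).mono (r' := 1) (by norm_num)
    refine h.trans (Cg.of_eq ?_)
    simp [eD]

/-! ### The value `C_n(q)` -/

/-- `A' = ∏ (1-q^(4j+1))` without the factor `1-q^n`. -/
noncomputable def AA (t : ℕ) : RatFunc ℚ := (∏ j ∈ Finset.range t, (1 - q ^ (4 * j + 1))) *
  ∏ j ∈ Finset.range t, (1 - q ^ (4 * (t + (j + 1)) + 1))

theorem AA_eq (t : ℕ) : (1 - q) * ∏ j ∈ Finset.range (2 * t), (1 - q ^ (4 * j + 5)) =
    (1 - q ^ (4 * t + 1)) * AA t := by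
  have h1 : (1 - q) * ∏ j ∈ Finset.range (2 * t), (1 - q ^ (4 * j + 5)) =
      ∏ j ∈ Finset.range (2 * t + 1), (1 - q ^ (4 * j + 1)) := by
    rw [Finset.prod_range_succ', mul_comm]
    congr 1
    simp
  rw [h1, show 2 * t + 1 = t + (t + 1) by ring, Finset.prod_range_add, Finset.prod_range_succ' _ t,
    AA]
  rw [add_zero]
  ring

theorem AA_inv (t : ℕ) : (AA t)⁻¹ ∈ Loc (Phi (4 * t + 1)) ∧ AA t ≠ 0 := by
  have key : ∀ a : ℕ, ¬ (4 * t + 1) ∣ a → (1 - q ^ a)⁻¹ ∈ Loc (Phi (4 * t + 1)) ∧ 1 - q ^ a ≠ 0 := by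
    intro a ha
    refine ⟨one_sub_inv_mem (by omega) ha, fun h => ?_⟩
    have ha0 : 0 < a := by
      rcases Nat.eq_zero_or_pos a with h0 | h0
      · rw [h0] at ha
        exact absurd (dvd_zero _) ha
      · exact h0
    exact q_pow_ne_one ha0 (sub_eq_zero.1 h).symm
  have k1 : ∀ j ∈ Finset.range t, ¬ (4 * t + 1) ∣ 4 * j + 1 := by
    intro j hj h
    rw [Finset.mem_range] at hj
    have := Nat.le_of_dvd (by omega) h
    omega
  have k2 : ∀ j ∈ Finset.range t, ¬ (4 * t + 1) ∣ 4 * (t + (j + 1)) + 1 := by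
    rintro j hj ⟨c, hc⟩
    rw [Finset.mem_range] at hj
    have h1 : c < 2 := by
      by_contra h2
      have : (4 * t + 1) * 2 ≤ (4 * t + 1) * c := Nat.mul_le_mul_left _ (by omega)
      omega
    interval_cases c <;> omega
  constructor
  · rw [AA, mul_inv, ← Finset.prod_inv_distrib, ← Finset.prod_inv_distrib]
    exact mul_mem (prod_mem fun j hj => (key _ (k1 j hj)).1) (prod_mem fun j hj => (key _ (k2 j hj)).1)
  · rw [AA]
    exact mul_ne_zero (Finset.prod_ne_zero_iff.2 fun j hj => (key _ (k1 j hj)).2)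
      (Finset.prod_ne_zero_iff.2 fun j hj => (key _ (k2 j hj)).2)

/-- `C_n(q)` for `n = 4 t + 1`. -/
noncomputable def CC (t : ℕ) : RatFunc ℚ := qn (4 * t + 1) *
  (∏ j ∈ Finset.range (2 * t), (1 - q ^ (4 * j + 3))) /
    ∏ j ∈ Finset.range (2 * t), (1 - q ^ (4 * j + 5))

theorem CC_eq (t : ℕ) : CC t = (∏ j ∈ Finset.range (2 * t), (1 - q ^ (4 * j + 3))) / AA t := by
  have h := AA_eq t
  have h1 : ∏ j ∈ Finset.range (2 * t), (1 - q ^ (4 * j + 5)) ≠ 0 :=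
    Finset.prod_ne_zero_iff.2 fun j _ => qq_ne (4 * j + 4)
  rw [CC, qn_eq, div_eq_div_iff h1 (AA_inv t).2]
  have h2 := one_sub_q_ne
  field_simp
  linear_combination (-(∏ j ∈ Finset.range (2 * t), (1 - q ^ (4 * j + 3)))) * h

theorem refl_cg {n e : ℕ} (he : e ≤ n) :
    Cg n 2 ((1 - q ^ (n - e)) * (1 - q ^ (n + e))) (-(q ^ (n - e) * (1 - q ^ e) ^ 2)) := by
  refine ⟨1, one_mem _, ?_⟩
  have h1 : q ^ (n - e) * q ^ e = q ^ n := by rw [← pow_add]; congr 1; omega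
  have h2 : q ^ n = 1 + del n := by rw [del]; ring
  rw [pow_add]
  rw [h2] at h1 ⊢
  linear_combination (1 + del n - 2 + q ^ e) * h1

theorem num_split (t : ℕ) : ∏ j ∈ Finset.range (2 * t), (1 - q ^ (4 * j + 3)) =
    ∏ j ∈ Finset.range t, ((1 - q ^ (4 * t + 1 - (4 * j + 2))) *
      (1 - q ^ (4 * t + 1 + (4 * j + 2)))) := by
  rw [two_mul, Finset.prod_range_add, ← Finset.prod_range_reflect, ← Finset.prod_mul_distrib]
  refine Finset.prod_congr rfl fun j hj => ?_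
  rw [Finset.mem_range] at hj
  have e1 : 4 * (t - 1 - j) + 3 = 4 * t + 1 - (4 * j + 2) := by omega
  have e2 : 4 * (t + j) + 3 = 4 * t + 1 + (4 * j + 2) := by omega
  rw [e1, e2]

theorem AA_split (t : ℕ) : AA t =
    ∏ j ∈ Finset.range t, ((1 - q ^ (4 * t + 1 - (4 * j + 4))) *
      (1 - q ^ (4 * t + 1 + (4 * j + 4)))) := by
  rw [AA, ← Finset.prod_range_reflect, ← Finset.prod_mul_distrib]
  refine Finset.prod_congr rfl fun j hj => ?_
  rw [Finset.mem_range] at hj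
  have e1 : 4 * (t - 1 - j) + 1 = 4 * t + 1 - (4 * j + 4) := by omega
  have e2 : 4 * (t + (j + 1)) + 1 = 4 * t + 1 + (4 * j + 4) := by omega
  rw [e1, e2]

theorem CC_cg (t : ℕ) : Cg (4 * t + 1) 2 (CC t) (eD t) := by
  rw [CC_eq, num_split, AA_split, ← Finset.prod_div_distrib]
  set n := 4 * t + 1 with hn
  have hn0 : 0 < n := by omega
  have he : eD t = ∏ j ∈ Finset.range t, ((-(q ^ (n - (4 * j + 2)) * (1 - q ^ (4 * j + 2)) ^ 2)) *
      (-(q ^ (n - (4 * j + 4)) * (1 - q ^ (4 * j + 4)) ^ 2))⁻¹) := by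
    have h2 : q ^ (2 * t) = ∏ _j ∈ Finset.range t, q ^ 2 := by
      rw [Finset.prod_const, Finset.card_range, pow_mul]
    rw [eD, h2, ← Finset.prod_pow, ← Finset.prod_mul_distrib]
    refine Finset.prod_congr rfl fun j hj => ?_
    rw [Finset.mem_range] at hj
    have e1 : q ^ (n - (4 * j + 2)) = q ^ (n - (4 * j + 4)) * q ^ 2 := by
      rw [← pow_add]
      congr 1
      omega
    have h3 : q ^ (n - (4 * j + 4)) ≠ 0 := pow_ne_zero _ q_ne
    have h4 : 1 - q ^ (4 * j + 4) ≠ 0 := qq_ne (4 * j + 3)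
    rw [e1]
    obtain ⟨d, hd⟩ : ∃ d, 1 - q ^ (4 * j + 4) = d := ⟨_, rfl⟩
    obtain ⟨p, hp⟩ : ∃ p, q ^ (n - (4 * j + 4)) = p := ⟨_, rfl⟩
    rw [hd] at h4
    rw [hp] at h3
    rw [hd, hp]
    field_simp
  rw [he]
  have hi : ∀ a : ℕ, ¬ n ∣ a → (1 - q ^ a)⁻¹ ∈ Loc (Phi n) := fun a ha => one_sub_inv_mem hn0 ha
  have hne : ∀ a : ℕ, ¬ n ∣ a → 1 - q ^ a ≠ 0 := by
    intro a ha h
    have ha0 : 0 < a := by
      rcases Nat.eq_zero_or_pos a with h0 | h0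
      · rw [h0] at ha
        exact absurd (dvd_zero _) ha
      · exact h0
    exact q_pow_ne_one ha0 (sub_eq_zero.1 h).symm
  have hpm : ∀ a : ℕ, q ^ a ∈ Loc (Phi n) := fun a => pow_mem (q_mem n) a
  have hden : ∀ j ∈ Finset.range t,
      ((1 - q ^ (n - (4 * j + 4))) * (1 - q ^ (n + (4 * j + 4))))⁻¹ ∈ Loc (Phi n) ∧
      (-(q ^ (n - (4 * j + 4)) * (1 - q ^ (4 * j + 4)) ^ 2))⁻¹ ∈ Loc (Phi n) ∧
      (1 - q ^ (n - (4 * j + 4))) * (1 - q ^ (n + (4 * j + 4))) ≠ 0 ∧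
      -(q ^ (n - (4 * j + 4)) * (1 - q ^ (4 * j + 4)) ^ 2) ≠ 0 := by
    intro j hj
    rw [Finset.mem_range] at hj
    have d1 : ¬ n ∣ n - (4 * j + 4) := fun h => by
      have := Nat.le_of_dvd (by omega) h
      omega
    have d3 : ¬ n ∣ 4 * j + 4 := fun h => by
      have := Nat.le_of_dvd (by omega) h
      omega
    have d2 : ¬ n ∣ n + (4 * j + 4) := fun h => d3 ((Nat.dvd_add_right dvd_rfl).1 h)
    refine ⟨?_, ?_, mul_ne_zero (hne _ d1) (hne _ d2), ?_⟩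
    · rw [mul_inv]
      exact mul_mem (hi _ d1) (hi _ d2)
    · rw [inv_neg, mul_inv, ← inv_pow, ← inv_pow]
      exact neg_mem (mul_mem (pow_mem (qinv_mem hn0) _) (pow_mem (hi _ d3) 2))
    · exact neg_ne_zero.2 (mul_ne_zero (pow_ne_zero _ q_ne) (pow_ne_zero 2 (hne _ d3)))
  have hone : ∀ a : ℕ, 1 - q ^ a ∈ Loc (Phi n) := fun a => sub_mem (one_mem _) (hpm a)
  refine Cg.prod (fun j hj => ?_) (fun j hj => ?_) (fun j hj => ?_)
  · rw [div_eq_mul_inv]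
    exact mul_mem (mul_mem (hone _) (hone _)) (hden j hj).1
  · exact mul_mem (neg_mem (mul_mem (hpm _) (pow_mem (hone _) 2))) (hden j hj).2.1
  · rw [div_eq_mul_inv]
    have hj' := Finset.mem_range.1 hj
    exact Cg.mul (hden j hj).1 (neg_mem (mul_mem (hpm _) (pow_mem (hone _) 2)))
      (refl_cg (by omega)) (Cg.inv (hden j hj).1 (hden j hj).2.1 (hden j hj).2.2.1
        (hden j hj).2.2.2 (refl_cg (by omega)))

/-- The final form for the q-Watson case. -/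
theorem dworkD' (t m : ℕ) :
    Cg (4 * t + 1) 2 (∑ k ∈ Finset.range (m * (4 * t + 1)), q ^ (2 * k) * PP 1 2 0 2 0 k)
      (CC t * ((∑ l ∈ Finset.range m, ww 0 2 0 l : ℚ) : RatFunc ℚ)) := by
  have h := dworkD t m
  simp only [mul_one] at h
  exact h.trans ((CC_cg t).symm.mul_right (ratc _ _))

/-! ### The case with `(1+q^(4k+1))/(1+q)` -/

/-- `e_i = (2i+1) ∏ (4j+3)/(4j+5)`. -/
noncomputable def eeC (i : ℕ) : ℚ := (2 * i + 1) *
  ∏ j ∈ Finset.range i, ((4 * (j : ℚ) + 3) / (4 * j + 5))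

theorem eC_step (t i : ℕ) : eC ((i + 1) * (4 * t + 1) + 2 * t) = eC (i * (4 * t + 1) + 2 * t) *
    ((q ^ (4 * t + 1))⁻¹ * ((1 - q ^ ((4 * t + 1) * (4 * i + 6))) /
      (1 - q ^ ((4 * t + 1) * (4 * i + 2)))) * blk (4 * t + 1) ((4 * i + 2 : ℕ) : ℤ)) := by
  set n := 4 * t + 1 with hn
  have e0 : (i + 1) * n + 2 * t = (i * n + 2 * t) + n := by ring
  rw [e0, eC, eC, Finset.prod_range_add, ← blk_nat]
  have h1 : ∀ j, (1 - q ^ (4 * (i * n + 2 * t + j) + 3)) / (1 - q ^ (4 * (i * n + 2 * t + j) + 5)) =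
      (1 - q ^ (n * (4 * i + 2) + (4 * j + 1))) / (1 - q ^ (n * (4 * i + 2) + (4 * j + 3))) := by
    intro j
    have e1 : 4 * (i * n + 2 * t + j) + 3 = n * (4 * i + 2) + (4 * j + 1) := by
      have : n * (4 * i + 2) = 4 * (i * n) + 2 * n := by ring
      omega
    have e2 : 4 * (i * n + 2 * t + j) + 5 = n * (4 * i + 2) + (4 * j + 3) := by omega
    rw [e1, e2]
  have e3 : (q ^ 2) ^ (2 * (i * n + 2 * t + n) + 1) = q ^ (n * (4 * i + 6)) := by
    rw [← pow_mul]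
    congr 1
    have : n * (4 * i + 6) = 4 * (i * n) + 6 * n := by ring
    omega
  have e4 : (q ^ 2) ^ (2 * (i * n + 2 * t) + 1) = q ^ (n * (4 * i + 2)) := by
    rw [← pow_mul]
    congr 1
    have : n * (4 * i + 2) = 4 * (i * n) + 2 * n := by ring
    omega
  rw [Finset.prod_congr rfl fun j _ => h1 j, e3, e4, pow_add]
  have h5 : 1 - q ^ (n * (4 * i + 2)) ≠ 0 := by
    have h6 : 0 < n * (4 * i + 2) := by positivity
    intro h
    exact q_pow_ne_one h6 (sub_eq_zero.1 h).symm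
  have h7 : 1 - q ^ 2 ≠ 0 := qq_ne 1
  have h8 : q ^ (i * n + 2 * t) ≠ 0 := pow_ne_zero _ q_ne
  have h9 : q ^ n ≠ 0 := pow_ne_zero _ q_ne
  obtain ⟨d, hd⟩ : ∃ d, 1 - q ^ (n * (4 * i + 2)) = d := ⟨_, rfl⟩
  obtain ⟨c, hc⟩ : ∃ c, 1 - q ^ 2 = c := ⟨_, rfl⟩
  rw [hd] at h5
  rw [hc] at h7
  rw [hd, hc]
  field_simp

theorem eC_cg (t i : ℕ) (hm : eC (2 * t) ∈ Loc (Phi (4 * t + 1))) :
    Cg (4 * t + 1) 2 (eC (i * (4 * t + 1) + 2 * t)) (eC (2 * t) * ((eeC i : ℚ) : RatFunc ℚ)) := by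
  set n := 4 * t + 1 with hn
  have hn0 : 0 < n := by omega
  induction i with
  | zero =>
    rw [zero_mul, zero_add]
    exact Cg.of_eq (by simp [eeC])
  | succ i ih =>
    rw [hn, eC_step, ← hn]
    have h1 := blk_cg t (s := ((4 * i + 2 : ℕ) : ℤ)) (by positivity)
    rw [← hn] at h1
    have h2 := ratio1 hn0 ((4 * i + 6 : ℕ) : ℤ) (b := ((4 * i + 2 : ℕ) : ℤ)) (by positivity)
    have e1 : (n : ℤ) * ((4 * i + 6 : ℕ) : ℤ) = ((n * (4 * i + 6) : ℕ) : ℤ) := by push_cast; ring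
    have e2 : (n : ℤ) * ((4 * i + 2 : ℕ) : ℤ) = ((n * (4 * i + 2) : ℕ) : ℤ) := by push_cast; ring
    rw [e1, e2, zpow_natCast, zpow_natCast] at h2
    have m1 : ∀ a b : ℚ, (a : RatFunc ℚ) * (1 + (b : RatFunc ℚ) * del n) ∈ Loc (Phi n) := fun a b =>
      mul_mem (ratc _ _) (add_mem (one_mem _) (mul_mem (ratc _ _) del_mem))
    have m2 : ∀ a : ℚ, (a : RatFunc ℚ) * (1 - del n) ∈ Loc (Phi n) := fun a =>
      mul_mem (ratc _ _) (sub_mem (one_mem _) del_mem)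
    have hqi : (q ^ n)⁻¹ ∈ Loc (Phi n) := by
      rw [← inv_pow]
      exact pow_mem (qinv_mem hn0) n
    have h3 := Cg.mul (h1.mem_left (m2 _)) (mul_mem hqi (m1 _ _)) (h2.mul_left hqi) h1
    have h4 : Cg n 2 (eC (i * n + 2 * t) * ((q ^ n)⁻¹ * ((1 - q ^ (n * (4 * i + 6))) /
        (1 - q ^ (n * (4 * i + 2)))) * blk n ((4 * i + 2 : ℕ) : ℤ)))
        (eC (2 * t) * ((eeC i : ℚ) : RatFunc ℚ) *
          ((((4 * (i : ℚ) + 6) / (4 * i + 2)) * ((4 * i + 3) / (4 * i + 5)) : ℚ) : RatFunc ℚ)) := by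
      refine Cg.mul (h3.mem_left (mul_mem (mul_mem hqi (m1 _ _)) (m2 _))) (mul_mem hm (ratc _ _)) ih
        (h3.trans ?_)
      have hq : q ^ n = 1 + del n := by rw [del]; ring
      have hqi2 : (q ^ n)⁻¹ * (1 + del n) = 1 := by
        rw [← hq]
        exact inv_mul_cancel₀ (pow_ne_zero _ q_ne)
      refine ⟨((((4 * (i : ℚ) + 6) / (4 * i + 2)) * ((4 * i + 3) / (4 * i + 5)) : ℚ) : RatFunc ℚ) *
        (-2 * (q ^ n)⁻¹), mul_mem (ratc _ _) (mul_mem (neg_mem (natCast_mem _ 2)) hqi), ?_⟩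
      have e5 : ((((4 * i + 6 : ℕ) : ℤ) : ℚ) / (((4 * i + 2 : ℕ) : ℤ) : ℚ)) =
          (4 * (i : ℚ) + 6) / (4 * i + 2) := by push_cast; ring
      have e6 : (((((4 * i + 6 : ℕ) : ℤ) : ℚ) - (((4 * i + 2 : ℕ) : ℤ) : ℚ)) / 2) = 2 := by
        push_cast; ring
      have e7 : ((((4 * i + 2 : ℕ) : ℤ) : ℚ) + 1) / ((((4 * i + 2 : ℕ) : ℤ) : ℚ) + 3) =
          (4 * (i : ℚ) + 3) / (4 * i + 5) := by
        push_cast
        congr 1 <;> ring
      rw [e5, e6, e7]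
      push_cast
      linear_combination ((4 * (i : RatFunc ℚ) + 6) / (4 * i + 2) *
        ((4 * (i : RatFunc ℚ) + 3) / (4 * i + 5))) * hqi2
    refine h4.trans (Cg.of_eq ?_)
    rw [eeC, eeC, Finset.prod_range_succ, mul_assoc]
    congr 1
    rw [← Rat.cast_mul]
    congr 1
    have p1 : (4 * (i : ℚ) + 2) ≠ 0 := by positivity
    push_cast
    field_simp
    ring

theorem eC_form (t : ℕ) : eC (2 * t) = (q ^ (2 * t))⁻¹ * (1 + q ^ (4 * t + 1)) *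
    ((1 - q) / (1 - q ^ 2)) * ((∏ j ∈ Finset.range (2 * t), (1 - q ^ (4 * j + 3))) * (AA t)⁻¹) := by
  have h := AA_eq t
  have h1 : ∏ j ∈ Finset.range (2 * t), (1 - q ^ (4 * j + 5)) ≠ 0 :=
    Finset.prod_ne_zero_iff.2 fun j _ => qq_ne (4 * j + 4)
  have h2 := (AA_inv t).2
  have h3 : 1 - q ^ 2 ≠ 0 := qq_ne 1
  have e : (q ^ 2) ^ (2 * (2 * t) + 1) = (q ^ (4 * t + 1)) ^ 2 := by
    rw [← pow_mul, ← pow_mul]
    congr 1
    ring
  rw [eC, Finset.prod_div_distrib, e]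
  have h4 : q ^ (2 * t) ≠ 0 := pow_ne_zero _ q_ne
  obtain ⟨d, hd⟩ : ∃ d, 1 - q ^ 2 = d := ⟨_, rfl⟩
  obtain ⟨p, hp⟩ : ∃ p, q ^ (2 * t) = p := ⟨_, rfl⟩
  obtain ⟨P, hP⟩ : ∃ P, ∏ j ∈ Finset.range (2 * t), (1 - q ^ (4 * j + 5)) = P := ⟨_, rfl⟩
  obtain ⟨R, hR⟩ : ∃ R, ∏ j ∈ Finset.range (2 * t), (1 - q ^ (4 * j + 3)) = R := ⟨_, rfl⟩
  rw [hd] at h3
  rw [hp] at h4
  rw [hP] at h1 h
  rw [hd, hp, hP, hR]
  field_simp
  linear_combination (-(R * (1 + q ^ (4 * t + 1)))) * h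

theorem one_add_q {n : ℕ} (hodd : n % 2 = 1) : (1 + q)⁻¹ ∈ Loc (Phi n) ∧ 1 + q ≠ 0 := by
  have hn : 0 < n := by omega
  have h3 : 1 - q ^ 2 ≠ 0 := qq_ne 1
  have h4 : 1 + q ≠ 0 := by
    intro h
    apply h3
    linear_combination (1 - q) * h
  refine ⟨?_, h4⟩
  rcases Nat.lt_or_ge 1 n with h | h
  · have h1 : ¬ n ∣ 2 := by
      intro h'
      have := Nat.le_of_dvd (by norm_num) h'
      have h5 : n = 2 := by omega
      rw [h5] at hodd
      norm_num at hodd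
    have e : (1 + q)⁻¹ = (1 - q) * (1 - q ^ 2)⁻¹ := by
      have h6 : (1 : RatFunc ℚ) - q ^ 2 = (1 - q) * (1 + q) := by ring
      rw [h6, mul_inv, ← mul_assoc, mul_inv_cancel₀ one_sub_q_ne, one_mul]
    rw [e]
    exact mul_mem (sub_mem (one_mem _) (q_mem n)) (one_sub_inv_mem hn h1)
  · have h1 : n = 1 := by omega
    subst h1
    refine (unit_of_cg one_pos (c := 2) two_ne_zero ⟨1, one_mem _, ?_⟩).1
    rw [del]
    push_cast
    ring

theorem eC_mem (t : ℕ) : eC (2 * t) ∈ Loc (Phi (4 * t + 1)) := by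
  rw [eC_form]
  have h1 : (1 - q) / (1 - q ^ 2) = (1 + q)⁻¹ := by
    have h6 : (1 : RatFunc ℚ) - q ^ 2 = (1 - q) * (1 + q) := by ring
    have h7 := (one_add_q (n := 1) rfl).2
    have h8 := one_sub_q_ne
    rw [h6]
    field_simp
  rw [h1]
  refine mul_mem (mul_mem (mul_mem ?_ (add_mem (one_mem _) (pow_mem (q_mem _) _)))
    (one_add_q (by omega)).1) (mul_mem (prod_mem fun j _ => sub_mem (one_mem _)
      (pow_mem (q_mem _) _)) (AA_inv t).1)
  rw [← inv_pow]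
  exact pow_mem (qinv_mem (by omega)) _

/-- `σ_k`. -/
noncomputable def sgC (k : ℕ) : RatFunc ℚ := q ^ k * ((1 + q ^ (4 * k + 1)) * (1 + q)⁻¹)

theorem exC (t i : ℕ) : ∑ k ∈ Finset.range ((i + 1) * (4 * t + 1)), sgC k *
    PP 2 2 1 2 (((4 * t + 1 : ℕ) : ℤ) * (2 * i + 1)) k = eC (i * (4 * t + 1) + 2 * t) := by
  set n := 4 * t + 1 with hn
  have h1 := sum_C (i * n + 2 * t) ((i + 1) * n) (by
    have : (i + 1) * n = i * n + n := by ring
    omega)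
  have h2 := (one_add_q (n := 1) rfl).2
  apply mul_left_cancel₀ h2
  rw [← h1, Finset.mul_sum]
  refine Finset.sum_congr rfl fun k _ => ?_
  have e : (n : ℤ) * (2 * i + 1) = ((2 * (i * n + 2 * t) + 1 : ℕ) : ℤ) := by
    have : n * (2 * i + 1) = 2 * (i * n + 2 * t) + 1 := by
      have h3 : n * (2 * i + 1) = 2 * (i * n) + n := by ring
      omega
    rw [← this]
    push_cast
    ring
  rw [e, PP_pa, sgC]
  linear_combination (q ^ k * (1 + q ^ (4 * k + 1)) *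
    pa (q ^ 2) ((q ^ 2) ^ (2 * (i * n + 2 * t) + 1)) k) * mul_inv_cancel₀ h2

theorem dworkC (t m : ℕ) :
    Cg (4 * t + 1) 2 (∑ k ∈ Finset.range (m * (4 * t + 1)), sgC k * PP 2 2 1 2 0 k)
      (eC (2 * t) * ((∑ l ∈ Finset.range m, ww 1 2 0 l : ℚ) : RatFunc ℚ)) := by
  have hodd : (4 * t + 1) % 2 = 1 := by omega
  have hco : Nat.Coprime (4 * t + 1) 2 := by rw [Nat.coprime_two_right, Nat.odd_iff]; exact hodd
  have h := engine (n := 4 * t + 1) (b := 2) (b' := 2) (κ := 1) hodd hco hco hco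
    two_ne_zero two_ne_zero two_ne_zero sgC (fun k => mul_mem (pow_mem (q_mem _) _)
      (mul_mem (add_mem (one_mem _) (pow_mem (q_mem _) _)) (one_add_q hodd).1))
    (fun _ => 1) eeC (fun i => eC (i * (4 * t + 1) + 2 * t)) adm_A (exC t)
    (fun i => eC_cg t i (eC_mem t)) ?_ m
  · simpa only [mul_one] using h
  intro i
  refine rat_identity (b := 2) (b' := 2) two_ne_zero two_ne_zero two_ne_zero
    sgC (fun _ => 1) (fun k => ?_) adm_A i (E := eC i) ?_ ?_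
  · have h1 := one_add_q (n := 1) rfl
    obtain ⟨z, hz, e⟩ := q1_cg k
    obtain ⟨z', hz', e'⟩ := q1_cg (4 * k + 1)
    obtain ⟨z'', hz'', e''⟩ := q1_cg 1
    refine ⟨(1 + q)⁻¹ * (z * (1 + q ^ (4 * k + 1)) + z' - z''), mul_mem h1.1 (sub_mem (add_mem
      (mul_mem hz (add_mem (one_mem _) (pow_mem (q_mem 1) _))) hz') hz''), ?_⟩
    rw [pow_one] at e e' e'' ⊢
    rw [sgC, Rat.cast_one]
    have h2 := mul_inv_cancel₀ h1.2
    linear_combination ((1 + q)⁻¹ * (1 + q ^ (4 * k + 1))) * e + (1 + q)⁻¹ * e' -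
      (1 + q)⁻¹ * e'' + h2
  · have := exC 0 i
    rw [show i * (4 * 0 + 1) + 2 * 0 = i by ring] at this
    rw [← this]
    rw [show (i + 1) * (4 * 0 + 1) = i + 1 by ring]
    refine Finset.sum_congr rfl fun k _ => ?_
    congr 2
    push_cast
    ring
  · have h := (eC_cg 0 i (eC_mem 0)).mono (r' := 1) (by norm_num)
    rw [show i * (4 * 0 + 1) + 2 * 0 = i by ring] at h
    refine h.trans (Cg.of_eq ?_)
    have h3 : 1 - q ^ 2 ≠ 0 := qq_ne 1
    simp [eC, h3]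

end Pool.Agent.Q281.QC
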