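import Pool.Agent.Q281.QC.Interp

set_option autoImplicit false

/-!
# The q-congruence between `S` and `T` holds for exactly one exponent
-/

namespace Pool.Agent.Q281.QC

open Polynomial

/-- `[p] = 1 + q + ⋯ + q^(p-1)`. -/
noncomputable def qint (p : ℕ) : Polynomial ℚ := ∑ i ∈ Finset.range p, X ^ i

theorem qint_eq {p : ℕ} (hp : p.Prime) : qint p = Phi p := by
  have := Fact.mk hp
  rw [qint, Phi, cyclotomic_prime]

/-- Coefficientwise congruence modulo `[p]^2`. -/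
def CongrSq (p : ℕ) (A B : Polynomial (RatFunc ℚ)) : Prop :=
  ∀ i, qint p ^ 2 ∣ ((A - B).coeff i).num

theorem eval_TT {p : ℕ} (hp : 0 < p) (m : ℕ) (ρ : ℤ) : (TT p m ρ).eval 1 = 1 := by
  obtain ⟨n, rfl⟩ : ∃ n, p = n + 1 := ⟨p - 1, by omega⟩
  rw [TT, eval_finsetSum, Finset.sum_range_succ']
  rw [Finset.sum_eq_zero]
  · simp [cz]
  · intro k _
    rw [eval_mul, eval_prod, Finset.prod_range_succ']
    simp

theorem no_sq {n : ℕ} (hn : 0 < n) {d : ℕ} (hd : 0 < d) {W : RatFunc ℚ} (hW : W ∈ Loc (Phi n)) :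
    q ^ d - 1 ≠ ι (Phi n) ^ 2 * W := by
  intro h
  have h1 := dvd_num 2 hW h
  have h2 : q ^ d - 1 = ι (X ^ d - 1) := by rw [map_sub, map_pow, map_one, ← q_eq]
  rw [h2, RatFunc.num_algebraMap] at h1
  have h3 : (X ^ d - 1 : Polynomial ℚ).Separable := by
    rw [X_pow_sub_one_separable_iff]
    exact_mod_cast hd.ne'
  have h4 := h3.squarefree (Phi n) (by rwa [← sq])
  exact (phi_irr hn).not_isUnit h4

theorem unique_f {p : ℕ} (hp : p.Prime) {A T : Polynomial (RatFunc ℚ)} {l : RatFunc ℚ}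
    (hl : l ≠ 0) (hlm : l⁻¹ ∈ Loc (Phi p)) (hT : T.eval 1 = 1) {f g : ℤ}
    (hf : CongrSq p A (C (l * q ^ f) * T)) (hg : CongrSq p A (C (l * q ^ g) * T)) (h : g < f) :
    False := by
  obtain ⟨d, hd, rfl⟩ : ∃ d : ℕ, 0 < d ∧ f = g + d := ⟨(f - g).toNat, by omega, by omega⟩
  have hf' : ∀ i, ∃ z ∈ Loc (Phi p), (A - C (l * q ^ (g + d)) * T).coeff i = ι (Phi p) ^ 2 * z :=
    fun i => of_dvd_num 2 (by norm_num) (by rw [← qint_eq hp]; exact hf i)
  have hg' : ∀ i, ∃ z ∈ Loc (Phi p), (A - C (l * q ^ g) * T).coeff i = ι (Phi p) ^ 2 * z :=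
    fun i => of_dvd_num 2 (by norm_num) (by rw [← qint_eq hp]; exact hg i)
  choose z hz ez using hf'
  choose w hw ew using hg'
  have e1 : C (l * (q ^ (g + d) - q ^ g)) * T =
      (A - C (l * q ^ g) * T) - (A - C (l * q ^ (g + d)) * T) := by
    rw [mul_sub, C_sub]
    ring
  have e2 : l * (q ^ (g + d) - q ^ g) = ι (Phi p) ^ 2 *
      ∑ i ∈ Finset.range ((C (l * (q ^ (g + d) - q ^ g)) * T).natDegree + 1), (w i - z i) := by
    have h1 : (C (l * (q ^ (g + d) - q ^ g)) * T).eval 1 = l * (q ^ (g + d) - q ^ g) := by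
      rw [eval_mul, eval_C, hT, mul_one]
    rw [eval_eq_sum_range] at h1
    refine h1.symm.trans ?_
    rw [Finset.mul_sum]
    refine Finset.sum_congr rfl fun i _ => ?_
    rw [one_pow, mul_one, e1, coeff_sub, ez, ew]
    ring
  have e3 : q ^ d - 1 = ι (Phi p) ^ 2 * (l⁻¹ * q ^ (-g) *
      ∑ i ∈ Finset.range ((C (l * (q ^ (g + d) - q ^ g)) * T).natDegree + 1), (w i - z i)) := by
    have h1 : q ^ (-g) * q ^ g = 1 := by
      rw [← zpow_add₀ q_ne]
      simp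
    have h2 : q ^ (g + d) = q ^ g * q ^ d := by
      rw [zpow_add₀ q_ne, zpow_natCast]
    have h3 : l⁻¹ * l = 1 := inv_mul_cancel₀ hl
    rw [h2] at e2
    rw [h2]
    linear_combination (l⁻¹ * q ^ (-g)) * e2 - (q ^ d - 1) * (l⁻¹ * l) * h1 - (q ^ d - 1) * h3
  refine no_sq hp.pos hd ?_ e3
  refine mul_mem (mul_mem hlm (qz_mem hp.pos _)) (sum_mem fun i _ => sub_mem (hw i) (hz i))

/-- The congruence holds for exactly one exponent. -/
theorem congr_iff {p m N : ℕ} (hp : p.Prime) (hp2 : p ≠ 2) (hm : 0 < m) (hpm : ¬ p ∣ m)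
    (hN : N < p) {ρ : ℤ} (hd : (p : ℤ) ∣ ρ + m * N) (f : ℤ) :
    CongrSq p (SS p m ρ) (C ((-1) ^ N * q ^ f) * TT p m ρ) ↔
      2 * f = -(m * N * (N + 1)) - (ρ + m * N) * (p - 1 - 2 * N) := by
  obtain ⟨t, ht⟩ := hd
  obtain ⟨h, hh⟩ : ∃ h : ℕ, p = 2 * h + 1 := by
    rcases hp.eq_two_or_odd with h | h
    · exact absurd h hp2
    · exact ⟨p / 2, by omega⟩
  have hp12 : ((p : ℤ) - 1) / 2 = h := by
    rw [hh]
    push_cast
    omega
  have hρ : ρ = p * t - m * N := by linarith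
  set f0 : ℤ := -(m * (N * (N + 1) / 2 : ℕ) : ℤ) + p * (t * -(((p : ℤ) - 1) / 2 - N)) with hf0
  have hex : CongrSq p (SS p m ρ) (C ((-1) ^ N * q ^ f0) * TT p m ρ) := by
    intro i
    obtain ⟨z, hz, e⟩ := main hp hp2 hm hpm hN t i
    rw [qint_eq hp, hρ]
    exact dvd_num_of_del hz e
  have hf0' : 2 * f0 = -(m * N * (N + 1)) - (ρ + m * N) * (p - 1 - 2 * N) := by
    have hdN : 2 * (N * (N + 1) / 2) = N * (N + 1) :=
      Nat.mul_div_cancel' (Nat.even_mul_succ_self N).two_dvd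
    have hdNz : 2 * ((N * (N + 1) / 2 : ℕ) : ℤ) = N * (N + 1) := by exact_mod_cast hdN
    have hz2 : (p : ℤ) = 2 * h + 1 := by exact_mod_cast hh
    rw [ht, hf0, hp12]
    have g1 : (m : ℤ) * N * (N + 1) = m * (2 * ((N * (N + 1) / 2 : ℕ) : ℤ)) := by
      rw [hdNz]
      ring
    rw [g1]
    rw [hz2]
    ring
  constructor
  · intro hf
    have : f = f0 := by
      by_contra hne
      have hl : ((-1 : RatFunc ℚ)) ^ N ≠ 0 := pow_ne_zero _ (by norm_num)
      have hlm : (((-1 : RatFunc ℚ)) ^ N)⁻¹ ∈ Loc (Phi p) := by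
        rw [← inv_pow, inv_neg, inv_one]
        exact pow_mem (neg_mem (one_mem _)) _
      rcases lt_or_gt_of_ne hne with h1 | h1
      · exact unique_f hp hl hlm (eval_TT hp.pos m ρ) hex hf h1
      · exact unique_f hp hl hlm (eval_TT hp.pos m ρ) hf hex h1
    rw [this, hf0']
  · intro hf
    have : f = f0 := by linarith
    rw [this]
    exact hex

end Pool.Agent.Q281.QC
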