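import Pool.Agent.Q281.QC.Loc
import Pool.Agent.Q281.QC.Exact

set_option autoImplicit false

/-!
# Interpolation modulo `Φ_n(q)^2` and the reflection congruence
-/

namespace Pool.Agent.Q281.QC

open Polynomial

/-- Families which depend on `t` in an affine way modulo `δ^2`, `δ = q^n - 1`. -/
def Aff (n : ℕ) (g : ℤ → RatFunc ℚ) : Prop :=
  ∃ A ∈ Loc (Phi n), ∃ B ∈ Loc (Phi n), ∀ t : ℤ, ∃ z ∈ Loc (Phi n),
    g t = A + t * (del n * B) + del n ^ 2 * z

theorem int_mem (n : ℕ) (t : ℤ) : (t : RatFunc ℚ) ∈ Loc (Phi n) := intCast_mem (Loc (Phi n)) t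

theorem Aff.const {n : ℕ} {a : RatFunc ℚ} (ha : a ∈ Loc (Phi n)) : Aff n (fun _ => a) :=
  ⟨a, ha, 0, zero_mem _, fun _ => ⟨0, zero_mem _, by ring⟩⟩

theorem Aff.mul {n : ℕ} {g g' : ℤ → RatFunc ℚ} (h : Aff n g) (h' : Aff n g') :
    Aff n (fun t => g t * g' t) := by
  obtain ⟨A, hA, B, hB, hz⟩ := h
  obtain ⟨A', hA', B', hB', hz'⟩ := h'
  refine ⟨A * A', mul_mem hA hA', A * B' + A' * B, add_mem (mul_mem hA hB') (mul_mem hA' hB),
    fun t => ?_⟩
  obtain ⟨z, z1, e⟩ := hz t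
  obtain ⟨z', z1', e'⟩ := hz' t
  have ht := int_mem n t
  have hd : del n ∈ Loc (Phi n) := del_mem
  refine ⟨t * t * (B * B') + z * g' t + z' * (A + t * (del n * B)), ?_, ?_⟩
  · have hg : g' t ∈ Loc (Phi n) := by
      rw [e']
      exact add_mem (add_mem hA' (mul_mem ht (mul_mem hd hB'))) (mul_mem (pow_mem hd 2) z1')
    exact add_mem (add_mem (mul_mem (mul_mem ht ht) (mul_mem hB hB')) (mul_mem z1 hg))
      (mul_mem z1' (add_mem hA (mul_mem ht (mul_mem hd hB))))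
  · show g t * g' t = _
    have h1 : g t * g' t = (A + t * (del n * B) + del n ^ 2 * z) * g' t := by rw [← e]
    have h2 : (A + t * (del n * B)) * g' t =
        (A + t * (del n * B)) * (A' + t * (del n * B') + del n ^ 2 * z') := by rw [← e']
    rw [h1]
    linear_combination h2

theorem Aff.add {n : ℕ} {g g' : ℤ → RatFunc ℚ} (h : Aff n g) (h' : Aff n g') :
    Aff n (fun t => g t + g' t) := by
  obtain ⟨A, hA, B, hB, hz⟩ := h
  obtain ⟨A', hA', B', hB', hz'⟩ := h'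
  refine ⟨A + A', add_mem hA hA', B + B', add_mem hB hB', fun t => ?_⟩
  obtain ⟨z, z1, e⟩ := hz t
  obtain ⟨z', z1', e'⟩ := hz' t
  exact ⟨z + z', add_mem z1 z1', by simp only [e, e']; ring⟩

theorem Aff.qpow {n : ℕ} (hn : 0 < n) (a : ℤ) : Aff n (fun t => q ^ ((n : ℤ) * t + a)) := by
  refine ⟨q ^ a, qz_mem hn a, q ^ a, qz_mem hn a, fun t => ?_⟩
  obtain ⟨z, hz, e⟩ := qz_exp hn t
  refine ⟨z * q ^ a, mul_mem hz (qz_mem hn a), ?_⟩
  simp only [zpow_add₀ q_ne, e]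
  ring

theorem Aff.qpow_neg {n : ℕ} (hn : 0 < n) (a : ℤ) : Aff n (fun t => q ^ (-((n : ℤ) * t) + a)) := by
  refine ⟨q ^ a, qz_mem hn a, -q ^ a, neg_mem (qz_mem hn a), fun t => ?_⟩
  obtain ⟨z, hz, e⟩ := qz_exp hn (-t)
  refine ⟨z * q ^ a, mul_mem hz (qz_mem hn a), ?_⟩
  simp only [zpow_add₀ q_ne, ← mul_neg, e]
  push_cast
  ring

theorem Aff.one_sub {n : ℕ} {g : ℤ → RatFunc ℚ} (h : Aff n g) : Aff n (fun t => 1 - g t) := by
  have h1 := (Aff.const (n := n) (one_mem _)).add ((Aff.const (n := n) (neg_mem (one_mem _))).mul h)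
  refine (congrArg (Aff n) ?_).mp h1
  funext t
  ring

theorem Aff.prod {n : ℕ} {s : Finset ℕ} {g : ℕ → ℤ → RatFunc ℚ} (h : ∀ j ∈ s, Aff n (g j)) :
    Aff n (fun t => ∏ j ∈ s, g j t) := by
  classical
  induction s using Finset.induction_on with
  | empty => simpa using Aff.const (n := n) (one_mem _)
  | insert a s ha ih =>
    simp only [Finset.prod_insert ha]
    exact (h a (Finset.mem_insert_self a s)).mul
      (ih fun j hj => h j (Finset.mem_insert_of_mem hj))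

theorem Aff.sum {n : ℕ} {s : Finset ℕ} {g : ℕ → ℤ → RatFunc ℚ} (h : ∀ j ∈ s, Aff n (g j)) :
    Aff n (fun t => ∑ j ∈ s, g j t) := by
  classical
  induction s using Finset.induction_on with
  | empty => simpa using Aff.const (n := n) (zero_mem _)
  | insert a s ha ih =>
    simp only [Finset.sum_insert ha]
    exact (h a (Finset.mem_insert_self a s)).add
      (ih fun j hj => h j (Finset.mem_insert_of_mem hj))

/-- Interpolation between the points `0` and `m`. -/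
theorem interp {n : ℕ} (hn : 0 < n) {s τ : ℤ → RatFunc ℚ} (hs : Aff n s) (hτ : Aff n τ)
    {m : ℤ} (hm : m ≠ 0) (e : ℤ) {l : RatFunc ℚ} (hl : l ∈ Loc (Phi n))
    (h0 : s 0 = l * τ 0) (hm' : s m = l * q ^ ((n : ℤ) * (m * e)) * τ m) (t : ℤ) :
    ∃ z ∈ Loc (Phi n), s t - l * q ^ ((n : ℤ) * (t * e)) * τ t = del n ^ 2 * z := by
  obtain ⟨A, hA, B, hB, hz⟩ := hs
  obtain ⟨A', hA', B', hB', hz'⟩ := hτ
  obtain ⟨s0, s0m, es0⟩ := hz 0
  obtain ⟨sm, smm, esm⟩ := hz m
  obtain ⟨st, stm, est⟩ := hz t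
  obtain ⟨u0, u0m, eu0⟩ := hz' 0
  obtain ⟨um, umm, eum⟩ := hz' m
  obtain ⟨ut, utm, eut⟩ := hz' t
  obtain ⟨qm, qmm, eqm⟩ := qz_exp hn (m * e)
  obtain ⟨qt, qtm, eqt⟩ := qz_exp hn (t * e)
  have hM := int_mem n m
  have hT := int_mem n t
  have hE := int_mem n e
  have hd : del n ∈ Loc (Phi n) := del_mem
  have hm0 : (m : RatFunc ℚ) ≠ 0 := by exact_mod_cast hm
  have hinv : ((m : RatFunc ℚ))⁻¹ ∈ Loc (Phi n) := by
    have := rat_mem (Phi n) ((m : ℚ)⁻¹)
    push_cast at this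
    exact this
  -- the second order part of a product
  have key : ∀ a b u v : RatFunc ℚ, (1 + a * del n + del n ^ 2 * u) *
      (A' + b * (del n * B') + del n ^ 2 * v) = A' + del n * (b * B' + a * A') +
      del n ^ 2 * (a * b * B' + a * del n * v + u * (A' + b * (del n * B') + del n ^ 2 * v) + v) := by
    intro a b u v
    ring
  set zz := m * st - t * sm + (m - t) * (l * u0 - s0) +
    t * l * ((m * e) * m * B' + (m * e) * del n * um +
      qm * (A' + m * (del n * B') + del n ^ 2 * um) + um) -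
    m * l * ((t * e) * t * B' + (t * e) * del n * ut +
      qt * (A' + t * (del n * B') + del n ^ 2 * ut) + ut) with hzz
  have hmem : zz ∈ Loc (Phi n) := by
    have f1 : ∀ {a b u v : RatFunc ℚ}, a ∈ Loc (Phi n) → b ∈ Loc (Phi n) → u ∈ Loc (Phi n) →
        v ∈ Loc (Phi n) →
        (a * b * B' + a * del n * v + u * (A' + b * (del n * B') + del n ^ 2 * v) + v) ∈
          Loc (Phi n) := by
      intro a b u v ha hb hu hv
      exact add_mem (add_mem (add_mem (mul_mem (mul_mem ha hb) hB') (mul_mem (mul_mem ha hd) hv))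
        (mul_mem hu (add_mem (add_mem hA' (mul_mem hb (mul_mem hd hB'))) (mul_mem (pow_mem hd 2) hv))))
        hv
    rw [hzz]
    refine sub_mem (add_mem (add_mem (sub_mem (mul_mem hM stm) (mul_mem hT smm))
      (mul_mem (sub_mem hM hT) (sub_mem (mul_mem hl u0m) s0m)))
      (mul_mem (mul_mem hT hl) (f1 (mul_mem hM hE) hM qmm umm)))
      (mul_mem (mul_mem hM hl) (f1 (mul_mem hT hE) hT qtm utm))
  refine ⟨(m : RatFunc ℚ)⁻¹ * zz, mul_mem hinv hmem, ?_⟩
  have hfin : (m : RatFunc ℚ) * (s t - l * q ^ ((n : ℤ) * (t * e)) * τ t) = del n ^ 2 * zz := by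
    have k1 := key (m * e) m qm um
    have k2 := key (t * e) t qt ut
    rw [es0, eu0] at h0
    rw [esm, eum, eqm] at hm'
    rw [est, eut, eqt]
    push_cast at h0 hm' ⊢
    rw [mul_assoc l, k1] at hm'
    rw [mul_assoc l, k2, hzz]
    linear_combination (m - t) * h0 + t * hm'
  apply mul_left_cancel₀ hm0
  rw [hfin]
  field_simp

/-- The coefficients `c_k` with `ρ` for `r`. -/
noncomputable def cz (m : ℕ) (ρ : ℤ) (k : ℕ) : RatFunc ℚ :=
  ∏ j ∈ Finset.range k, ((1 - q ^ (ρ + j * m)) * (1 - q ^ ((m : ℤ) - ρ + j * m)) /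
    (1 - q ^ (((j : ℤ) + 1) * m)) ^ 2)

theorem cz_aff {p : ℕ} (hp : p.Prime) {m : ℕ} (hpm : ¬ p ∣ m) (N : ℤ) {k : ℕ} (hk : k < p) :
    Aff p (fun t => cz m ((p : ℤ) * t - m * N) k) := by
  unfold cz
  refine Aff.prod (g := fun j t => (1 - q ^ ((p : ℤ) * t - m * N + j * m)) *
    (1 - q ^ ((m : ℤ) - ((p : ℤ) * t - m * N) + j * m)) / (1 - q ^ (((j : ℤ) + 1) * m)) ^ 2)
    fun j hj => ?_
  rw [Finset.mem_range] at hj
  have h1 : Aff p (fun t => 1 - q ^ ((p : ℤ) * t - m * N + j * m)) := by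
    have := (Aff.qpow hp.pos (-(m * N) + j * m)).one_sub
    refine (congrArg (Aff p) ?_).mp this
    funext t
    congr 2
    ring
  have h2 : Aff p (fun t => 1 - q ^ ((m : ℤ) - ((p : ℤ) * t - m * N) + j * m)) := by
    have := (Aff.qpow_neg hp.pos (m + m * N + j * m)).one_sub
    refine (congrArg (Aff p) ?_).mp this
    funext t
    congr 2
    ring
  have h3 : ((1 - q ^ (((j : ℤ) + 1) * m)) ^ 2)⁻¹ ∈ Loc (Phi p) := by
    rw [← inv_pow]
    refine pow_mem ?_ 2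
    have e : ((j : ℤ) + 1) * m = (((j + 1) * m : ℕ) : ℤ) := by push_cast; ring
    rw [e, zpow_natCast]
    refine one_sub_inv_mem hp.pos ?_
    rw [hp.dvd_mul]
    rintro (h | h)
    · exact absurd (Nat.le_of_dvd (Nat.succ_pos j) h) (by omega)
    · exact hpm h
  have h4 := (h1.mul h2).mul (Aff.const h3)
  refine (congrArg (Aff p) ?_).mp h4
  funext t
  rw [div_eq_mul_inv]

/-- `S(x) = ∑ c_k x^k`. -/
noncomputable def SS (p m : ℕ) (ρ : ℤ) : Polynomial (RatFunc ℚ) :=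
  ∑ k ∈ Finset.range p, C (cz m ρ k) * X ^ k

/-- `T(x) = ∑ c_k q^(mk) (x;q^m)_k`. -/
noncomputable def TT (p m : ℕ) (ρ : ℤ) : Polynomial (RatFunc ℚ) :=
  ∑ k ∈ Finset.range p, C (cz m ρ k * q ^ (m * k)) * ∏ j ∈ Finset.range k, (1 - C (q ^ (j * m)) * X)

theorem TT_eq (p m : ℕ) (ρ : ℤ) : TT p m ρ =
    ∑ k ∈ Finset.range p, C (cz m ρ k * (q ^ m) ^ k) * ee (q ^ m) k := by
  rw [TT]
  refine Finset.sum_congr rfl fun k _ => ?_
  rw [← pow_mul, ee]
  congr 1
  refine Finset.prod_congr rfl fun j _ => ?_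
  rw [← pow_mul, mul_comm m j]

theorem cz_left (m N k : ℕ) : cz m (-(m * N : ℤ)) k = cc (q ^ m) ((q ^ m) ^ N)⁻¹ k := by
  rw [cz, cc]
  refine Finset.prod_congr rfl fun j _ => ?_
  have hq := q_ne
  have e1 : q ^ (-(m * N : ℤ) + j * m) = ((q ^ m) ^ N)⁻¹ * (q ^ m) ^ j := by
    rw [zpow_add₀ hq, zpow_neg, ← pow_mul, ← pow_mul]
    congr 1
    rw [mul_comm m j]
    exact_mod_cast zpow_natCast q (j * m)
  have e2 : q ^ ((m : ℤ) - -(m * N : ℤ) + j * m) = ((q ^ m) ^ N)⁻¹⁻¹ * (q ^ m) ^ (j + 1) := by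
    rw [inv_inv, ← pow_mul, ← pow_mul, ← pow_add, ← zpow_natCast]
    congr 1
    push_cast
    ring
  have e3 : q ^ (((j : ℤ) + 1) * m) = (q ^ m) ^ (j + 1) := by
    rw [← pow_mul, ← zpow_natCast]
    congr 1
    push_cast
    ring
  rw [e1, e2, e3]

theorem cz_symm (m : ℕ) (ρ : ℤ) (k : ℕ) : cz m (m - ρ) k = cz m ρ k := by
  rw [cz, cz]
  refine Finset.prod_congr rfl fun j _ => ?_
  have e : (m : ℤ) - (m - ρ) + j * m = ρ + j * m := by ring
  rw [e, mul_comm (1 - q ^ ((m : ℤ) - ρ + j * m))]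

theorem Q_ne (m : ℕ) (hm : 0 < m) (j : ℕ) : 1 - (q ^ m) ^ (j + 1) ≠ 0 := by
  rw [← pow_mul]
  intro h
  exact q_pow_ne_one (Nat.mul_pos hm (Nat.succ_pos j)) (sub_eq_zero.1 h).symm

theorem exact_left (p m N : ℕ) (hm : 0 < m) (hN : N < p) :
    SS p m (-(m * N : ℤ)) =
      C ((-1) ^ N * q ^ (-(m * (N * (N + 1) / 2 : ℕ) : ℤ))) * TT p m (-(m * N : ℤ)) := by
  have h := reflect (q ^ m) (pow_ne_zero _ q_ne) (Q_ne m hm) N p hN
  have e1 : SS p m (-(m * N : ℤ)) =
      ∑ k ∈ Finset.range p, C (cc (q ^ m) ((q ^ m) ^ N)⁻¹ k) * X ^ k := by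
    rw [SS]
    exact Finset.sum_congr rfl fun k _ => by rw [cz_left]
  have e2 : TT p m (-(m * N : ℤ)) = ∑ k ∈ Finset.range p,
      C (cc (q ^ m) ((q ^ m) ^ N)⁻¹ k * (q ^ m) ^ k) * ee (q ^ m) k := by
    rw [TT_eq]
    exact Finset.sum_congr rfl fun k _ => by rw [cz_left]
  rw [e1, e2, h, ← mul_assoc, ← C_mul]
  have e3 : (-1 : RatFunc ℚ) ^ N * q ^ (-(m * (N * (N + 1) / 2 : ℕ) : ℤ)) *
      ((-1) ^ N * (q ^ m) ^ (N * (N + 1) / 2)) = 1 := by
    have h1 : ((-1 : RatFunc ℚ) ^ N) * (-1) ^ N = 1 := by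
      rw [← mul_pow]
      simp
    have h2 : q ^ (-(m * (N * (N + 1) / 2 : ℕ) : ℤ)) * (q ^ m) ^ (N * (N + 1) / 2) = 1 := by
      rw [← pow_mul, ← zpow_natCast, ← zpow_add₀ q_ne]
      push_cast
      simp
    linear_combination ((-1 : RatFunc ℚ) ^ N * (-1) ^ N) * h2 + h1
  rw [e3, C_1, one_mul]

/-- The reflection congruence, coefficientwise modulo `δ^2`. -/
theorem main {p : ℕ} (hp : p.Prime) (hp2 : p ≠ 2) {m : ℕ} (hm : 0 < m) (hpm : ¬ p ∣ m)
    {N : ℕ} (hN : N < p) (t : ℤ) (i : ℕ) :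
    ∃ z ∈ Loc (Phi p), (SS p m (p * t - m * N) -
      C ((-1) ^ N * q ^ (-(m * (N * (N + 1) / 2 : ℕ) : ℤ) + p * (t * -(((p : ℤ) - 1) / 2 - N)))) *
        TT p m (p * t - m * N)).coeff i = del p ^ 2 * z := by
  obtain ⟨h, hh⟩ : ∃ h : ℕ, p = 2 * h + 1 := by
    rcases hp.eq_two_or_odd with h | h
    · exact absurd h hp2
    · exact ⟨p / 2, by omega⟩
  have hp12 : ((p : ℤ) - 1) / 2 = h := by
    rw [hh]
    push_cast
    omega
  set s : ℤ → RatFunc ℚ := fun t => (SS p m (p * t - m * N)).coeff i with hs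
  set τ : ℤ → RatFunc ℚ := fun t => (TT p m (p * t - m * N)).coeff i with hτ
  have hsA : Aff p s := by
    have h1 : Aff p (fun t => ∑ k ∈ Finset.range p, cz m ((p : ℤ) * t - m * N) k *
        (X ^ k : Polynomial (RatFunc ℚ)).coeff i) := by
      refine Aff.sum (g := fun k t => cz m ((p : ℤ) * t - m * N) k *
        (X ^ k : Polynomial (RatFunc ℚ)).coeff i) fun k hk => ?_
      refine (cz_aff hp hpm N (Finset.mem_range.1 hk)).mul (Aff.const ?_)
      rw [coeff_X_pow]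
      split_ifs
      · exact one_mem _
      · exact zero_mem _
    refine (congrArg (Aff p) ?_).mp h1
    funext t
    rw [hs]
    simp only [SS, finsetSum_coeff, coeff_C_mul]
  have hτA : Aff p τ := by
    have h1 : Aff p (fun t => ∑ k ∈ Finset.range p, cz m ((p : ℤ) * t - m * N) k *
        (q ^ (m * k) * (∏ j ∈ Finset.range k,
          (1 - C (q ^ (j * m)) * X) : Polynomial (RatFunc ℚ)).coeff i)) := by
      refine Aff.sum (g := fun k t => cz m ((p : ℤ) * t - m * N) k *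
        (q ^ (m * k) * (∏ j ∈ Finset.range k,
          (1 - C (q ^ (j * m)) * X) : Polynomial (RatFunc ℚ)).coeff i)) fun k hk => ?_
      refine (cz_aff hp hpm N (Finset.mem_range.1 hk)).mul (Aff.const ?_)
      refine mul_mem (pow_mem (q_mem p) _) ?_
      have h2 : ∀ (k i : ℕ), (∏ j ∈ Finset.range k,
          (1 - C (q ^ (j * m)) * X) : Polynomial (RatFunc ℚ)).coeff i ∈ Loc (Phi p) := by
        intro k
        induction k with
        | zero =>
          intro i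
          rw [Finset.range_zero, Finset.prod_empty, coeff_one]
          split_ifs
          · exact one_mem _
          · exact zero_mem _
        | succ k ih =>
          intro i
          rw [Finset.prod_range_succ, mul_sub, mul_one, coeff_sub, ← mul_assoc]
          refine sub_mem (ih i) ?_
          cases i with
          | zero => simp
          | succ i =>
            rw [coeff_mul_X, mul_comm, coeff_C_mul]
            exact mul_mem (pow_mem (q_mem p) _) (ih i)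
      exact h2 k i
    refine (congrArg (Aff p) ?_).mp h1
    funext t
    rw [hτ]
    simp only [TT, finsetSum_coeff, coeff_C_mul, mul_assoc]
  set l : RatFunc ℚ := (-1) ^ N * q ^ (-(m * (N * (N + 1) / 2 : ℕ) : ℤ)) with hl
  have hlm : l ∈ Loc (Phi p) := mul_mem (pow_mem (neg_mem (one_mem _)) _) (qz_mem hp.pos _)
  have h0 : s 0 = l * τ 0 := by
    simp only [hs, hτ, mul_zero, zero_sub]
    have := exact_left p m N hm hN
    rw [this, coeff_C_mul]
  have hmm : s m = l * q ^ ((p : ℤ) * (m * -((h : ℤ) - N))) * τ m := by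
    simp only [hs, hτ]
    obtain ⟨N', hN'⟩ : ∃ N' : ℕ, p = N + N' + 1 := ⟨p - 1 - N, by omega⟩
    have hρ : (p : ℤ) * m - m * N = m - -(m * N' : ℤ) := by
      have : (p : ℤ) = N + N' + 1 := by exact_mod_cast hN'
      rw [this]
      ring
    have e1 : SS p m ((p : ℤ) * m - m * N) = SS p m (-(m * N' : ℤ)) := by
      rw [hρ, SS, SS]
      exact Finset.sum_congr rfl fun k _ => by rw [cz_symm]
    have e2 : TT p m ((p : ℤ) * m - m * N) = TT p m (-(m * N' : ℤ)) := by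
      rw [hρ, TT, TT]
      exact Finset.sum_congr rfl fun k _ => by rw [cz_symm]
    have h3 := exact_left p m N' hm (by omega)
    rw [e1, e2, h3, coeff_C_mul, hl]
    congr 1
    rw [mul_assoc, ← zpow_add₀ q_ne]
    have h4 : ((-1 : RatFunc ℚ)) ^ N' = (-1) ^ N := by
      have h5 : (-1 : RatFunc ℚ) ^ (N + N') = 1 := by
        rw [show N + N' = 2 * h by omega, pow_mul]
        simp
      have h6 : ((-1 : RatFunc ℚ) ^ N) * (-1) ^ N = 1 := by
        rw [← mul_pow]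
        simp
      rw [pow_add] at h5
      linear_combination ((-1 : RatFunc ℚ) ^ N) * h5 - ((-1 : RatFunc ℚ) ^ N') * h6
    rw [h4]
    congr 2
    have hdN : 2 * (N * (N + 1) / 2) = N * (N + 1) :=
      Nat.mul_div_cancel' (Nat.even_mul_succ_self N).two_dvd
    have hdN' : 2 * (N' * (N' + 1) / 2) = N' * (N' + 1) :=
      Nat.mul_div_cancel' (Nat.even_mul_succ_self N').two_dvd
    have hdNz : 2 * ((N * (N + 1) / 2 : ℕ) : ℤ) = N * (N + 1) := by exact_mod_cast hdN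
    have hdNz' : 2 * ((N' * (N' + 1) / 2 : ℕ) : ℤ) = N' * (N' + 1) := by exact_mod_cast hdN'
    have hz : (p : ℤ) = N + N' + 1 := by exact_mod_cast hN'
    have hz2 : (p : ℤ) = 2 * h + 1 := by exact_mod_cast hh
    have hNN : (N' : ℤ) = 2 * h - N := by linarith
    apply mul_left_cancel₀ (two_ne_zero (α := ℤ))
    have g1 : 2 * -((m : ℤ) * ((N' * (N' + 1) / 2 : ℕ) : ℤ)) = -(m * (N' * (N' + 1))) := by
      rw [← hdNz']
      ring
    have g2 : 2 * (-((m : ℤ) * ((N * (N + 1) / 2 : ℕ) : ℤ)) + (p : ℤ) * (m * -((h : ℤ) - N))) =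
        -(m * (N * (N + 1))) + 2 * (p * (m * -((h : ℤ) - N))) := by
      rw [← hdNz]
      ring
    rw [g1, g2, hNN, hz2]
    ring
  obtain ⟨z, hz, e⟩ := interp hp.pos hsA hτA (m := (m : ℤ)) (by exact_mod_cast hm.ne')
    (-((h : ℤ) - N)) hlm h0 hmm t
  refine ⟨z, hz, ?_⟩
  rw [← e, coeff_sub, coeff_C_mul, hp12, zpow_add₀ q_ne, ← mul_assoc]

end Pool.Agent.Q281.QC
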