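import Mathlib

set_option autoImplicit false

/-!
# Rational functions without pole at the roots of a cyclotomic polynomial
-/

namespace Pool.Agent.Q281.QC

open Polynomial

/-- The embedding of polynomials in rational functions. -/
noncomputable abbrev ι : Polynomial ℚ →+* RatFunc ℚ := algebraMap (Polynomial ℚ) (RatFunc ℚ)

theorem ι_ne {D : Polynomial ℚ} (h : D ≠ 0) : ι D ≠ 0 := by
  intro h0
  exact h ((map_eq_zero_iff ι (RatFunc.algebraMap_injective ℚ)).1 h0)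

/-- Quotients with denominator prime to `P`. -/
noncomputable def Loc (P : Polynomial ℚ) : Subring (RatFunc ℚ) where
  carrier := {x | ∃ C D : Polynomial ℚ, IsCoprime D P ∧ x * ι D = ι C}
  mul_mem' := by
    rintro x y ⟨C, D, h, e⟩ ⟨C', D', h', e'⟩
    exact ⟨C * C', D * D', h.mul_left h', by rw [map_mul, map_mul, ← e, ← e']; ring⟩
  one_mem' := ⟨1, 1, isCoprime_one_left, by simp⟩
  add_mem' := by
    rintro x y ⟨C, D, h, e⟩ ⟨C', D', h', e'⟩
    exact ⟨C * D' + C' * D, D * D', h.mul_left h', by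
      rw [map_add, map_mul, map_mul, map_mul, ← e, ← e']; ring⟩
  zero_mem' := ⟨0, 1, isCoprime_one_left, by simp⟩
  neg_mem' := by
    rintro x ⟨C, D, h, e⟩
    exact ⟨-C, D, h, by rw [map_neg, ← e]; ring⟩

theorem mem_loc {P : Polynomial ℚ} {x : RatFunc ℚ} :
    x ∈ Loc P ↔ ∃ C D : Polynomial ℚ, IsCoprime D P ∧ x * ι D = ι C := Iff.rfl

theorem poly_mem (P C : Polynomial ℚ) : ι C ∈ Loc P := ⟨C, 1, isCoprime_one_left, by simp⟩

theorem rat_mem (P : Polynomial ℚ) (c : ℚ) : (c : RatFunc ℚ) ∈ Loc P := by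
  have h := poly_mem P (C c)
  have e : ι (C c) = (c : RatFunc ℚ) := by
    have : ι.comp C = Rat.castHom (RatFunc ℚ) := RingHom.ext_rat _ _
    exact congrArg (fun f : ℚ →+* RatFunc ℚ => f c) this
  rwa [e] at h

theorem inv_mem {P D : Polynomial ℚ} (hu : ¬ IsUnit P) (h : IsCoprime D P) : (ι D)⁻¹ ∈ Loc P := by
  have hD : D ≠ 0 := by
    rintro rfl
    exact hu (isCoprime_zero_left.1 h)
  exact ⟨1, D, h, by rw [inv_mul_cancel₀ (ι_ne hD), map_one]⟩

/-- If `x = P ^ k z`, `z` without pole at `P`, then `P ^ k` divides the numerator of `x`. -/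
theorem dvd_num {P : Polynomial ℚ} (k : ℕ) {x z : RatFunc ℚ} (hz : z ∈ Loc P)
    (h : x = ι P ^ k * z) : P ^ k ∣ x.num := by
  obtain ⟨C, D, hc, e⟩ := hz
  have h1 : ι (x.num * D) = ι (P ^ k * (C * x.denom)) := by
    have hx : ι x.num = x * ι x.denom := by
      have := RatFunc.num_div_denom x
      have hd : ι x.denom ≠ 0 := ι_ne (RatFunc.denom_ne_zero x)
      rw [div_eq_iff hd] at this
      exact this
    rw [map_mul, map_mul, map_mul, map_pow, hx, ← e, h]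
    ring
  have h2 := RatFunc.algebraMap_injective ℚ h1
  have h3 : P ^ k ∣ x.num * D := ⟨_, h2⟩
  exact (hc.symm.pow_left).dvd_of_dvd_mul_right h3

/-- Converse of `dvd_num`. -/
theorem of_dvd_num {P : Polynomial ℚ} (k : ℕ) (hk : 0 < k) {x : RatFunc ℚ}
    (h : P ^ k ∣ x.num) : ∃ z ∈ Loc P, x = ι P ^ k * z := by
  obtain ⟨C, hC⟩ := h
  have hx : ι x.num = x * ι x.denom := by
    have := RatFunc.num_div_denom x
    have hd : ι x.denom ≠ 0 := ι_ne (RatFunc.denom_ne_zero x)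
    rw [div_eq_iff hd] at this
    exact this
  have hc : IsCoprime x.denom P := by
    have h1 := RatFunc.isCoprime_num_denom x
    rw [hC] at h1
    have h2 : IsCoprime (P ^ k) x.denom := h1.of_mul_left_left
    exact ((IsCoprime.pow_left_iff hk).1 h2).symm
  have hd : ι x.denom ≠ 0 := ι_ne (RatFunc.denom_ne_zero x)
  refine ⟨ι C / ι x.denom, ⟨C, x.denom, hc, by rw [div_mul_cancel₀ _ hd]⟩, ?_⟩
  rw [hC, map_mul, map_pow] at hx
  rw [← mul_div_assoc, eq_div_iff hd, hx]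

/-- The `n`-th cyclotomic polynomial over `ℚ`. -/
noncomputable abbrev Phi (n : ℕ) : Polynomial ℚ := cyclotomic n ℚ

theorem phi_irr {n : ℕ} (hn : 0 < n) : Irreducible (Phi n) := cyclotomic.irreducible_rat hn

theorem dvd_of_phi_dvd {n : ℕ} (hn : 0 < n) {a : ℕ} (h : Phi n ∣ X ^ a - 1) : n ∣ a := by
  have hz := Complex.isPrimitiveRoot_exp n hn.ne'
  obtain ⟨c, hc⟩ := h
  have h1 : aeval (Complex.exp (2 * Real.pi * Complex.I / n)) (X ^ a - 1 : Polynomial ℚ) = 0 := by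
    rw [hc, map_mul]
    have h2 : aeval (Complex.exp (2 * Real.pi * Complex.I / n)) (cyclotomic n ℚ) = 0 := by
      rw [aeval_def, ← eval_map, map_cyclotomic]
      exact hz.isRoot_cyclotomic hn
    rw [h2, zero_mul]
  simp only [map_sub, map_pow, aeval_X, map_one, sub_eq_zero] at h1
  exact hz.dvd_of_pow_eq_one a h1

theorem coprime_pow_sub {n : ℕ} (hn : 0 < n) {a : ℕ} (h : ¬ n ∣ a) :
    IsCoprime ((1 : Polynomial ℚ) - X ^ a) (Phi n) := by
  refine ((phi_irr hn).coprime_iff_not_dvd.2 fun hd => h (dvd_of_phi_dvd hn ?_)).symm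
  rw [← neg_sub]
  exact (dvd_neg).2 hd

theorem coprime_X {n : ℕ} (hn : 0 < n) : IsCoprime (X : Polynomial ℚ) (Phi n) := by
  refine ((phi_irr hn).coprime_iff_not_dvd.2 fun hd => ?_).symm
  have h1 : Phi n ∣ X ^ n - 1 := cyclotomic.dvd_X_pow_sub_one n ℚ
  have h2 : Phi n ∣ X ^ n := hd.trans (dvd_pow_self X hn.ne')
  have h3 : Phi n ∣ 1 := by
    have := dvd_sub h2 h1
    simpa using this
  exact (phi_irr hn).not_isUnit (isUnit_of_dvd_one h3)

/-- The variable `q`. -/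
noncomputable abbrev q : RatFunc ℚ := RatFunc.X

theorem q_eq : q = ι X := RatFunc.algebraMap_X.symm

theorem q_ne : q ≠ 0 := RatFunc.X_ne_zero

theorem q_mem (n : ℕ) : q ∈ Loc (Phi n) := by
  rw [q_eq]
  exact poly_mem _ _

theorem qinv_mem {n : ℕ} (hn : 0 < n) : q⁻¹ ∈ Loc (Phi n) := by
  rw [q_eq]
  exact inv_mem (phi_irr hn).not_isUnit (coprime_X hn)

theorem qz_mem {n : ℕ} (hn : 0 < n) (z : ℤ) : q ^ z ∈ Loc (Phi n) := by
  rcases Int.eq_nat_or_neg z with ⟨k, rfl | rfl⟩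
  · rw [zpow_natCast]
    exact pow_mem (q_mem n) k
  · rw [zpow_neg, zpow_natCast, ← inv_pow]
    exact pow_mem (qinv_mem hn) k

theorem q_pow_ne_one {a : ℕ} (ha : 0 < a) : q ^ a ≠ 1 := by
  intro h
  have h1 : ι (X ^ a) = ι 1 := by rw [map_pow, ← q_eq, h, map_one]
  have h2 := RatFunc.algebraMap_injective ℚ h1
  have h3 := congrArg natDegree h2
  rw [natDegree_X_pow, natDegree_one] at h3
  omega

theorem qz_ne_one {z : ℤ} (hz : z ≠ 0) : q ^ z ≠ 1 := by
  rcases Int.eq_nat_or_neg z with ⟨k, rfl | rfl⟩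
  · rw [zpow_natCast]
    exact q_pow_ne_one (by omega)
  · rw [zpow_neg, zpow_natCast, inv_ne_one]
    exact q_pow_ne_one (by omega)

/-- `1 / (1 - q ^ a)` has no pole at the primitive `n`-th roots of unity if `n` does not divide `a`. -/
theorem one_sub_inv_mem {n : ℕ} (hn : 0 < n) {a : ℕ} (h : ¬ n ∣ a) :
    (1 - q ^ a)⁻¹ ∈ Loc (Phi n) := by
  have e : 1 - q ^ a = ι (1 - X ^ a) := by rw [map_sub, map_pow, map_one, ← q_eq]
  rw [e]
  exact inv_mem (phi_irr hn).not_isUnit (coprime_pow_sub hn h)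

theorem one_sub_z_inv_mem {n : ℕ} (hn : 0 < n) {z : ℤ} (h : ¬ (n : ℤ) ∣ z) :
    (1 - q ^ z)⁻¹ ∈ Loc (Phi n) := by
  rcases Int.eq_nat_or_neg z with ⟨k, rfl | rfl⟩
  · rw [zpow_natCast]
    exact one_sub_inv_mem hn fun h' => h (Int.natCast_dvd_natCast.2 h')
  · have h' : ¬ n ∣ k := fun h' => h ((dvd_neg).2 (Int.natCast_dvd_natCast.2 h'))
    have hk : q ^ k - 1 ≠ 0 := by
      intro h0
      have hk0 : k ≠ 0 := by
        rintro rfl
        exact h' (dvd_zero _)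
      exact q_pow_ne_one (Nat.pos_of_ne_zero hk0) (sub_eq_zero.1 h0)
    have e : (1 - q ^ (-(k : ℤ)))⁻¹ = q ^ k * -(1 - q ^ k)⁻¹ := by
      have hq : q ^ k ≠ 0 := pow_ne_zero _ q_ne
      have h1 : 1 - q ^ (-(k : ℤ)) = (q ^ k - 1) / q ^ k := by
        rw [zpow_neg, zpow_natCast, sub_div, div_self hq, one_div]
      have h2 : (1 - q ^ k) ≠ 0 := by
        intro h0
        exact hk (by linear_combination -h0)
      rw [h1, inv_div]
      field_simp
      ring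
    rw [e]
    exact mul_mem (pow_mem (q_mem n) k) (neg_mem (one_sub_inv_mem hn h'))

/-- `δ = q ^ n - 1`. -/
noncomputable def del (n : ℕ) : RatFunc ℚ := q ^ n - 1

/-- `δ = Φ_n(q) g` with `g` a polynomial. -/
theorem del_eq (n : ℕ) : ∃ g : Polynomial ℚ, del n = ι (Phi n) * ι g := by
  obtain ⟨g, hg⟩ := cyclotomic.dvd_X_pow_sub_one n ℚ
  refine ⟨g, ?_⟩
  rw [← map_mul, ← hg, del, map_sub, map_pow, map_one, ← q_eq]

theorem del_mem {n : ℕ} : del n ∈ Loc (Phi n) := by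
  obtain ⟨g, hg⟩ := del_eq n
  rw [hg]
  exact mul_mem (poly_mem _ _) (poly_mem _ _)

/-- `x ≡ 0` modulo `δ ^ 2` implies that `Φ_n(q) ^ 2` divides the numerator of `x`. -/
theorem dvd_num_of_del {n : ℕ} {x z : RatFunc ℚ} (hz : z ∈ Loc (Phi n)) (h : x = del n ^ 2 * z) :
    Phi n ^ 2 ∣ x.num := by
  obtain ⟨g, hg⟩ := del_eq n
  refine dvd_num 2 (z := ι g ^ 2 * z) (mul_mem (pow_mem (poly_mem _ _) 2) hz) ?_
  rw [h, hg]
  ring

/-- `q ^ (n t) = 1 + t δ` modulo `δ ^ 2`. -/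
theorem qz_exp {n : ℕ} (hn : 0 < n) (t : ℤ) :
    ∃ z ∈ Loc (Phi n), q ^ ((n : ℤ) * t) = 1 + t * del n + del n ^ 2 * z := by
  have hd : q ^ (n : ℤ) = 1 + del n := by rw [zpow_natCast, del]; ring
  have hq := q_ne
  induction t using Int.induction_on with
  | zero => exact ⟨0, zero_mem _, by simp⟩
  | succ i ih =>
    obtain ⟨z, hz, e⟩ := ih
    refine ⟨i + z * (1 + del n), add_mem (natCast_mem (Loc (Phi n)) i)
      (mul_mem hz (add_mem (one_mem _) del_mem)), ?_⟩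
    rw [mul_add, mul_one, zpow_add₀ hq, e, hd]
    push_cast
    ring
  | pred i ih =>
    obtain ⟨z, hz, e⟩ := ih
    have hi : q ^ (-(n : ℤ)) ∈ Loc (Phi n) := qz_mem hn _
    refine ⟨q ^ (-(n : ℤ)) * (z + (i + 1)), mul_mem hi (add_mem hz
      (add_mem (natCast_mem (Loc (Phi n)) i) (one_mem _))), ?_⟩
    have h1 : q ^ (-(n : ℤ)) * (1 + del n) = 1 := by
      rw [← hd, ← zpow_add₀ hq]
      simp
    have h2 : q ^ ((n : ℤ) * (-(i : ℤ) - 1)) = q ^ (-(n : ℤ)) * q ^ ((n : ℤ) * (-(i : ℤ))) := by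
      rw [← zpow_add₀ hq]
      congr 1
      ring
    rw [h2, e]
    push_cast
    linear_combination (1 - (i + 1) * del n) * h1

end Pool.Agent.Q281.QC
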