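import Pool.Agent.Q281.QC.Final

set_option autoImplicit false

/-!
# The sums `S`, `T` and the congruence modulo `[p]^2`
-/

namespace Pool.Agent.Q281.QCS

open Polynomial

/-- The rational functions in `q` over `ℚ`; `q` is `RatFunc.X`. -/
noncomputable abbrev q : RatFunc ℚ := RatFunc.X

/-- `c_k = ∏_{j<k} (1 - q^(r+jm)) (1 - q^(m-r+jm)) / (1 - q^((j+1)m))^2`. -/
noncomputable def c (m r k : ℕ) : RatFunc ℚ :=
  ∏ j ∈ Finset.range k, ((1 - q ^ ((r : ℤ) + j * m)) * (1 - q ^ ((m : ℤ) - r + j * m)) /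
    (1 - q ^ (((j : ℤ) + 1) * m)) ^ 2)

/-- `S_{p,m,r}(x)`; the variable `x` is the variable of polynomials over `ℚ(q)`. -/
noncomputable def S (p m r : ℕ) : Polynomial (RatFunc ℚ) :=
  ∑ k ∈ Finset.range p, C (c m r k) * X ^ k

/-- `T_{p,m,r}(x)`. -/
noncomputable def T (p m r : ℕ) : Polynomial (RatFunc ℚ) :=
  ∑ k ∈ Finset.range p, C (c m r k * q ^ (m * k)) *
    ∏ j ∈ Finset.range k, (1 - C (q ^ (j * m)) * X)

/-- `[p] = 1 + q + ⋯ + q^(p-1)`. -/
noncomputable def qint (p : ℕ) : Polynomial ℚ := ∑ i ∈ Finset.range p, X ^ i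

/-- `A ≡ B (mod [p]^2)`: for every coefficient of `A - B`, the numerator of the reduced fraction is
divisible by `[p]^2`. -/
def CongrSq (p : ℕ) (A B : Polynomial (RatFunc ℚ)) : Prop :=
  ∀ i, qint p ^ 2 ∣ ((A - B).coeff i).num

/-- `⟨a⟩_p`, the representative in `{0, …, p-1}` of `a` modulo `p`, for a rational number `a` with
denominator prime to `p`. -/
noncomputable def res (p : ℕ) (a : ℚ) : ℕ := ((a.num : ZMod p) * (a.den : ZMod p)⁻¹).val

/-- Admissible triples. -/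
def Adm (p m r : ℕ) : Prop := p.Prime ∧ p ≠ 2 ∧ 1 ≤ m ∧ 1 ≤ r ∧ ¬ m ∣ r ∧ ¬ p ∣ m

/-- The congruence with the exponent `f`. -/
def Holds (p m r : ℕ) (f : ℤ) : Prop :=
  CongrSq p (S p m r) (C ((-1) ^ (res p (-(r : ℚ) / m)) * q ^ f) * T p m r)

theorem res_spec {p m r : ℕ} (hp : p.Prime) (hpm : ¬ p ∣ m) :
    res p (-(r : ℚ) / m) < p ∧ (p : ℤ) ∣ (r : ℤ) + m * res p (-(r : ℚ) / m) := by
  have := Fact.mk hp
  refine ⟨ZMod.val_lt _, ?_⟩
  rw [← ZMod.intCast_zmod_eq_zero_iff_dvd]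
  push_cast
  rw [res, ZMod.natCast_val, ZMod.cast_id]
  set a : ℚ := -(r : ℚ) / m with ha
  have hm : (m : ZMod p) ≠ 0 := by rwa [Ne, ZMod.natCast_eq_zero_iff]
  have hm0 : (m : ℚ) ≠ 0 := by
    intro h
    apply hpm
    have : m = 0 := by exact_mod_cast h
    rw [this]
    exact dvd_zero p
  have h1 : a.num * m = -r * a.den := by
    have h2 : (a.num : ℚ) * m = -r * a.den := by
      have h3 : (a.num : ℚ) = a * a.den := (Rat.mul_den_eq_num a).symm
      rw [h3, ha]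
      field_simp
    exact_mod_cast h2
  have h2 : (a.num : ZMod p) * m = -r * a.den := by exact_mod_cast congrArg (Int.cast : ℤ → ZMod p) h1
  have hden : (a.den : ZMod p) ≠ 0 := by
    intro h0
    rw [h0, mul_zero] at h2
    have h3 : (a.num : ZMod p) = 0 := by
      rcases mul_eq_zero.1 h2 with h | h
      · exact h
      · exact absurd h hm
    rw [ZMod.natCast_eq_zero_iff] at h0
    have h4 : p ∣ a.num.natAbs := by
      rw [ZMod.intCast_zmod_eq_zero_iff_dvd] at h3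
      exact Int.natCast_dvd.1 h3
    have h5 := Nat.dvd_gcd h4 h0
    rw [a.reduced.gcd_eq_one] at h5
    exact hp.one_lt.ne' (Nat.dvd_one.1 h5)
  field_simp
  linear_combination h2

theorem congr_iff {p m r N : ℕ} (hp : p.Prime) (hp2 : p ≠ 2) (hm : 1 ≤ m) (hpm : ¬ p ∣ m)
    (hN : N < p) (hd : (p : ℤ) ∣ (r : ℤ) + m * N) (f : ℤ) :
    CongrSq p (S p m r) (C ((-1) ^ N * q ^ f) * T p m r) ↔
      2 * f = -(m * N * (N + 1)) - (r + m * N) * (p - 1 - 2 * N) :=
  Pool.Agent.Q281.QC.congr_iff hp hp2 hm hpm hN hd f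

theorem res_unique {p m r N : ℕ} (hp : p.Prime) (hpm : ¬ p ∣ m) (hN : N < p)
    (hd : (p : ℤ) ∣ (r : ℤ) + m * N) : res p (-(r : ℚ) / m) = N := by
  obtain ⟨h1, h2⟩ := res_spec (r := r) hp hpm
  have h3 : (p : ℤ) ∣ (m : ℤ) * ((res p (-(r : ℚ) / m) : ℤ) - N) := by
    have := dvd_sub h2 hd
    have e : (r : ℤ) + m * (res p (-(r : ℚ) / m)) - (r + m * N) =
        (m : ℤ) * ((res p (-(r : ℚ) / m) : ℤ) - N) := by ring
    rwa [e] at this
  have hpz : Prime (p : ℤ) := Nat.prime_iff_prime_int.1 hp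
  rcases hpz.dvd_or_dvd h3 with h | h
  · exact absurd (Int.natCast_dvd_natCast.1 h) hpm
  · have h4 : (res p (-(r : ℚ) / m) : ℤ) - N = 0 := by
      apply Int.eq_zero_of_abs_lt_dvd h
      rw [abs_lt]
      constructor
      · have : (N : ℤ) < p := by exact_mod_cast hN
        omega
      · have : ((res p (-(r : ℚ) / m) : ℕ) : ℤ) < p := by exact_mod_cast h1
        omega
    omega

theorem holds_iff {p m r : ℕ} (h : Adm p m r) (f : ℤ) :
    Holds p m r f ↔ 2 * f = -(m * (res p (-(r : ℚ) / m)) * ((res p (-(r : ℚ) / m)) + 1)) -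
      (r + m * (res p (-(r : ℚ) / m))) * (p - 1 - 2 * (res p (-(r : ℚ) / m))) := by
  obtain ⟨hp, hp2, hm, _, _, hpm⟩ := h
  obtain ⟨h1, h2⟩ := res_spec (r := r) hp hpm
  exact congr_iff hp hp2 hm hpm h1 h2 f

end Pool.Agent.Q281.QCS
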