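import Pool.Agent.Q281.QC.FinAB

set_option autoImplicit false

/-!
# Notation for the q-supercongruences
-/

namespace Pool.Agent.Q281.QCD

open Polynomial

/-- The variable `q` of the field `ℚ(q)`. -/
noncomputable abbrev q : RatFunc ℚ := RatFunc.X

/-- `(a;b)_k = (1-a)(1-ab)⋯(1-ab^(k-1))`. -/
noncomputable def qp (a b : RatFunc ℚ) (k : ℕ) : RatFunc ℚ := ∏ j ∈ Finset.range k, (1 - a * b ^ j)

/-- `[N] = 1 + q + ⋯ + q^(N-1)`. -/
noncomputable def qint (N : ℕ) : RatFunc ℚ := ∑ i ∈ Finset.range N, q ^ i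

/-- `(x)_k = x(x+1)⋯(x+k-1)`. -/
def rise (x : ℚ) (k : ℕ) : ℚ := ∏ j ∈ Finset.range k, (x + j)

/-- `A ≡ B (mod Φ_n(q)^2)`: `A - B = P/Q` with polynomials `P`, `Q`, `Q` coprime to `Φ_n` and
`Φ_n^2 ∣ P`. -/
def CongrPhiSq (n : ℕ) (A B : RatFunc ℚ) : Prop := ∃ P Q : Polynomial ℚ,
  IsCoprime Q (cyclotomic n ℚ) ∧ cyclotomic n ℚ ^ 2 ∣ P ∧
    A - B = algebraMap (Polynomial ℚ) (RatFunc ℚ) P / algebraMap (Polynomial ℚ) (RatFunc ℚ) Q

theorem congr_of_cg {n : ℕ} (hn : 0 < n) {A B : RatFunc ℚ} (h : QC.Cg n 2 A B) :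
    CongrPhiSq n A B := by
  obtain ⟨z, ⟨C, D, hD, e⟩, e2⟩ := h
  obtain ⟨g, hg⟩ := QC.del_eq n
  have hD0 : D ≠ 0 := by
    rintro rfl
    exact (QC.phi_irr hn).not_isUnit (isCoprime_zero_left.1 hD)
  refine ⟨QC.Phi n ^ 2 * (g ^ 2 * C), D, hD, Dvd.intro _ rfl, ?_⟩
  have hD' := QC.ι_ne hD0
  rw [e2, hg, eq_div_iff hD', map_mul, map_mul, map_pow, map_pow, ← e]
  ring

theorem qint_eq (N : ℕ) : qint N = QC.qn N := rfl

theorem pa_one (k : ℕ) : QC.pa q 1 k = qp q (q ^ 2) k ^ 3 / qp (q ^ 2) (q ^ 2) k ^ 3 := by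
  rw [QC.pa, qp, qp, ← Finset.prod_pow, ← Finset.prod_pow, ← Finset.prod_div_distrib]
  refine Finset.prod_congr rfl fun i _ => ?_
  rw [inv_one, one_mul, one_mul]
  have e1 : q * (q ^ 2) ^ i = q ^ (2 * i + 1) := by rw [← pow_mul, ← pow_succ']
  have e2 : q ^ 2 * (q ^ 2) ^ i = q ^ (2 * i + 2) := by rw [← pow_succ', ← pow_mul]; congr 1
  rw [e1, e2]
  congr 1 <;> ring

theorem pb_one (k : ℕ) : QC.pb q 1 k = (qp q (q ^ 2) k / qp q q k) ^ 3 := by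
  rw [QC.pb, qp, qp, ← Finset.prod_div_distrib, ← Finset.prod_pow]
  refine Finset.prod_congr rfl fun i _ => ?_
  rw [inv_one, one_mul, one_mul]
  have e1 : q * (q ^ 2) ^ i = q ^ (2 * i + 1) := by rw [← pow_mul, ← pow_succ']
  have e2 : q * q ^ i = q ^ (i + 1) := by rw [← pow_succ']
  rw [e1, e2, div_pow]
  congr 1 <;> ring

theorem rise_half (k : ℕ) : rise (1 / 2) k = ∏ i ∈ Finset.range k, ((2 * (i : ℚ) + 1) / 2) := by
  rw [rise]
  exact Finset.prod_congr rfl fun i _ => by ring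

theorem ww2 (κ : ℕ) (l : ℕ) : QC.ww κ 2 0 l = rise (1 / 2) l ^ 3 / (l.factorial : ℚ) ^ 3 := by
  have hf : (l.factorial : ℚ) = ∏ i ∈ Finset.range l, ((i : ℚ) + 1) := by
    rw [← Finset.prod_range_add_one_eq_factorial]
    push_cast
    rfl
  rw [QC.ww, rise_half, hf, ← Finset.prod_pow, ← Finset.prod_pow, ← Finset.prod_div_distrib]
  refine Finset.prod_congr rfl fun i _ => ?_
  unfold QC.cS
  have h : ((i : ℚ) + 1) ≠ 0 := by positivity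
  push_cast
  field_simp
  ring

theorem ww1 (κ : ℕ) (l : ℕ) :
    QC.ww κ 1 0 l = 8 ^ l * rise (1 / 2) l ^ 3 / (l.factorial : ℚ) ^ 3 := by
  have hf : (l.factorial : ℚ) = ∏ i ∈ Finset.range l, ((i : ℚ) + 1) := by
    rw [← Finset.prod_range_add_one_eq_factorial]
    push_cast
    rfl
  have h8 : (8 : ℚ) ^ l = ∏ _i ∈ Finset.range l, (8 : ℚ) := by simp
  rw [QC.ww, rise_half, hf, h8, ← Finset.prod_pow, ← Finset.prod_pow, ← Finset.prod_mul_distrib,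
    ← Finset.prod_div_distrib]
  refine Finset.prod_congr rfl fun i _ => ?_
  unfold QC.cS
  have h : ((i : ℚ) + 1) ≠ 0 := by positivity
  push_cast
  field_simp
  ring

theorem odd_form {n : ℕ} (hn : Odd n) (h1 : 1 < n) : ∃ h, 0 < h ∧ n = 2 * h + 1 ∧
    (n - 1) / 2 = h ∧ (n - 1) ^ 2 / 4 = h ^ 2 := by
  obtain ⟨h, rfl⟩ := hn
  refine ⟨h, by omega, rfl, by omega, ?_⟩
  rw [Nat.add_sub_cancel, mul_pow]
  norm_num

/-- A simple zero at `q = 1` is not a double one. -/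
theorem not_congr_one {A B : RatFunc ℚ} {F D : Polynomial ℚ}
    (h : (A - B) * algebraMap (Polynomial ℚ) (RatFunc ℚ) D =
      algebraMap (Polynomial ℚ) (RatFunc ℚ) F)
    (hF : (derivative F).eval 1 ≠ 0) : ¬ CongrPhiSq 1 A B := by
  rintro ⟨P, Q, hQ, ⟨R, hR⟩, e⟩
  rw [cyclotomic_one] at hQ hR
  have hX : ¬ IsUnit (X - 1 : Polynomial ℚ) := by
    have := not_isUnit_X_sub_C (1 : ℚ)
    rwa [C_1] at this
  have hQ0 : Q ≠ 0 := by
    rintro rfl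
    exact hX (isCoprime_zero_left.1 hQ)
  have hQ' := QC.ι_ne hQ0
  rw [e, div_mul_eq_mul_div, div_eq_iff hQ', ← map_mul, ← map_mul] at h
  have h2 := RatFunc.algebraMap_injective ℚ h
  have h3 : (X - 1 : Polynomial ℚ) ^ 2 ∣ F * Q := ⟨R * D, by rw [← h2, hR]; ring⟩
  obtain ⟨G, hG⟩ := (hQ.symm.pow_left).dvd_of_dvd_mul_right h3
  apply hF
  rw [hG]
  simp [derivative_pow]

end Pool.Agent.Q281.QCD
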