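import Mathlib

set_option autoImplicit false

/-!
# Four terminating summation formulas by telescoping
-/

namespace Pool.Agent.Q281.QC

variable {K : Type} [Field K]

/-- The product in the very-well-poised sums. -/
noncomputable def pa (q x : K) (k : ℕ) : K := ∏ i ∈ Finset.range k,
  ((1 - x * q ^ (2 * i + 1)) * (1 - x⁻¹ * q ^ (2 * i + 1)) * (1 - q ^ (2 * i + 1)) /
    ((1 - x * q ^ (2 * i + 2)) * (1 - x⁻¹ * q ^ (2 * i + 2)) * (1 - q ^ (2 * i + 2))))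

theorem pa_succ (q x : K) (k : ℕ) : pa q x (k + 1) = pa q x k *
    ((1 - x * q ^ (2 * k + 1)) * (1 - x⁻¹ * q ^ (2 * k + 1)) * (1 - q ^ (2 * k + 1)) /
    ((1 - x * q ^ (2 * k + 2)) * (1 - x⁻¹ * q ^ (2 * k + 2)) * (1 - q ^ (2 * k + 2)))) :=
  Finset.prod_range_succ _ _

theorem pa_ratio {q x : K} (hq0 : q ≠ 0) (hx0 : x ≠ 0) (hx : ∀ i : ℕ, 1 - x * q ^ i ≠ 0)
    (hy : ∀ i : ℕ, 1 - x⁻¹ * q ^ (2 * i) ≠ 0) (hq : ∀ i : ℕ, 1 - q ^ (i + 1) ≠ 0) (k : ℕ) :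
    pa q x k = pa q (x * q ^ 2) k * ((1 - x) * q * (1 - x⁻¹ * q⁻¹ * q ^ (2 * k)) *
      (1 - x * q ^ 2 * q ^ (2 * k)) / ((1 - x * q ^ 2) * (1 - x * q * q ^ (2 * k)) *
        (1 - x⁻¹ * q ^ (2 * k)))) := by
  induction k with
  | zero =>
    have h1 := hx 0
    have h2 := hx 1
    have h3 := hx 2
    have h4 := hy 0
    simp only [pow_zero, mul_one, pow_one, mul_zero] at h1 h2 h3 h4
    simp only [pa, Finset.range_zero, Finset.prod_empty, mul_zero, pow_zero, mul_one]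
    rw [one_mul, eq_div_iff (mul_ne_zero (mul_ne_zero h3 h2) h4)]
    field_simp
    ring
  | succ k ih =>
    rw [pa_succ, pa_succ, ih]
    set y := q ^ (2 * k) with hy'
    have e1 : q ^ (2 * k + 1) = y * q := by rw [hy', pow_succ]
    have e2 : q ^ (2 * k + 2) = y * q ^ 2 := by rw [hy', pow_add]
    have e3 : q ^ (2 * (k + 1)) = y * q ^ 2 := by rw [hy', ← pow_add]; congr 1
    have hy0 : y ≠ 0 := pow_ne_zero _ hq0
    have a1 : 1 - x * q * y ≠ 0 := by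
      have := hx (2 * k + 1); rw [e1] at this; intro h; apply this; linear_combination h
    have a2 : 1 - x⁻¹ * y ≠ 0 := by have := hy k; rwa [← hy'] at this
    have a3 : 1 - x * q ^ 2 * y ≠ 0 := by
      have := hx (2 * k + 2); rw [e2] at this; intro h; apply this; linear_combination h
    have a4 : 1 - x⁻¹ * (y * q ^ 2) ≠ 0 := by have := hy (k + 1); rwa [e3] at this
    have a5 : 1 - y * q ^ 2 ≠ 0 := by have := hq (2 * k + 1); rwa [show 2 * k + 1 + 1 = 2 * k + 2 from rfl, e2] at this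
    have a6 : 1 - x * q ^ 3 * y ≠ 0 := by
      have := hx (2 * k + 3)
      have e : q ^ (2 * k + 3) = y * q ^ 3 := by rw [hy', pow_add]
      rw [e] at this; intro h; apply this; linear_combination h
    have a7 : 1 - x * q ^ 4 * y ≠ 0 := by
      have := hx (2 * k + 4)
      have e : q ^ (2 * k + 4) = y * q ^ 4 := by rw [hy', pow_add]
      rw [e] at this; intro h; apply this; linear_combination h
    have a8 : 1 - x * q ^ 2 ≠ 0 := hx 2
    have b1 : x - y ≠ 0 := by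
      intro h; apply a2; rw [sub_eq_zero.1 h, inv_mul_cancel₀ hy0, sub_self]
    have b2 : x - y * q ^ 2 ≠ 0 := by
      intro h; apply a4; rw [sub_eq_zero.1 h, inv_mul_cancel₀ (mul_ne_zero hy0 (pow_ne_zero 2 hq0)),
        sub_self]
    rw [e1, e2, e3]
    have c1 : 1 - x * q ^ 2 * (y * q) = 1 - x * q ^ 3 * y := by ring
    have c2 : 1 - x * q ^ 2 * (y * q ^ 2) = 1 - x * q ^ 4 * y := by ring
    have c3 : 1 - x * (y * q) = 1 - x * q * y := by ring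
    have c4 : 1 - x * (y * q ^ 2) = 1 - x * q ^ 2 * y := by ring
    have c5 : 1 - x * q * (y * q ^ 2) = 1 - x * q ^ 3 * y := by ring
    have c6 : 1 - (x * q ^ 2)⁻¹ * (y * q) = (x * q - y) / (x * q) := by field_simp
    have c7 : 1 - (x * q ^ 2)⁻¹ * (y * q ^ 2) = (x - y) / x := by field_simp
    have c8 : 1 - x⁻¹ * (y * q) = (x - y * q) / x := by field_simp
    have c9 : 1 - x⁻¹ * (y * q ^ 2) = (x - y * q ^ 2) / x := by field_simp
    have c10 : 1 - x⁻¹ * y = (x - y) / x := by field_simp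
    have c11 : 1 - x⁻¹ * q⁻¹ * y = (x * q - y) / (x * q) := by field_simp
    have c12 : 1 - x⁻¹ * q⁻¹ * (y * q ^ 2) = (x - y * q) / x := by field_simp
    rw [c1, c2, c3, c4, c5, c6, c7, c8, c9, c10, c11, c12]
    field_simp

/-- Telescoping for the sum with `[4k+1]`. -/
theorem tele_A {q x : K} (hq0 : q ≠ 0) (hx0 : x ≠ 0) (hx : ∀ i : ℕ, 1 - x * q ^ i ≠ 0)
    (hy : ∀ i : ℕ, 1 - x⁻¹ * q ^ (2 * i) ≠ 0) (hq : ∀ i : ℕ, 1 - q ^ (i + 1) ≠ 0) (k : ℕ) :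
    (-1) ^ k * (1 - q ^ (4 * k + 1)) * q ^ (k ^ 2) * pa q (x * q ^ 2) k / (1 - x * q ^ 2) +
      x * ((-1) ^ k * (1 - q ^ (4 * k + 1)) * q ^ (k ^ 2) * pa q x k) / (1 - x) =
    -((1 + x * q) / (1 - x * q ^ 2) * ((-1) ^ (k + 1) * q ^ ((k + 1) ^ 2) *
      pa q (x * q ^ 2) (k + 1) * (1 - q ^ (2 * (k + 1))) * (1 - x * q ^ 2 * q ^ (2 * (k + 1))) /
        (1 - x * q * q ^ (2 * (k + 1))))) -
    -((1 + x * q) / (1 - x * q ^ 2) * ((-1) ^ k * q ^ (k ^ 2) *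
      pa q (x * q ^ 2) k * (1 - q ^ (2 * k)) * (1 - x * q ^ 2 * q ^ (2 * k)) /
        (1 - x * q * q ^ (2 * k)))) := by
  rw [pa_ratio hq0 hx0 hx hy hq k, pa_succ]
  set y := q ^ (2 * k) with hy'
  set p := pa q (x * q ^ 2) k with hp
  set s := (-1 : K) ^ k with hs
  set w := q ^ (k ^ 2) with hw
  have e1 : q ^ (2 * k + 1) = y * q := by rw [hy', pow_succ]
  have e2 : q ^ (2 * k + 2) = y * q ^ 2 := by rw [hy', pow_add]
  have e3 : q ^ (2 * (k + 1)) = y * q ^ 2 := by rw [hy', ← pow_add]; congr 1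
  have e4 : q ^ (4 * k + 1) = y ^ 2 * q := by rw [hy', ← pow_mul, ← pow_succ]; congr 1; ring
  have e5 : q ^ ((k + 1) ^ 2) = w * y * q := by
    rw [hw, hy', ← pow_add, ← pow_succ]
    congr 1
    ring
  have e6 : (-1 : K) ^ (k + 1) = -s := by rw [hs, pow_succ]; ring
  have hy0 : y ≠ 0 := pow_ne_zero _ hq0
  have a1 : 1 - x * q * y ≠ 0 := by
    have := hx (2 * k + 1); rw [e1] at this; intro h; apply this; linear_combination h
  have a2 : 1 - x⁻¹ * y ≠ 0 := by have := hy k; rwa [← hy'] at this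
  have a5 : 1 - y * q ^ 2 ≠ 0 := by
    have := hq (2 * k + 1); rwa [show 2 * k + 1 + 1 = 2 * k + 2 from rfl, e2] at this
  have a6 : 1 - x * q ^ 3 * y ≠ 0 := by
    have := hx (2 * k + 3)
    have e : q ^ (2 * k + 3) = y * q ^ 3 := by rw [hy', pow_add]
    rw [e] at this; intro h; apply this; linear_combination h
  have a7 : 1 - x * q ^ 4 * y ≠ 0 := by
    have := hx (2 * k + 4)
    have e : q ^ (2 * k + 4) = y * q ^ 4 := by rw [hy', pow_add]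
    rw [e] at this; intro h; apply this; linear_combination h
  have a8 : 1 - x * q ^ 2 ≠ 0 := hx 2
  have a9 : 1 - x ≠ 0 := by have := hx 0; rwa [pow_zero, mul_one] at this
  have b1 : x - y ≠ 0 := by
    intro h; apply a2; rw [sub_eq_zero.1 h, inv_mul_cancel₀ hy0, sub_self]
  rw [e1, e2, e3, e4, e5, e6]
  have c1 : 1 - x * q ^ 2 * (y * q) = 1 - x * q ^ 3 * y := by ring
  have c2 : 1 - x * q ^ 2 * (y * q ^ 2) = 1 - x * q ^ 4 * y := by ring
  have c5 : 1 - x * q * (y * q ^ 2) = 1 - x * q ^ 3 * y := by ring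
  have c6 : 1 - (x * q ^ 2)⁻¹ * (y * q) = (x * q - y) / (x * q) := by field_simp
  have c7 : 1 - (x * q ^ 2)⁻¹ * (y * q ^ 2) = (x - y) / x := by field_simp
  have c10 : 1 - x⁻¹ * y = (x - y) / x := by field_simp
  have c11 : 1 - x⁻¹ * q⁻¹ * y = (x * q - y) / (x * q) := by field_simp
  rw [c1, c2, c5, c6, c7, c10, c11]
  obtain ⟨d1, hd1⟩ : ∃ d, 1 - x * q * y = d := ⟨_, rfl⟩
  obtain ⟨d5, hd5⟩ : ∃ d, 1 - y * q ^ 2 = d := ⟨_, rfl⟩
  obtain ⟨d6, hd6⟩ : ∃ d, 1 - x * q ^ 3 * y = d := ⟨_, rfl⟩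
  obtain ⟨d7, hd7⟩ : ∃ d, 1 - x * q ^ 4 * y = d := ⟨_, rfl⟩
  obtain ⟨d8, hd8⟩ : ∃ d, 1 - x * q ^ 2 = d := ⟨_, rfl⟩
  obtain ⟨d9, hd9⟩ : ∃ d, 1 - x = d := ⟨_, rfl⟩
  obtain ⟨d0, hd0⟩ : ∃ d, x - y = d := ⟨_, rfl⟩
  rw [hd1] at a1
  rw [hd5] at a5
  rw [hd6] at a6
  rw [hd7] at a7
  rw [hd8] at a8
  rw [hd9] at a9
  rw [hd0] at b1
  rw [hd1, hd5, hd6, hd7, hd8, hd9, hd0]
  clear c1 c2 c5 c6 c7 c10 c11 a2
  field_simp
  subst hd1 hd5 hd6 hd7 hd8 hd9 hd0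
  ring

end Pool.Agent.Q281.QC
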