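import Pool.Agent.Q281.QC.WZ

set_option autoImplicit false

/-!
# Telescoping for the sums with `[3k+1]`, `(1+q^(4k+1))` and the q-Watson sum
-/

namespace Pool.Agent.Q281.QC

variable {K : Type} [Field K]

/-- The product in the sum with `[3k+1]`. -/
noncomputable def pb (q x : K) (k : ℕ) : K := ∏ i ∈ Finset.range k,
  ((1 - x * q ^ (2 * i + 1)) * (1 - x⁻¹ * q ^ (2 * i + 1)) * (1 - q ^ (2 * i + 1)) /
    ((1 - x * q ^ (i + 1)) * (1 - x⁻¹ * q ^ (i + 1)) * (1 - q ^ (i + 1))))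

theorem pb_succ (q x : K) (k : ℕ) : pb q x (k + 1) = pb q x k *
    ((1 - x * q ^ (2 * k + 1)) * (1 - x⁻¹ * q ^ (2 * k + 1)) * (1 - q ^ (2 * k + 1)) /
    ((1 - x * q ^ (k + 1)) * (1 - x⁻¹ * q ^ (k + 1)) * (1 - q ^ (k + 1)))) :=
  Finset.prod_range_succ _ _

theorem pb_ratio {q x : K} (hq0 : q ≠ 0) (hx0 : x ≠ 0) (hx : ∀ i : ℕ, 1 - x * q ^ i ≠ 0)
    (hq : ∀ i : ℕ, 1 - q ^ (i + 1) ≠ 0) (k : ℕ) (hy : ∀ i ≤ k, x - q ^ i ≠ 0) :
    pb q x k = pb q (x * q ^ 2) k * (-((1 - x) * (x * q - (q ^ k) ^ 2) * (1 - x * q * q ^ k) *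
      (1 - x * q ^ 2 * q ^ k)) / ((1 - x * q ^ 2) * (1 - x * q * (q ^ k) ^ 2) *
        (x * q - q ^ k) * (x - q ^ k))) := by
  induction k with
  | zero =>
    have h1 := hx 0
    have h2 := hx 1
    have h3 := hx 2
    have h4 := hy 0 le_rfl
    simp only [pow_zero, mul_one, pow_one] at h1 h2 h3 h4
    simp only [pb, Finset.range_zero, Finset.prod_empty, pow_zero, mul_one, one_pow]
    have h5 : x * q - 1 ≠ 0 := by
      intro h
      apply h2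
      linear_combination -h
    rw [one_mul, eq_div_iff (mul_ne_zero (mul_ne_zero (mul_ne_zero h3 h2) h5) h4)]
    ring
  | succ k ih =>
    rw [pb_succ, pb_succ, ih fun i hi => hy i (by omega)]
    set z := q ^ k with hz
    have e1 : q ^ (2 * k + 1) = z ^ 2 * q := by rw [hz, ← pow_mul, pow_succ, mul_comm k 2]
    have e2 : q ^ (k + 1) = z * q := by rw [hz, pow_succ]
    have hz0 : z ≠ 0 := pow_ne_zero _ hq0
    have a1 : 1 - x * q * z ^ 2 ≠ 0 := by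
      have := hx (2 * k + 1); rw [e1] at this; intro h; apply this; linear_combination h
    have a2 : x - z ≠ 0 := by have := hy k (by omega); rwa [← hz] at this
    have a3 : x - z * q ≠ 0 := by have := hy (k + 1) le_rfl; rwa [e2] at this
    have a4 : 1 - x * q * z ≠ 0 := by
      have := hx (k + 1); rw [e2] at this; intro h; apply this; linear_combination h
    have a5 : 1 - z * q ≠ 0 := by have := hq k; rwa [e2] at this
    have a6 : 1 - x * q ^ 3 * z ^ 2 ≠ 0 := by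
      have := hx (2 * k + 3)
      have e : q ^ (2 * k + 3) = z ^ 2 * q ^ 3 := by rw [hz, ← pow_mul, ← pow_add, mul_comm k 2]
      rw [e] at this; intro h; apply this; linear_combination h
    have a7 : 1 - x * q ^ 3 * z ≠ 0 := by
      have := hx (k + 3)
      have e : q ^ (k + 3) = z * q ^ 3 := by rw [hz, pow_add]
      rw [e] at this; intro h; apply this; linear_combination h
    have a8 : 1 - x * q ^ 2 ≠ 0 := hx 2
    have a9 : x * q - z ≠ 0 := by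
      rcases Nat.eq_zero_or_pos k with h0 | h0
      · have := hx 1
        rw [h0, pow_zero] at hz
        rw [hz]
        intro h
        apply this
        linear_combination -h
      · have h1 := hy (k - 1) (by omega)
        have e : z = q ^ (k - 1) * q := by rw [hz, ← pow_succ]; congr 1; omega
        rw [e, ← sub_mul]
        exact mul_ne_zero h1 hq0
    have a10 : 1 - x * q ^ 2 * z ≠ 0 := by
      have := hx (k + 2)
      have e : q ^ (k + 2) = z * q ^ 2 := by rw [hz, pow_add]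
      rw [e] at this; intro h; apply this; linear_combination h
    have a11 : x * q - z * q ≠ 0 := by rw [← sub_mul]; exact mul_ne_zero a2 hq0
    rw [e1, e2]
    have c1 : 1 - x * q ^ 2 * (z ^ 2 * q) = 1 - x * q ^ 3 * z ^ 2 := by ring
    have c2 : 1 - x * q ^ 2 * (z * q) = 1 - x * q ^ 3 * z := by ring
    have c3 : 1 - x * (z ^ 2 * q) = 1 - x * q * z ^ 2 := by ring
    have c4 : 1 - x * (z * q) = 1 - x * q * z := by ring
    have c5 : 1 - x * q * (z * q) = 1 - x * q ^ 2 * z := by ring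
    have c6 : 1 - (x * q ^ 2)⁻¹ * (z ^ 2 * q) = (x * q - z ^ 2) / (x * q) := by field_simp
    have c7 : 1 - (x * q ^ 2)⁻¹ * (z * q) = (x * q - z) / (x * q) := by field_simp
    have c8 : 1 - x⁻¹ * (z ^ 2 * q) = (x - z ^ 2 * q) / x := by field_simp
    have c9 : 1 - x⁻¹ * (z * q) = (x - z * q) / x := by field_simp
    have c10 : 1 - x * q * (z * q) ^ 2 = 1 - x * q ^ 3 * z ^ 2 := by ring
    have c11 : x * q - (z * q) ^ 2 = q * (x - z ^ 2 * q) := by ring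
    have c12 : x * q - z * q = q * (x - z) := by ring
    rw [c1, c2, c3, c4, c5, c6, c7, c8, c9, c10, c11, c12]
    field_simp

/-- Telescoping for the sum with `[3k+1]`. -/
theorem tele_B {q x : K} (hq0 : q ≠ 0) (hx0 : x ≠ 0) (hx : ∀ i : ℕ, 1 - x * q ^ i ≠ 0)
    (hq : ∀ i : ℕ, 1 - q ^ (i + 1) ≠ 0) (k : ℕ) (hy : ∀ i ≤ k, x - q ^ i ≠ 0) :
    (-1) ^ k * (1 - q ^ (3 * k + 1)) * pb q (x * q ^ 2) k / (1 - x * q ^ 2) +
      x * ((-1) ^ k * (1 - q ^ (3 * k + 1)) * pb q x k) / (1 - x) =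
    ((1 - x ^ 2 * q ^ 2) / (1 - x * q ^ 2) * ((-1) ^ (k + 1) *
      pb q (x * q ^ 2) (k + 1) * q ^ (k + 1) * (1 - q ^ (k + 1)) * (1 - x * q ^ 2 * q ^ (k + 1)) /
        ((1 - x * q * (q ^ (k + 1)) ^ 2) * (x * q - q ^ (k + 1))))) -
    ((1 - x ^ 2 * q ^ 2) / (1 - x * q ^ 2) * ((-1) ^ k *
      pb q (x * q ^ 2) k * q ^ k * (1 - q ^ k) * (1 - x * q ^ 2 * q ^ k) /
        ((1 - x * q * (q ^ k) ^ 2) * (x * q - q ^ k)))) := by
  rw [pb_ratio hq0 hx0 hx hq k hy, pb_succ]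
  set z := q ^ k with hz
  set p := pb q (x * q ^ 2) k with hp
  set s := (-1 : K) ^ k with hs
  have e1 : q ^ (2 * k + 1) = z ^ 2 * q := by rw [hz, ← pow_mul, pow_succ, mul_comm k 2]
  have e2 : q ^ (k + 1) = z * q := by rw [hz, pow_succ]
  have e4 : q ^ (3 * k + 1) = z ^ 3 * q := by rw [hz, ← pow_mul, ← pow_succ]; congr 1; ring
  have e6 : (-1 : K) ^ (k + 1) = -s := by rw [hs, pow_succ]; ring
  have hz0 : z ≠ 0 := pow_ne_zero _ hq0
  have a1 : 1 - x * q * z ^ 2 ≠ 0 := by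
    have := hx (2 * k + 1); rw [e1] at this; intro h; apply this; linear_combination h
  have a2 : x - z ≠ 0 := by have := hy k le_rfl; rwa [← hz] at this
  have a5 : 1 - z * q ≠ 0 := by have := hq k; rwa [e2] at this
  have a6 : 1 - x * q ^ 3 * z ^ 2 ≠ 0 := by
    have := hx (2 * k + 3)
    have e : q ^ (2 * k + 3) = z ^ 2 * q ^ 3 := by rw [hz, ← pow_mul, ← pow_add, mul_comm k 2]
    rw [e] at this; intro h; apply this; linear_combination h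
  have a7 : 1 - x * q ^ 3 * z ≠ 0 := by
    have := hx (k + 3)
    have e : q ^ (k + 3) = z * q ^ 3 := by rw [hz, pow_add]
    rw [e] at this; intro h; apply this; linear_combination h
  have a8 : 1 - x * q ^ 2 ≠ 0 := hx 2
  have a9 : x * q - z ≠ 0 := by
    rcases Nat.eq_zero_or_pos k with h0 | h0
    · have := hx 1
      rw [h0, pow_zero] at hz
      rw [hz]
      intro h
      apply this
      linear_combination -h
    · have h1 := hy (k - 1) (by omega)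
      have e : z = q ^ (k - 1) * q := by rw [hz, ← pow_succ]; congr 1; omega
      rw [e, ← sub_mul]
      exact mul_ne_zero h1 hq0
  have a10 : 1 - x ≠ 0 := by have := hx 0; rwa [pow_zero, mul_one] at this
  rw [e1, e2, e4, e6]
  have c1 : 1 - x * q ^ 2 * (z ^ 2 * q) = 1 - x * q ^ 3 * z ^ 2 := by ring
  have c2 : 1 - x * q ^ 2 * (z * q) = 1 - x * q ^ 3 * z := by ring
  have c6 : 1 - (x * q ^ 2)⁻¹ * (z ^ 2 * q) = (x * q - z ^ 2) / (x * q) := by field_simp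
  have c7 : 1 - (x * q ^ 2)⁻¹ * (z * q) = (x * q - z) / (x * q) := by field_simp
  have c10 : 1 - x * q * (z * q) ^ 2 = 1 - x * q ^ 3 * z ^ 2 := by ring
  have c12 : x * q - z * q = q * (x - z) := by ring
  rw [c1, c2, c6, c7, c10, c12]
  obtain ⟨d1, hd1⟩ : ∃ d, 1 - x * q * z ^ 2 = d := ⟨_, rfl⟩
  obtain ⟨d5, hd5⟩ : ∃ d, 1 - z * q = d := ⟨_, rfl⟩
  obtain ⟨d6, hd6⟩ : ∃ d, 1 - x * q ^ 3 * z ^ 2 = d := ⟨_, rfl⟩
  obtain ⟨d7, hd7⟩ : ∃ d, 1 - x * q ^ 3 * z = d := ⟨_, rfl⟩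
  obtain ⟨d8, hd8⟩ : ∃ d, 1 - x * q ^ 2 = d := ⟨_, rfl⟩
  obtain ⟨d9, hd9⟩ : ∃ d, 1 - x = d := ⟨_, rfl⟩
  obtain ⟨d0, hd0⟩ : ∃ d, x - z = d := ⟨_, rfl⟩
  obtain ⟨d2, hd2⟩ : ∃ d, x * q - z = d := ⟨_, rfl⟩
  rw [hd1] at a1
  rw [hd5] at a5
  rw [hd6] at a6
  rw [hd7] at a7
  rw [hd8] at a8
  rw [hd9] at a10
  rw [hd0] at a2
  rw [hd2] at a9
  rw [hd1, hd5, hd6, hd7, hd8, hd9, hd0, hd2]
  clear c1 c2 c6 c7 c10 c12
  field_simp
  subst hd1 hd5 hd6 hd7 hd8 hd9 hd0 hd2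
  ring

/-- Telescoping for the sum with `(1+q^(4k+1))`. -/
theorem tele_C {q x : K} (hq0 : q ≠ 0) (hx0 : x ≠ 0) (hx : ∀ i : ℕ, 1 - x * q ^ i ≠ 0)
    (hy : ∀ i : ℕ, 1 - x⁻¹ * q ^ (4 * i) ≠ 0) (hq : ∀ i : ℕ, 1 - q ^ (i + 1) ≠ 0) (k : ℕ) :
    (1 - x * q ^ 3) / (1 - x * q ^ 4) *
        (q ^ k * (1 + q ^ (4 * k + 1)) * pa (q ^ 2) (x * (q ^ 2) ^ 2) k) -
      (1 - x * q) / (q * (1 - x)) * (q ^ k * (1 + q ^ (4 * k + 1)) * pa (q ^ 2) x k) =
    -((1 + x * q ^ 2) / (1 - x * q ^ 4) * (q ^ (k + 1) *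
      pa (q ^ 2) (x * (q ^ 2) ^ 2) (k + 1) * (1 - q ^ (4 * (k + 1))) *
        (1 - x * q ^ 4 * q ^ (4 * (k + 1))) / (1 - x * q ^ 2 * q ^ (4 * (k + 1))))) -
    -((1 + x * q ^ 2) / (1 - x * q ^ 4) * (q ^ k *
      pa (q ^ 2) (x * (q ^ 2) ^ 2) k * (1 - q ^ (4 * k)) * (1 - x * q ^ 4 * q ^ (4 * k)) /
        (1 - x * q ^ 2 * q ^ (4 * k)))) := by
  have hx' : ∀ i : ℕ, 1 - x * (q ^ 2) ^ i ≠ 0 := fun i => by rw [← pow_mul]; exact hx _
  have hy' : ∀ i : ℕ, 1 - x⁻¹ * (q ^ 2) ^ (2 * i) ≠ 0 := fun i => by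
    rw [← pow_mul, show 2 * (2 * i) = 4 * i by ring]; exact hy i
  have hq' : ∀ i : ℕ, 1 - (q ^ 2) ^ (i + 1) ≠ 0 := fun i => by
    rw [← pow_mul, show 2 * (i + 1) = (2 * i + 1) + 1 by ring]; exact hq _
  rw [pa_ratio (pow_ne_zero 2 hq0) hx0 hx' hy' hq' k, pa_succ]
  set y := (q ^ 2) ^ (2 * k) with hyy
  set p := pa (q ^ 2) (x * (q ^ 2) ^ 2) k with hp
  set s := q ^ k with hs
  have e0 : q ^ (4 * k) = y := by rw [hyy, ← pow_mul]; congr 1; ring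
  have e1 : (q ^ 2) ^ (2 * k + 1) = y * q ^ 2 := by rw [hyy, pow_succ]
  have e2 : (q ^ 2) ^ (2 * k + 2) = y * q ^ 4 := by rw [hyy, pow_add, ← pow_mul q 2 2]
  have e3 : q ^ (4 * (k + 1)) = y * q ^ 4 := by rw [← e0, ← pow_add]; congr 1
  have e4 : q ^ (4 * k + 1) = y * q := by rw [pow_succ, e0]
  have e6 : q ^ (k + 1) = s * q := by rw [hs, pow_succ]
  have e7 : (q ^ 2) ^ 2 = q ^ 4 := by rw [← pow_mul]
  have hy0 : y ≠ 0 := pow_ne_zero _ (pow_ne_zero _ hq0)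
  have a1 : 1 - x * q ^ 2 * y ≠ 0 := by
    have := hx' (2 * k + 1); rw [e1] at this; intro h; apply this; linear_combination h
  have a2 : 1 - x⁻¹ * y ≠ 0 := by have := hy' k; rwa [← hyy] at this
  have a5 : 1 - y * q ^ 4 ≠ 0 := by
    have := hq' (2 * k + 1); rwa [show 2 * k + 1 + 1 = 2 * k + 2 from rfl, e2] at this
  have a6 : 1 - x * q ^ 6 * y ≠ 0 := by
    have := hx' (2 * k + 3)
    have e : (q ^ 2) ^ (2 * k + 3) = y * q ^ 6 := by rw [hyy, pow_add, ← pow_mul q 2 3]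
    rw [e] at this; intro h; apply this; linear_combination h
  have a7 : 1 - x * q ^ 8 * y ≠ 0 := by
    have := hx' (2 * k + 4)
    have e : (q ^ 2) ^ (2 * k + 4) = y * q ^ 8 := by rw [hyy, pow_add, ← pow_mul q 2 4]
    rw [e] at this; intro h; apply this; linear_combination h
  have a8 : 1 - x * q ^ 4 ≠ 0 := hx 4
  have a9 : 1 - x ≠ 0 := by have := hx 0; rwa [pow_zero, mul_one] at this
  have a10 : 1 - x * q ≠ 0 := by have := hx 1; rwa [pow_one] at this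
  have b1 : x - y ≠ 0 := by
    intro h; apply a2; rw [sub_eq_zero.1 h, inv_mul_cancel₀ hy0, sub_self]
  rw [e0, e1, e2, e3, e4, e6, e7]
  have c1 : 1 - x * q ^ 4 * (y * q ^ 2) = 1 - x * q ^ 6 * y := by ring
  have c2 : 1 - x * q ^ 4 * (y * q ^ 4) = 1 - x * q ^ 8 * y := by ring
  have c5 : 1 - x * q ^ 2 * (y * q ^ 4) = 1 - x * q ^ 6 * y := by ring
  have c6 : 1 - (x * q ^ 4)⁻¹ * (y * q ^ 2) = (x * q ^ 2 - y) / (x * q ^ 2) := by field_simp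
  have c7 : 1 - (x * q ^ 4)⁻¹ * (y * q ^ 4) = (x - y) / x := by field_simp
  have c10 : 1 - x⁻¹ * y = (x - y) / x := by field_simp
  have c11 : 1 - x⁻¹ * (q ^ 2)⁻¹ * y = (x * q ^ 2 - y) / (x * q ^ 2) := by field_simp
  rw [c1, c2, c5, c6, c7, c10, c11]
  obtain ⟨d1, hd1⟩ : ∃ d, 1 - x * q ^ 2 * y = d := ⟨_, rfl⟩
  obtain ⟨d5, hd5⟩ : ∃ d, 1 - y * q ^ 4 = d := ⟨_, rfl⟩
  obtain ⟨d6, hd6⟩ : ∃ d, 1 - x * q ^ 6 * y = d := ⟨_, rfl⟩
  obtain ⟨d7, hd7⟩ : ∃ d, 1 - x * q ^ 8 * y = d := ⟨_, rfl⟩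
  obtain ⟨d8, hd8⟩ : ∃ d, 1 - x * q ^ 4 = d := ⟨_, rfl⟩
  obtain ⟨d9, hd9⟩ : ∃ d, 1 - x = d := ⟨_, rfl⟩
  obtain ⟨d0, hd0⟩ : ∃ d, x - y = d := ⟨_, rfl⟩
  rw [hd1] at a1
  rw [hd5] at a5
  rw [hd6] at a6
  rw [hd7] at a7
  rw [hd8] at a8
  rw [hd9] at a9
  rw [hd0] at b1
  rw [hd1, hd5, hd6, hd7, hd8, hd9, hd0]
  clear c1 c2 c5 c6 c7 c10 c11 a2
  field_simp
  subst hd1 hd5 hd6 hd7 hd8 hd9 hd0
  ring

/-- The product in the q-Watson sum. -/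
noncomputable def pd (q x : K) (k : ℕ) : K := ∏ i ∈ Finset.range k,
  ((1 - x * q ^ (2 * i + 1)) * (1 - x⁻¹ * q ^ (2 * i + 1)) * (1 - q ^ (4 * i + 2)) /
    ((1 - q ^ (2 * i + 2)) ^ 2 * (1 - q ^ (4 * i + 4))))

theorem pd_succ (q x : K) (k : ℕ) : pd q x (k + 1) = pd q x k *
    ((1 - x * q ^ (2 * k + 1)) * (1 - x⁻¹ * q ^ (2 * k + 1)) * (1 - q ^ (4 * k + 2)) /
    ((1 - q ^ (2 * k + 2)) ^ 2 * (1 - q ^ (4 * k + 4)))) :=
  Finset.prod_range_succ _ _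

theorem pd_ratio {q x : K} (hq0 : q ≠ 0) (hx0 : x ≠ 0) (hx : ∀ i : ℕ, 1 - x * q ^ i ≠ 0)
    (hq : ∀ i : ℕ, 1 - q ^ (i + 1) ≠ 0) (k : ℕ) :
    pd q x k = pd q (x * q ^ 4) k * ((x * q ^ 3 - q ^ (2 * k)) * (x * q - q ^ (2 * k)) /
      ((1 - x * q * q ^ (2 * k)) * (1 - x * q ^ 3 * q ^ (2 * k)))) := by
  induction k with
  | zero =>
    have h2 := hx 1
    have h3 := hx 3
    simp only [pow_one] at h2
    simp only [pd, Finset.range_zero, Finset.prod_empty, mul_zero, pow_zero, mul_one]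
    rw [one_mul, eq_div_iff (mul_ne_zero h2 h3)]
    ring
  | succ k ih =>
    rw [pd_succ, pd_succ, ih]
    set y := q ^ (2 * k) with hy'
    have e1 : q ^ (2 * k + 1) = y * q := by rw [hy', pow_succ]
    have e2 : q ^ (2 * k + 2) = y * q ^ 2 := by rw [hy', pow_add]
    have e3 : q ^ (2 * (k + 1)) = y * q ^ 2 := by rw [hy', ← pow_add]; congr 1
    have e4 : q ^ (4 * k + 4) = y ^ 2 * q ^ 4 := by
      rw [hy', ← pow_mul, ← pow_add]; congr 1; ring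
    have hy0 : y ≠ 0 := pow_ne_zero _ hq0
    have a1 : 1 - x * q * y ≠ 0 := by
      have := hx (2 * k + 1); rw [e1] at this; intro h; apply this; linear_combination h
    have a5 : 1 - y * q ^ 2 ≠ 0 := by
      have := hq (2 * k + 1); rwa [show 2 * k + 1 + 1 = 2 * k + 2 from rfl, e2] at this
    have a4 : 1 - y ^ 2 * q ^ 4 ≠ 0 := by
      have := hq (4 * k + 3); rwa [show 4 * k + 3 + 1 = 4 * k + 4 from rfl, e4] at this
    have a6 : 1 - x * q ^ 3 * y ≠ 0 := by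
      have := hx (2 * k + 3)
      have e : q ^ (2 * k + 3) = y * q ^ 3 := by rw [hy', pow_add]
      rw [e] at this; intro h; apply this; linear_combination h
    have a7 : 1 - x * q ^ 5 * y ≠ 0 := by
      have := hx (2 * k + 5)
      have e : q ^ (2 * k + 5) = y * q ^ 5 := by rw [hy', pow_add]
      rw [e] at this; intro h; apply this; linear_combination h
    rw [e1, e2, e3, e4]
    have c1 : 1 - x * q ^ 4 * (y * q) = 1 - x * q ^ 5 * y := by ring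
    have c3 : 1 - x * (y * q) = 1 - x * q * y := by ring
    have c4 : 1 - x * q * (y * q ^ 2) = 1 - x * q ^ 3 * y := by ring
    have c5 : 1 - x * q ^ 3 * (y * q ^ 2) = 1 - x * q ^ 5 * y := by ring
    have c6 : 1 - (x * q ^ 4)⁻¹ * (y * q) = (x * q ^ 3 - y) / (x * q ^ 3) := by field_simp
    have c8 : 1 - x⁻¹ * (y * q) = (x - y * q) / x := by field_simp
    have c9 : x * q ^ 3 - y * q ^ 2 = q ^ 2 * (x * q - y) := by ring
    have c10 : x * q - y * q ^ 2 = q * (x - y * q) := by ring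
    rw [c1, c3, c4, c5, c6, c8, c9, c10]
    field_simp

/-- Telescoping for the q-Watson sum. -/
theorem tele_D {q x : K} (hq0 : q ≠ 0) (hx0 : x ≠ 0) (hx : ∀ i : ℕ, 1 - x * q ^ i ≠ 0)
    (hq : ∀ i : ℕ, 1 - q ^ (i + 1) ≠ 0) (k : ℕ) :
    (1 - x * q ^ 3) ^ 2 * (q ^ (2 * k) * pd q (x * q ^ 4) k) -
      q ^ 2 * (1 - x * q) ^ 2 * (q ^ (2 * k) * pd q x k) =
    -(x * q ^ 3 * (1 - x ^ 2 * q ^ 4) * (pd q (x * q ^ 4) (k + 1) * (1 - q ^ (2 * (k + 1))) ^ 2 *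
      (1 - (q ^ (2 * (k + 1))) ^ 2) / ((1 - x * q * q ^ (2 * (k + 1))) *
        (1 - x * q ^ 3 * q ^ (2 * (k + 1)))))) -
    -(x * q ^ 3 * (1 - x ^ 2 * q ^ 4) * (pd q (x * q ^ 4) k * (1 - q ^ (2 * k)) ^ 2 *
      (1 - (q ^ (2 * k)) ^ 2) / ((1 - x * q * q ^ (2 * k)) * (1 - x * q ^ 3 * q ^ (2 * k))))) := by
  rw [pd_ratio hq0 hx0 hx hq k, pd_succ]
  set y := q ^ (2 * k) with hy'
  set p := pd q (x * q ^ 4) k with hp
  have e1 : q ^ (2 * k + 1) = y * q := by rw [hy', pow_succ]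
  have e2 : q ^ (2 * k + 2) = y * q ^ 2 := by rw [hy', pow_add]
  have e3 : q ^ (2 * (k + 1)) = y * q ^ 2 := by rw [hy', ← pow_add]; congr 1
  have e4 : q ^ (4 * k + 4) = y ^ 2 * q ^ 4 := by
    rw [hy', ← pow_mul, ← pow_add]; congr 1; ring
  have e5 : q ^ (4 * k + 2) = y ^ 2 * q ^ 2 := by
    rw [hy', ← pow_mul, ← pow_add]; congr 1; ring
  have hy0 : y ≠ 0 := pow_ne_zero _ hq0
  have a1 : 1 - x * q * y ≠ 0 := by
    have := hx (2 * k + 1); rw [e1] at this; intro h; apply this; linear_combination h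
  have a5 : 1 - y * q ^ 2 ≠ 0 := by
    have := hq (2 * k + 1); rwa [show 2 * k + 1 + 1 = 2 * k + 2 from rfl, e2] at this
  have a4 : 1 - y ^ 2 * q ^ 4 ≠ 0 := by
    have := hq (4 * k + 3); rwa [show 4 * k + 3 + 1 = 4 * k + 4 from rfl, e4] at this
  have a6 : 1 - x * q ^ 3 * y ≠ 0 := by
    have := hx (2 * k + 3)
    have e : q ^ (2 * k + 3) = y * q ^ 3 := by rw [hy', pow_add]
    rw [e] at this; intro h; apply this; linear_combination h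
  have a7 : 1 - x * q ^ 5 * y ≠ 0 := by
    have := hx (2 * k + 5)
    have e : q ^ (2 * k + 5) = y * q ^ 5 := by rw [hy', pow_add]
    rw [e] at this; intro h; apply this; linear_combination h
  rw [e1, e2, e3, e4, e5]
  have c1 : 1 - x * q ^ 4 * (y * q) = 1 - x * q ^ 5 * y := by ring
  have c4 : 1 - x * q * (y * q ^ 2) = 1 - x * q ^ 3 * y := by ring
  have c5 : 1 - x * q ^ 3 * (y * q ^ 2) = 1 - x * q ^ 5 * y := by ring
  have c6 : 1 - (x * q ^ 4)⁻¹ * (y * q) = (x * q ^ 3 - y) / (x * q ^ 3) := by field_simp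
  have c7 : 1 - (y * q ^ 2) ^ 2 = 1 - y ^ 2 * q ^ 4 := by ring
  rw [c1, c4, c5, c6, c7]
  obtain ⟨d1, hd1⟩ : ∃ d, 1 - x * q * y = d := ⟨_, rfl⟩
  obtain ⟨d4, hd4⟩ : ∃ d, 1 - y ^ 2 * q ^ 4 = d := ⟨_, rfl⟩
  obtain ⟨d5, hd5⟩ : ∃ d, 1 - y * q ^ 2 = d := ⟨_, rfl⟩
  obtain ⟨d6, hd6⟩ : ∃ d, 1 - x * q ^ 3 * y = d := ⟨_, rfl⟩
  obtain ⟨d7, hd7⟩ : ∃ d, 1 - x * q ^ 5 * y = d := ⟨_, rfl⟩
  rw [hd1] at a1
  rw [hd4] at a4
  rw [hd5] at a5
  rw [hd6] at a6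
  rw [hd7] at a7
  rw [hd1, hd4, hd5, hd6, hd7]
  clear c1 c4 c5 c6 c7
  field_simp
  subst hd1 hd4 hd5 hd6 hd7
  ring

end Pool.Agent.Q281.QC
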